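import Pool.Agent.H479.Y.Stm

/-! # reflection and continuity of the zero sum (proved by helper34) -/


open MeasureTheory Complex Filter Topology
open scoped ComplexConjugate

namespace H479.Y

open H370 H479.U

namespace H34abs

theorem conj_hh (u t : ℝ) (s : ℂ) : conj (hh u t s) = hh (-u) t (1 - conj s) := by
  unfold hh
  rw [map_mul, ← Complex.exp_conj, ← Complex.exp_conj]
  have h2 : conj (1 / 2 : ℂ) = 1 / 2 := by
    rw [map_div₀, map_one]
    congr 1
    exact Complex.conj_ofNat 2
  have h3 : conj (2 : ℂ) = 2 := Complex.conj_ofNat 2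
  simp only [map_mul, map_sub, map_div₀, map_pow, Complex.conj_ofReal, Complex.conj_I, map_one, h3]
  congr 2
  · push_cast
    ring
  · ring

theorem conj_AZ (Z : Finset ℂ) (m : ℂ → ℕ) (h : Sys Z m) (u t : ℝ) :
    conj (AZ Z m u t) = AZ Z m (-u) t := by
  unfold AZ
  rw [map_sum]
  refine Finset.sum_nbij' (fun s => 1 - conj s) (fun s => 1 - conj s) ?_ ?_ ?_ ?_ ?_
  · intro s hs
    exact h.refl s hs
  · intro s hs
    exact h.refl s hs
  · intro s _
    simp
  · intro s _
    simp
  · intro s hs
    rw [map_mul, conj_hh, h.mrefl s hs]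
    simp

theorem cont2 (Z : Finset ℂ) (m : ℂ → ℕ) :
    Continuous fun p : ℝ × ℝ => AZ Z m p.1 p.2 := by
  unfold AZ hh
  fun_prop

end H34abs

theorem abs_ : S_ABS := by
  intro Z m h
  refine ⟨?_, ?_, ?_⟩
  · intro u t
    rw [← H34abs.conj_AZ Z m h u t, RCLike.norm_conj]
  · intro u
    have h2 := (H34abs.cont2 Z m).comp (Continuous.prodMk_right u)
    exact h2
  · intro t1 t2
    unfold JZ
    refine intervalIntegral.continuous_parametric_intervalIntegral_of_continuous' ?_ t1 t2
    have h2 := H34abs.cont2 Z m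
    exact (h2.norm.pow 2)

end H479.Y
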