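import Pool.Agent.H479.Y.Stm

/-! # coefficients of -L'/L (proved by helper51) -/

/-!
# H479-Y-COEF: the coefficients of -L'/L
-/

open MeasureTheory Complex Filter Topology
open scoped ComplexConjugate

namespace H479.Y

open H370 H479.U

namespace H51Coef

lemma term_eq (f : ℕ → ℂ) (h0 : f 0 = 0) (s : ℂ) (n : ℕ) :
    LSeries.term f s n = f n * (n : ℂ) ^ (-s) := by
  rcases eq_or_ne n 0 with rfl | hn
  · simp [h0]
  · rw [LSeries.term_of_ne_zero hn, cpow_neg, div_eq_mul_inv]

end H51Coef

theorem coef : S_COEF := by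
  intro q _ χ
  refine ⟨fun n => ?_, fun s hs _ => ?_⟩
  · rw [norm_mul, Complex.norm_real, Real.norm_eq_abs,
      abs_of_nonneg ArithmeticFunction.vonMangoldt_nonneg]
    exact mul_le_of_le_one_right ArithmeticFunction.vonMangoldt_nonneg
      (DirichletCharacter.norm_le_one χ _)
  · have h1 := DirichletCharacter.LSeries_twist_vonMangoldt_eq χ hs
    rw [DirichletCharacter.deriv_LFunction_eq_deriv_LSeries χ hs,
      DirichletCharacter.LFunction_eq_LSeries χ hs]
    rw [neg_div, eq_neg_iff_add_eq_zero, add_comm, ← eq_neg_iff_add_eq_zero] at h1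
    rw [h1]
    congr 1
    unfold LSeries
    refine tsum_congr fun n => ?_
    rw [H51Coef.term_eq _ (by simp)]
    simp [mul_comm]

end H479.Y
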