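import Pool.Agent.H479.Y.Ef
import Pool.Graph.R_seed8.H370R2.PC2

/-!
# The explicit formula for the zeros in `(T, 2T]`
-/

open Complex Filter Topology Set MeasureTheory

namespace H479.Y

open H370

theorem ef2 (hC : S_CNT) : S_EF2 := by
  classical
  intro F hF a hc B hB
  obtain ⟨C, T1, hC0, hT1, hef⟩ := ef_of hF hc B hB (good_height hF)
  obtain ⟨K, T2, hK, hT2, hcnt⟩ := hC F hF
  refine ⟨C + 4 * K, max (max T1 T2) (Real.exp (20 * (B + 1))), by positivity,
    (hT1.trans (le_max_left _ _)).trans (le_max_left _ _), fun T hT u t hu huL ht1 ht2 => ?_⟩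
  have hTT1 : T1 ≤ T := ((le_max_left _ _).trans (le_max_left _ _)).trans hT
  have hTT2 : T2 ≤ T := ((le_max_right _ _).trans (le_max_left _ _)).trans hT
  have hTe : Real.exp (20 * (B + 1)) ≤ T := (le_max_right _ _).trans hT
  have hTpos : 0 < T := (Real.exp_pos _).trans_le hTe
  have hL : 20 * (B + 1) ≤ Real.log T := by
    rw [Real.le_log_iff_exp_le hTpos]; exact hTe
  have hT10 : 10 ≤ T := hT1.trans hTT1
  obtain ⟨U1, U2, hU1, hU1', hU2', hU2, hmain⟩ := hef T hTT1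
  obtain ⟨hc1, -⟩ := hcnt T hTT2
  set L := Real.log T with hLdef
  have h1U : 1 ≤ U1 := by linarith
  have h1T : (1 : ℝ) ≤ T := by linarith
  have hsub : Zf F U1 U2 ⊆ Zf F T (2 * T) := by
    intro s hs
    rw [mem_Zf hF h1U] at hs
    rw [mem_Zf hF h1T]
    exact ⟨hs.1, hs.2.1, by linarith [hs.2.2.1], by linarith [hs.2.2.2.1], hs.2.2.2.2⟩
  have hdiff : AA F T (2 * T) u t - AA F U1 U2 u t =
      ∑ s ∈ Zf F T (2 * T) \ Zf F U1 U2, (mult F s : ℂ) * hh u t s := by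
    rw [AA_eq hF h1T, AA_eq hF h1U, ← Finset.sum_sdiff hsub]
    ring
  have hE : Real.exp (-(L - 1) ^ 2 / 2) * Real.exp (u / 2) * L ≤ 1 := by
    have h1 := small_auxB hB hL hu huL
    have h2 : Real.exp (-u) ≤ 1 := Real.exp_le_one_iff.mpr (by linarith)
    have h3 : Real.exp (-(L - 1) ^ 2 / 2) ≤ Real.exp (-(L - 1) ^ 2 / 4) := by
      apply Real.exp_le_exp.mpr
      nlinarith [sq_nonneg (L - 1)]
    have h4 : Real.exp (u / 2) ≤ Real.exp u := by
      apply Real.exp_le_exp.mpr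
      linarith
    have h5 : L ≤ L ^ 2 := by nlinarith
    have h0 : 0 ≤ L := by linarith
    calc Real.exp (-(L - 1) ^ 2 / 2) * Real.exp (u / 2) * L ≤
        Real.exp (-(L - 1) ^ 2 / 4) * Real.exp u * L ^ 2 := by gcongr
      _ = Real.exp u * (L ^ 2 * Real.exp (-(L - 1) ^ 2 / 4)) := by ring
      _ ≤ Real.exp (-u) := h1
      _ ≤ 1 := h2
  have hterm : ∀ s ∈ Zf F T (2 * T) \ Zf F U1 U2, ‖(mult F s : ℂ) * hh u t s‖ ≤
      2 * (Real.exp (-(L - 1) ^ 2 / 2) * Real.exp (u / 2)) *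
      ((if T < s.im ∧ s.im ≤ T + 1 then (mult F s : ℝ) else 0) +
        (if 2 * T - 1 < s.im ∧ s.im ≤ 2 * T - 1 + 1 then (mult F s : ℝ) else 0)) := by
    intro s hs
    rw [Finset.mem_sdiff, mem_Zf hF h1T, mem_Zf hF h1U] at hs
    obtain ⟨hs1, hs2⟩ := hs
    have hn := norm_hh_le hs1 u t hu
    have hcase : s.im ≤ U1 ∨ U2 < s.im := by
      by_contra h
      push Not at h
      exact hs2 ⟨hs1.1, hs1.2.1, h.1, h.2, hs1.2.2.2.2⟩
    have hm : (0 : ℝ) ≤ mult F s := Nat.cast_nonneg _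
    have hdist : (L - 1) ^ 2 ≤ (s.im - t) ^ 2 := by
      rcases hcase with h | h
      · nlinarith
      · nlinarith
    have hle : Real.exp (-(s.im - t) ^ 2 / 2) ≤ Real.exp (-(L - 1) ^ 2 / 2) := by
      apply Real.exp_le_exp.mpr
      linarith
    have hsum : (mult F s : ℝ) ≤ ((if T < s.im ∧ s.im ≤ T + 1 then (mult F s : ℝ) else 0) +
        (if 2 * T - 1 < s.im ∧ s.im ≤ 2 * T - 1 + 1 then (mult F s : ℝ) else 0)) := by
      rcases hcase with h | h
      · rw [if_pos ⟨hs1.2.2.1, by linarith⟩]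
        have : 0 ≤ (if 2 * T - 1 < s.im ∧ s.im ≤ 2 * T - 1 + 1 then (mult F s : ℝ) else 0) := by
          split_ifs <;> linarith
        linarith
      · rw [if_pos (show 2 * T - 1 < s.im ∧ s.im ≤ 2 * T - 1 + 1 from
          ⟨by linarith, by linarith [hs1.2.2.2.1]⟩)]
        have : 0 ≤ (if T < s.im ∧ s.im ≤ T + 1 then (mult F s : ℝ) else 0) := by
          split_ifs <;> linarith
        linarith
    rw [norm_mul, Complex.norm_natCast]
    calc (mult F s : ℝ) * ‖hh u t s‖ ≤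
        (mult F s : ℝ) * (2 * Real.exp (u / 2) * Real.exp (-(L - 1) ^ 2 / 2)) := by
          refine mul_le_mul_of_nonneg_left (hn.trans ?_) hm
          gcongr
      _ = 2 * (Real.exp (-(L - 1) ^ 2 / 2) * Real.exp (u / 2)) * (mult F s : ℝ) := by ring
      _ ≤ _ := by gcongr
  have hnd : ‖AA F T (2 * T) u t - AA F U1 U2 u t‖ ≤ 4 * K := by
    rw [hdiff]
    refine (norm_sum_le _ _).trans ((Finset.sum_le_sum hterm).trans ?_)
    rw [← Finset.mul_sum, Finset.sum_add_distrib]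
    have hnn : ∀ y : ℝ, ∀ s ∈ Zf F T (2 * T), 0 ≤
        (if y < s.im ∧ s.im ≤ y + 1 then (mult F s : ℝ) else 0) := by
      intro y s _
      split_ifs <;> positivity
    have h1 : ∀ y : ℝ, ∑ s ∈ Zf F T (2 * T) \ Zf F U1 U2,
        (if y < s.im ∧ s.im ≤ y + 1 then (mult F s : ℝ) else 0) ≤ K * L := fun y =>
      (Finset.sum_le_sum_of_subset_of_nonneg Finset.sdiff_subset
        fun s hs _ => hnn y s hs).trans (hc1 y)
    have h2 := h1 T
    have h3 := h1 (2 * T - 1)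
    have h4 : 0 ≤ 2 * (Real.exp (-(L - 1) ^ 2 / 2) * Real.exp (u / 2)) := by positivity
    calc _ ≤ 2 * (Real.exp (-(L - 1) ^ 2 / 2) * Real.exp (u / 2)) * (K * L + K * L) := by
          refine mul_le_mul_of_nonneg_left (add_le_add h2 h3) h4
      _ = 4 * K * (Real.exp (-(L - 1) ^ 2 / 2) * Real.exp (u / 2) * L) := by ring
      _ ≤ 4 * K * 1 := by gcongr
      _ = 4 * K := by ring
  have hm := hmain u t hu huL ht1 ht2
  have hexp : C * Real.exp (-u) ≤ C := by
    have : Real.exp (-u) ≤ 1 := Real.exp_le_one_iff.mpr (by linarith)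
    nlinarith
  calc ‖AA F T (2 * T) u t - (1 / Real.sqrt (2 * Real.pi) : ℝ) *
      (L * cexp (I * u * t) * Real.exp (-u ^ 2 / 2) - PP a u t)‖ =
      ‖(AA F T (2 * T) u t - AA F U1 U2 u t) + (AA F U1 U2 u t -
        (1 / Real.sqrt (2 * Real.pi) : ℝ) *
        (L * cexp (I * u * t) * Real.exp (-u ^ 2 / 2) - PP a u t))‖ := by
        congr 1; ring
    _ ≤ 4 * K + C * Real.exp (-u) := (norm_add_le _ _).trans (add_le_add hnd hm)
    _ ≤ _ := by linarith

end H479.Y
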