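import Pool.Agent.H479.Y.Stm
import Pool.Graph.R_seed8.H370R2.PC3

/-! # imprimitive characters (proved by helper167) -/


set_option autoImplicit false

open MeasureTheory Complex Filter Topology
open scoped ComplexConjugate

namespace H479.Y

open H370 H479.U

namespace ImpA

theorem an {q : ℕ} [NeZero q] (ψ : DirichletCharacter ℂ q) {s : ℂ} (hs : s ≠ 1) :
    AnalyticAt ℂ (DirichletCharacter.LFunction ψ) s := by
  have h : DifferentiableOn ℂ (DirichletCharacter.LFunction ψ) {z : ℂ | z ≠ 1} := fun z hz =>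
    (DirichletCharacter.differentiableAt_LFunction ψ z (Or.inl hz)).differentiableWithinAt
  exact h.analyticAt (isOpen_ne.mem_nhds hs)

theorem fac_ne {M : ℕ} (χ : DirichletCharacter ℂ M) {p : ℕ} (hp : p.Prime) {s : ℂ}
    (hs : 0 < s.re) : 1 - χ p * (p : ℂ) ^ (-s) ≠ 0 := by
  intro h
  have h1 : χ p * (p : ℂ) ^ (-s) = 1 := (sub_eq_zero.1 h).symm
  have h2 : ‖χ p * (p : ℂ) ^ (-s)‖ = 1 := by rw [h1, norm_one]
  rw [norm_mul] at h2
  have h3 : ‖χ p‖ ≤ 1 := DirichletCharacter.norm_le_one χ _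
  have h4 : ‖(p : ℂ) ^ (-s)‖ < 1 := by
    rw [Complex.norm_natCast_cpow_of_pos hp.pos, neg_re]
    exact Real.rpow_lt_one_of_one_lt_of_neg (by exact_mod_cast hp.one_lt) (by linarith)
  have h5 : ‖χ p‖ * ‖(p : ℂ) ^ (-s)‖ ≤ 1 * ‖(p : ℂ) ^ (-s)‖ :=
    mul_le_mul_of_nonneg_right h3 (norm_nonneg _)
  linarith

theorem prod_an {q M : ℕ} (χ : DirichletCharacter ℂ M) (s : ℂ) :
    AnalyticAt ℂ (fun z : ℂ => ∏ p ∈ q.primeFactors, (1 - χ p * (p : ℂ) ^ (-z))) s := by
  refine Finset.analyticAt_fun_prod _ fun p hp => ?_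
  have hp0 : (p : ℂ) ≠ 0 := by
    exact_mod_cast (Nat.prime_of_mem_primeFactors hp).ne_zero
  refine analyticAt_const.sub (analyticAt_const.mul ?_)
  have h : Differentiable ℂ fun z : ℂ => (p : ℂ) ^ (-z) := by
    intro z
    exact (differentiableAt_id.neg).const_cpow (Or.inl hp0)
  exact h.analyticAt s

theorem ord {q : ℕ} [NeZero q] (ψ : DirichletCharacter ℂ q) [NeZero ψ.conductor] (s : ℂ)
    (hs : 0 < s.re) (hi : 0 < s.im) :
    analyticOrderAt (DirichletCharacter.LFunction ψ) s =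
      analyticOrderAt (DirichletCharacter.LFunction ψ.primitiveCharacter) s := by
  have h1 : ∀ z : ℂ, 0 < z.im → z ≠ 1 := by
    intro z hz h
    rw [h, one_im] at hz
    exact lt_irrefl _ hz
  have hnh : ∀ᶠ z in 𝓝 s, 0 < z.im := (isOpen_lt continuous_const continuous_im).mem_nhds hi
  set P : ℂ → ℂ := fun z => ∏ p ∈ q.primeFactors, (1 - ψ.primitiveCharacter p * (p : ℂ) ^ (-z))
    with hP
  have he : DirichletCharacter.LFunction ψ =ᶠ[𝓝 s]
      (DirichletCharacter.LFunction ψ.primitiveCharacter * P) := by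
    filter_upwards [hnh] with z hz
    have h2 := DirichletCharacter.LFunction_changeLevel ψ.conductor_dvd_level
      ψ.primitiveCharacter (s := z) (Or.inr (h1 z hz))
    rw [DirichletCharacter.changeLevel_primitiveCharacter] at h2
    rw [h2, Pi.mul_apply]
  have hPa : AnalyticAt ℂ P s := prod_an ψ.primitiveCharacter s
  have hP0 : P s ≠ 0 := Finset.prod_ne_zero_iff.2 fun p hp =>
    fac_ne _ (Nat.prime_of_mem_primeFactors hp) hs
  rw [analyticOrderAt_congr he, analyticOrderAt_mul (an _ (h1 s hi)) hPa,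
    hPa.analyticOrderAt_eq_zero.2 hP0, add_zero]

/-- the terms at the powers of `p` -/
noncomputable def gp (p n : ℕ) : ℝ :=
  open Classical in
  if n ∈ Set.range (fun j : ℕ => p ^ (j + 1)) then
    ArithmeticFunction.vonMangoldt n * (Real.sqrt n)⁻¹ else 0

theorem gp_nonneg (p n : ℕ) : 0 ≤ gp p n := by
  unfold gp
  split_ifs
  · exact mul_nonneg ArithmeticFunction.vonMangoldt_nonneg (inv_nonneg.2 (Real.sqrt_nonneg _))
  · exact le_refl _

theorem gp_summable {p : ℕ} (hp : p.Prime) : Summable (gp p) := by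
  have hinj : Function.Injective (fun j : ℕ => p ^ (j + 1)) := by
    intro a b hab
    have := Nat.pow_right_injective hp.two_le hab
    omega
  rw [← hinj.summable_iff]
  · have hp1 : (1 : ℝ) < p := by exact_mod_cast hp.one_lt
    have hs1 : 1 < Real.sqrt p := by
      rw [Real.lt_sqrt (by norm_num)]
      simpa using hp1
    have hr0 : 0 ≤ (Real.sqrt p)⁻¹ := inv_nonneg.2 (Real.sqrt_nonneg _)
    have hr1 : (Real.sqrt p)⁻¹ < 1 := inv_lt_one_of_one_lt₀ hs1
    have h1 := (summable_geometric_of_lt_one hr0 hr1).mul_left (Real.log p * (Real.sqrt p)⁻¹)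
    refine h1.congr fun j => ?_
    show Real.log p * (Real.sqrt p)⁻¹ * (Real.sqrt p)⁻¹ ^ j = gp p (p ^ (j + 1))
    unfold gp
    rw [if_pos ⟨j, rfl⟩, ArithmeticFunction.vonMangoldt_apply_pow (Nat.succ_ne_zero j),
      ArithmeticFunction.vonMangoldt_apply_prime hp]
    have h2 : Real.sqrt ((p ^ (j + 1) : ℕ) : ℝ) = Real.sqrt p ^ (j + 1) := by
      rw [Nat.cast_pow, Real.sqrt_eq_iff_mul_self_eq_of_pos (pow_pos (by linarith) _)]
      rw [← mul_pow, Real.mul_self_sqrt (Nat.cast_nonneg _)]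
    rw [h2, ← inv_pow, pow_succ]
    ring
  · intro n hn
    unfold gp
    rw [if_neg hn]

/-- the bound -/
noncomputable def gq (q n : ℕ) : ℝ :=
  if Nat.Coprime n q then 0 else ArithmeticFunction.vonMangoldt n * (Real.sqrt n)⁻¹

theorem gq_nonneg (q n : ℕ) : 0 ≤ gq q n := by
  unfold gq
  split_ifs
  · exact le_refl _
  · exact mul_nonneg ArithmeticFunction.vonMangoldt_nonneg (inv_nonneg.2 (Real.sqrt_nonneg _))

theorem gq_le {q : ℕ} (hq : q ≠ 0) (n : ℕ) : gq q n ≤ ∑ p ∈ q.primeFactors, gp p n := by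
  have h0 : 0 ≤ ∑ p ∈ q.primeFactors, gp p n := Finset.sum_nonneg fun p _ => gp_nonneg p n
  unfold gq
  by_cases hc : Nat.Coprime n q
  · rw [if_pos hc]
    exact h0
  rw [if_neg hc]
  by_cases hL : ArithmeticFunction.vonMangoldt n = 0
  · rw [hL, zero_mul]
    exact h0
  obtain ⟨p, k, hp, hk, rfl⟩ := (isPrimePow_nat_iff n).1
    (ArithmeticFunction.vonMangoldt_ne_zero_iff.1 hL)
  have hpq : p ∈ q.primeFactors := by
    rw [Nat.mem_primeFactors]
    refine ⟨hp, ?_, hq⟩
    by_contra hpq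
    exact hc (Nat.Coprime.pow_left k ((Nat.Prime.coprime_iff_not_dvd hp).2 hpq))
  refine le_trans (le_of_eq ?_) (Finset.single_le_sum (f := fun p' => gp p' (p ^ k))
    (fun p' _ => gp_nonneg p' _) hpq)
  show ArithmeticFunction.vonMangoldt (p ^ k) * (Real.sqrt ((p ^ k : ℕ) : ℝ))⁻¹ = gp p (p ^ k)
  unfold gp
  rw [if_pos ⟨k - 1, by show p ^ (k - 1 + 1) = p ^ k; rw [Nat.sub_add_cancel hk]⟩]

theorem gq_summable {q : ℕ} (hq : q ≠ 0) : Summable (gq q) := by
  refine Summable.of_nonneg_of_le (gq_nonneg q) (gq_le hq) ?_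
  exact summable_sum fun p hp => gp_summable (Nat.prime_of_mem_primeFactors hp)

end ImpA

open ImpA

theorem imp : S_IMP := by
  intro q _ ψ _
  refine ⟨fun s hs hi => ord ψ s hs hi, ∑' n, gq q n, fun u t hu => ?_⟩
  have hq : q ≠ 0 := NeZero.ne q
  set a : ℕ → ℂ := fun n => (ArithmeticFunction.vonMangoldt n : ℂ) * ψ (n : ZMod q) with ha
  set b : ℕ → ℂ := fun n => (ArithmeticFunction.vonMangoldt n : ℂ) *
    ψ.primitiveCharacter (n : ZMod ψ.conductor) with hb
  have hL : ∀ n : ℕ, ‖(ArithmeticFunction.vonMangoldt n : ℂ)‖ = ArithmeticFunction.vonMangoldt n :=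
    fun n => by
      rw [Complex.norm_real, Real.norm_of_nonneg ArithmeticFunction.vonMangoldt_nonneg]
  have ha1 : ∀ n, ‖a n‖ ≤ ArithmeticFunction.vonMangoldt n := by
    intro n
    rw [ha]
    simp only
    rw [norm_mul, hL]
    exact mul_le_of_le_one_right ArithmeticFunction.vonMangoldt_nonneg
      (DirichletCharacter.norm_le_one ψ _)
  have hb1 : ∀ n, ‖b n‖ ≤ ArithmeticFunction.vonMangoldt n := by
    intro n
    rw [hb]
    simp only
    rw [norm_mul, hL]
    exact mul_le_of_le_one_right ArithmeticFunction.vonMangoldt_nonneg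
      (DirichletCharacter.norm_le_one _ _)
  have hab : ∀ n, ‖a n - b n‖ * (Real.sqrt n)⁻¹ ≤ gq q n := by
    intro n
    unfold gq
    by_cases hc : Nat.Coprime n q
    · rw [if_pos hc]
      have h1 : IsCoprime (n : ℤ) (q : ℤ) := Nat.isCoprime_iff_coprime.2 hc
      have h2 := ψ.primitiveCharacter_apply_of_isCoprime h1
      have h3 : a n - b n = 0 := by
        rw [ha, hb]
        simp only
        rw [← mul_sub]
        have h4 : ψ.primitiveCharacter (n : ZMod ψ.conductor) = ψ (n : ZMod q) := by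
          have e1 : (((n : ℤ)) : ZMod ψ.conductor) = (n : ZMod ψ.conductor) := Int.cast_natCast n
          have e2 : (((n : ℤ)) : ZMod q) = (n : ZMod q) := Int.cast_natCast n
          rw [e1, e2] at h2
          exact h2
        rw [h4, sub_self, mul_zero]
      rw [h3, norm_zero, zero_mul]
    · rw [if_neg hc]
      refine mul_le_mul_of_nonneg_right ?_ (inv_nonneg.2 (Real.sqrt_nonneg _))
      have h1 : ψ (n : ZMod q) = 0 := by
        apply MulChar.map_nonunit
        intro hu
        exact hc ((ZMod.isUnit_iff_coprime n q).1 hu)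
      have h3 : a n - b n = -b n := by
        rw [ha]
        simp only
        rw [h1, mul_zero, zero_sub]
      rw [h3, norm_neg]
      exact hb1 n
  have hsa := pterm_summable ha1 u t
  have hsb := pterm_summable hb1 u t
  rw [PP_eq, PP_eq, ← hsa.tsum_sub hsb]
  have hterm : ∀ n, ‖pterm a u t n - pterm b u t n‖ ≤ gq q n := by
    intro n
    have h1 : pterm a u t n - pterm b u t n = pterm (fun n => a n - b n) u t n := by
      unfold pterm
      ring
    rw [h1, norm_pterm]
    unfold pt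
    refine le_trans ?_ (hab n)
    refine mul_le_of_le_one_right (by positivity) ?_
    rw [Real.exp_le_one_iff]
    nlinarith [sq_nonneg (u - Real.log n)]
  exact tsum_of_norm_bounded (gq_summable hq).hasSum hterm

end H479.Y
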