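import Pool.Agent.H479.Y.Stm
import Pool.Graph.R_seed8.H370R2.PC3

/-! # continuity of the mean square of the prime polynomial (proved by helper696) -/


open MeasureTheory Complex Filter Topology
open scoped ComplexConjugate

namespace H479.Y

open H370 H479.U

namespace MCaux

theorem pt_le_r {r : ℝ} (hr : 0 ≤ r) {a : ℕ → ℂ}
    (ha : ∀ n, ‖a n‖ ≤ r * ArithmeticFunction.vonMangoldt n) (u : ℝ) (n : ℕ) :
    pt a u n ≤ r * (2 * Real.exp (2 + 2 * u) * (1 / (n : ℝ) ^ 2)) := by
  have h0 : ∀ n, ‖((ArithmeticFunction.vonMangoldt n : ℝ) : ℂ)‖ ≤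
      ArithmeticFunction.vonMangoldt n := by
    intro n
    rw [Complex.norm_real, Real.norm_of_nonneg ArithmeticFunction.vonMangoldt_nonneg]
  have h1 := pt_le (a := fun n => ((ArithmeticFunction.vonMangoldt n : ℝ) : ℂ)) h0 u n
  have h2 : pt a u n ≤ r * pt (fun n => ((ArithmeticFunction.vonMangoldt n : ℝ) : ℂ)) u n := by
    unfold pt
    rw [Complex.norm_real, Real.norm_of_nonneg ArithmeticFunction.vonMangoldt_nonneg, ← mul_assoc,
      ← mul_assoc]
    have h3 := ha n
    gcongr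
  exact h2.trans (mul_le_mul_of_nonneg_left h1 hr)

theorem joint {r : ℝ} (hr : 0 ≤ r) {a : ℕ → ℂ}
    (ha : ∀ n, ‖a n‖ ≤ r * ArithmeticFunction.vonMangoldt n) :
    Continuous (fun p : ℝ × ℝ => PP a p.1 p.2) := by
  rw [continuous_iff_continuousAt]
  intro p0
  have hopen : IsOpen {p : ℝ × ℝ | p.1 < p0.1 + 1} := isOpen_lt continuous_fst continuous_const
  have hmem : p0 ∈ {p : ℝ × ℝ | p.1 < p0.1 + 1} := by
    show p0.1 < p0.1 + 1
    linarith
  have hon : ContinuousOn (fun p : ℝ × ℝ => PP a p.1 p.2) {p : ℝ × ℝ | p.1 < p0.1 + 1} := by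
    have h1 : (fun p : ℝ × ℝ => PP a p.1 p.2) = fun p : ℝ × ℝ => ∑' n, pterm a p.1 p.2 n := by
      funext p
      exact PP_eq a p.1 p.2
    rw [h1]
    refine continuousOn_tsum
      (u := fun n : ℕ => r * (2 * Real.exp (2 + 2 * (p0.1 + 1)) * (1 / (n : ℝ) ^ 2)))
      (fun n => ?_) ((sum_inv_sq.mul_left _).mul_left _) (fun n p hp => ?_)
    · unfold pterm
      fun_prop
    · rw [norm_pterm]
      refine (pt_le_r hr ha p.1 n).trans ?_
      have hp' : p.1 < p0.1 + 1 := hp
      gcongr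
  exact hon.continuousAt (hopen.mem_nhds hmem)

end MCaux

theorem mc : S_MC := by
  intro r hr a ha
  have hj := MCaux.joint hr ha
  refine ⟨fun u => ?_, fun t1 t2 => ?_⟩
  · have h1 : Continuous fun t : ℝ => (u, t) := Continuous.prodMk_right u
    have h2 := hj.comp h1
    have h3 : ((fun p : ℝ × ℝ => PP a p.1 p.2) ∘ fun t : ℝ => (u, t)) = fun t => PP a u t := by
      funext t
      rfl
    rw [h3] at h2
    exact h2
  · have h1 : Continuous (Function.uncurry fun u t : ℝ => ‖PP a u t‖ ^ 2) := by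
      have h2 : (Function.uncurry fun u t : ℝ => ‖PP a u t‖ ^ 2) =
          fun p : ℝ × ℝ => ‖PP a p.1 p.2‖ ^ 2 := by
        funext p
        rfl
      rw [h2]
      exact hj.norm.pow 2
    exact intervalIntegral.continuous_parametric_intervalIntegral_of_continuous' h1 t1 t2

end H479.Y
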