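import Pool.Agent.H479.Y.Cnt
import Pool.Agent.H479.Y.Coef
import Pool.Agent.H479.Y.Abs
import Pool.Agent.H479.Y.Imp
import Pool.Agent.H479.Y.Mc
import Pool.Agent.H479.Y.Ef2
import Pool.Graph.R_seed8.H370R2.DirGood

/-!
# The system of the zeros of the L-functions of a set of characters modulo `q`
-/

open Complex Filter Topology Set MeasureTheory
open scoped ComplexConjugate

namespace H479.Y

open H370 H479.U

variable {q : ℕ} [NeZero q]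

lemma cond_ne (ψ : DirichletCharacter ℂ q) : NeZero ψ.conductor :=
  ⟨ψ.conductor_ne_zero⟩

/-- the L-function of the primitive character which induces `ψ` -/
noncomputable def Fp (ψ : DirichletCharacter ℂ q) : ℂ → ℂ :=
  haveI := cond_ne ψ
  DirichletCharacter.LFunction ψ.primitiveCharacter

/-- its coefficients -/
noncomputable def ap (ψ : DirichletCharacter ℂ q) (n : ℕ) : ℂ :=
  (ArithmeticFunction.vonMangoldt n : ℂ) * ψ.primitiveCharacter (n : ZMod ψ.conductor)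

noncomputable def a0 (ψ : DirichletCharacter ℂ q) (n : ℕ) : ℂ :=
  (ArithmeticFunction.vonMangoldt n : ℂ) * ψ (n : ZMod q)

lemma good_Fp (ψ : DirichletCharacter ℂ q) : GoodL (Fp ψ) := by
  have := cond_ne ψ
  exact good_dirichlet ψ.primitiveCharacter ψ.primitiveCharacter_isPrimitive

lemma coef_Fp (ψ : DirichletCharacter ℂ q) : Coef (Fp ψ) (ap ψ) := by
  have := cond_ne ψ
  exact coef ψ.conductor ψ.primitiveCharacter

lemma mult_Fp (ψ : DirichletCharacter ℂ q) {s : ℂ} (h1 : 0 < s.re) (h2 : 0 < s.im) :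
    mult (Fp ψ) s = mult (DirichletCharacter.LFunction ψ) s := by
  have := cond_ne ψ
  have h := (imp q ψ).1 s h1 h2
  unfold mult analyticOrderNatAt
  rw [h]
  rfl

lemma a0_le (ψ : DirichletCharacter ℂ q) (n : ℕ) : ‖a0 ψ n‖ ≤ ArithmeticFunction.vonMangoldt n :=
  (coef q ψ).bd n

lemma aS_eq (S : Finset (DirichletCharacter ℂ q)) (n : ℕ) : aS S n = ∑ ψ ∈ S, a0 ψ n := by
  unfold aS a0
  rw [Finset.mul_sum]

lemma aS_le (S : Finset (DirichletCharacter ℂ q)) (n : ℕ) :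
    ‖aS S n‖ ≤ (S.card : ℝ) * ArithmeticFunction.vonMangoldt n := by
  rw [aS_eq]
  refine (norm_sum_le _ _).trans ((Finset.sum_le_sum fun ψ _ => a0_le ψ n).trans ?_)
  rw [Finset.sum_const, nsmul_eq_mul]

lemma PP_aS (S : Finset (DirichletCharacter ℂ q)) (u t : ℝ) :
    PP (aS S) u t = ∑ ψ ∈ S, PP (a0 ψ) u t := by
  have h : ∀ ψ ∈ S, Summable (pterm (a0 ψ) u t) := fun ψ _ => pterm_summable (a0_le ψ) u t
  have h1 : ∀ ψ : DirichletCharacter ℂ q, PP (a0 ψ) u t = ∑' n, pterm (a0 ψ) u t n := fun ψ => rfl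
  simp_rw [h1]
  rw [← Summable.tsum_finsetSum h]
  unfold PP
  congr 1
  funext n
  unfold pterm
  rw [aS_eq, Finset.sum_mul, Finset.sum_mul, Finset.sum_mul]

/-- the zeros with ordinate in `(T, 2T]` -/
noncomputable def ZS (S : Finset (DirichletCharacter ℂ q)) (T : ℝ) : Finset ℂ := by
  classical
  exact S.biUnion fun ψ => Zf (Fp ψ) T (2 * T)

noncomputable def mS (S : Finset (DirichletCharacter ℂ q)) (s : ℂ) : ℕ := ∑ ψ ∈ S, mult (Fp ψ) s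

lemma mem_ZS {S : Finset (DirichletCharacter ℂ q)} {T : ℝ} (hT : 1 ≤ T) {s : ℂ} :
    s ∈ ZS S T ↔ ∃ ψ ∈ S, s ∈ zset (Fp ψ) T (2 * T) := by
  unfold ZS
  rw [Finset.mem_biUnion]
  constructor
  · rintro ⟨ψ, h1, h2⟩
    exact ⟨ψ, h1, (mem_Zf (good_Fp ψ) hT).1 h2⟩
  · rintro ⟨ψ, h1, h2⟩
    exact ⟨ψ, h1, (mem_Zf (good_Fp ψ) hT).2 h2⟩

lemma ZS_range {S : Finset (DirichletCharacter ℂ q)} {T : ℝ} (hT : 1 ≤ T) {s : ℂ}
    (hs : s ∈ ZS S T) : 0 < s.re ∧ s.re < 1 ∧ T < s.im ∧ s.im ≤ 2 * T := by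
  obtain ⟨ψ, _, h⟩ := (mem_ZS hT).1 hs
  exact ⟨h.1, h.2.1, h.2.2.1, h.2.2.2.1⟩

lemma mult_zero {F : ℂ → ℂ} (hF : GoodL F) {s : ℂ} (hs : 0 < s.im) (h0 : F s ≠ 0) :
    mult F s = 0 := by
  have h := (hF.an s hs).analyticOrderAt_eq_zero.2 h0
  unfold mult analyticOrderNatAt
  rw [h]
  rfl

/-- sums over the union -/
lemma sum_ZS {M : Type*} [AddCommMonoid M] {S : Finset (DirichletCharacter ℂ q)} {T : ℝ}
    (hT : 1 ≤ T) {ψ : DirichletCharacter ℂ q} (hψ : ψ ∈ S) (f : ℂ → M)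
    (hf : ∀ s, mult (Fp ψ) s = 0 → f s = 0) :
    ∑ s ∈ ZS S T, f s = ∑ s ∈ Zf (Fp ψ) T (2 * T), f s := by
  classical
  symm
  apply Finset.sum_subset
  · intro s hs
    rw [mem_ZS hT]
    exact ⟨ψ, hψ, (mem_Zf (good_Fp ψ) hT).1 hs⟩
  · intro s hs hs2
    apply hf
    obtain ⟨h1, h2, h3, h4⟩ := ZS_range hT hs
    rw [mem_Zf (good_Fp ψ) hT] at hs2
    apply mult_zero (good_Fp ψ) (by linarith)
    intro h0
    exact hs2 ⟨h1, h2, h3, h4, h0⟩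

lemma sys_ZS (S : Finset (DirichletCharacter ℂ q)) {T : ℝ} (hT : 1 ≤ T) : Sys (ZS S T) (mS S) where
  refl s hs := by
    obtain ⟨ψ, h1, h2⟩ := (mem_ZS hT).1 hs
    exact (mem_ZS hT).2 ⟨ψ, h1, zset_refl (good_Fp ψ) hT h2⟩
  mrefl s hs := by
    obtain ⟨h1, h2, h3, h4⟩ := ZS_range hT hs
    unfold mS
    exact Finset.sum_congr rfl fun ψ _ => mult_refl (good_Fp ψ) h1 h2 (by linarith)
  pos s hs := by
    obtain ⟨ψ, h1, h2⟩ := (mem_ZS hT).1 hs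
    have h3 : 1 ≤ mult (Fp ψ) s := Loc.mult_pos' (good_Fp ψ) (by linarith [h2.2.2.1]) h2.2.2.2.2
    exact h3.trans (Finset.single_le_sum (f := fun ψ => mult (Fp ψ) s) (fun _ _ => Nat.zero_le _) h1)
  strip s hs := by
    obtain ⟨h1, h2, h3, h4⟩ := ZS_range hT hs
    exact ⟨h1, h2⟩

lemma AZ_ZS (S : Finset (DirichletCharacter ℂ q)) {T : ℝ} (hT : 1 ≤ T) (u t : ℝ) :
    AZ (ZS S T) (mS S) u t = ∑ ψ ∈ S, AA (Fp ψ) T (2 * T) u t := by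
  unfold AZ mS
  have h1 : ∀ s ∈ ZS S T, ((∑ ψ ∈ S, mult (Fp ψ) s : ℕ) : ℂ) * hh u t s =
      ∑ ψ ∈ S, (mult (Fp ψ) s : ℂ) * hh u t s := by
    intro s _
    push_cast
    rw [Finset.sum_mul]
  rw [Finset.sum_congr rfl h1, Finset.sum_comm]
  refine Finset.sum_congr rfl fun ψ hψ => ?_
  rw [AA_eq (good_Fp ψ) hT, sum_ZS hT hψ]
  intro s hs
  rw [hs]
  simp

lemma NZ_ZS (S : Finset (DirichletCharacter ℂ q)) {T : ℝ} (hT : 1 ≤ T) :
    NZ (ZS S T) (mS S) = ∑ ψ ∈ S, NZ (Zf (Fp ψ) T (2 * T)) (mult (Fp ψ)) := by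
  unfold NZ mS
  have h1 : ∀ s ∈ ZS S T, ((∑ ψ ∈ S, mult (Fp ψ) s : ℕ) : ℝ) = ∑ ψ ∈ S, (mult (Fp ψ) s : ℝ) := by
    intro s _
    push_cast
    rfl
  rw [Finset.sum_congr rfl h1, Finset.sum_comm]
  refine Finset.sum_congr rfl fun ψ hψ => ?_
  rw [sum_ZS hT hψ]
  intro s hs
  rw [hs]
  simp

lemma cnt_ZS (S : Finset (DirichletCharacter ℂ q)) : ∃ K T0 : ℝ, 0 < K ∧ 10 ≤ T0 ∧
    ∀ T : ℝ, T0 ≤ T →
    (∀ y : ℝ, ∑ s ∈ ZS S T, (if y < s.im ∧ s.im ≤ y + 1 then (mS S s : ℝ) else 0) ≤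
      K * Real.log T) ∧
    |NZ (ZS S T) (mS S) - S.card * (T * Real.log T / (2 * Real.pi))| ≤ K * T := by
  choose K T0 hK hT0 h using fun ψ : DirichletCharacter ℂ q => cnt (Fp ψ) (good_Fp ψ)
  have hle : ∀ ψ ∈ S, T0 ψ ≤ 10 + ∑ ψ ∈ S, T0 ψ := by
    intro ψ hψ
    have := Finset.single_le_sum (f := T0) (fun ψ _ => by linarith [hT0 ψ]) hψ
    linarith
  have hK0 : 0 ≤ ∑ ψ ∈ S, K ψ := Finset.sum_nonneg fun ψ _ => (hK ψ).le
  have hT00 : 0 ≤ ∑ ψ ∈ S, T0 ψ := Finset.sum_nonneg fun ψ _ => by linarith [hT0 ψ]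
  refine ⟨1 + ∑ ψ ∈ S, K ψ, 10 + ∑ ψ ∈ S, T0 ψ, by linarith, by linarith, fun T hT => ?_⟩
  have hT1 : 1 ≤ T := by linarith
  have hl : 0 ≤ Real.log T := Real.log_nonneg hT1
  constructor
  · intro y
    have h1 : ∀ s ∈ ZS S T, (if y < s.im ∧ s.im ≤ y + 1 then (mS S s : ℝ) else 0) =
        ∑ ψ ∈ S, (if y < s.im ∧ s.im ≤ y + 1 then (mult (Fp ψ) s : ℝ) else 0) := by
      intro s _
      unfold mS
      split_ifs
      · push_cast; rfl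
      · simp
    rw [Finset.sum_congr rfl h1, Finset.sum_comm]
    calc ∑ ψ ∈ S, ∑ s ∈ ZS S T, (if y < s.im ∧ s.im ≤ y + 1 then (mult (Fp ψ) s : ℝ) else 0) =
        ∑ ψ ∈ S, ∑ s ∈ Zf (Fp ψ) T (2 * T),
          (if y < s.im ∧ s.im ≤ y + 1 then (mult (Fp ψ) s : ℝ) else 0) := by
          refine Finset.sum_congr rfl fun ψ hψ => ?_
          rw [sum_ZS hT1 hψ]
          intro s hs
          rw [hs]
          simp
      _ ≤ ∑ ψ ∈ S, K ψ * Real.log T :=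
          Finset.sum_le_sum fun ψ hψ => (h ψ T ((hle ψ hψ).trans hT)).1 y
      _ = (∑ ψ ∈ S, K ψ) * Real.log T := by rw [Finset.sum_mul]
      _ ≤ _ := by nlinarith
  · rw [NZ_ZS S hT1]
    have h1 : ∑ ψ ∈ S, NZ (Zf (Fp ψ) T (2 * T)) (mult (Fp ψ)) -
        S.card * (T * Real.log T / (2 * Real.pi)) =
        ∑ ψ ∈ S, (NZ (Zf (Fp ψ) T (2 * T)) (mult (Fp ψ)) - T * Real.log T / (2 * Real.pi)) := by
      rw [Finset.sum_sub_distrib, Finset.sum_const, nsmul_eq_mul]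
    rw [h1]
    calc _ ≤ ∑ ψ ∈ S, |NZ (Zf (Fp ψ) T (2 * T)) (mult (Fp ψ)) - T * Real.log T / (2 * Real.pi)| :=
          Finset.abs_sum_le_sum_abs _ _
      _ ≤ ∑ ψ ∈ S, K ψ * T :=
          Finset.sum_le_sum fun ψ hψ => (h ψ T ((hle ψ hψ).trans hT)).2
      _ = (∑ ψ ∈ S, K ψ) * T := by rw [Finset.sum_mul]
      _ ≤ _ := by nlinarith

/-- the explicit formula for the system -/
lemma ef_ZS (S : Finset (DirichletCharacter ℂ q)) (B : ℝ) (hB : 1 ≤ B) :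
    ∃ C T0 : ℝ, 0 < C ∧ 10 ≤ T0 ∧ ∀ T : ℝ, T0 ≤ T → ∀ u t : ℝ, 0 ≤ u → u ≤ B * Real.log T →
      T + Real.log T ≤ t → t ≤ 2 * T - Real.log T →
      ‖AZ (ZS S T) (mS S) u t - (1 / Real.sqrt (2 * Real.pi) : ℝ) *
        (((S.card : ℝ) : ℂ) * Real.log T * cexp (I * u * t) * Real.exp (-u ^ 2 / 2) -
          PP (aS S) u t)‖ ≤ C := by
  choose C T0 hC hT0 h using fun ψ : DirichletCharacter ℂ q =>
    ef2 cnt (Fp ψ) (good_Fp ψ) (ap ψ) (coef_Fp ψ) B hB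
  have himp : ∀ ψ : DirichletCharacter ℂ q, ∃ C : ℝ, ∀ u t : ℝ, 0 ≤ u →
      ‖PP (a0 ψ) u t - PP (ap ψ) u t‖ ≤ C := by
    intro ψ
    have := cond_ne ψ
    exact (imp q ψ).2
  choose C' hC' using himp
  have hC'0 : ∀ ψ, 0 ≤ C' ψ := fun ψ => (norm_nonneg _).trans (hC' ψ 0 0 le_rfl)
  have hle : ∀ ψ ∈ S, T0 ψ ≤ 10 + ∑ ψ ∈ S, T0 ψ := by
    intro ψ hψ
    have := Finset.single_le_sum (f := T0) (fun ψ _ => by linarith [hT0 ψ]) hψ
    linarith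
  have hCs : 0 ≤ ∑ ψ ∈ S, (C ψ + C' ψ) :=
    Finset.sum_nonneg fun ψ _ => by linarith [hC ψ, hC'0 ψ]
  have hT00 : 0 ≤ ∑ ψ ∈ S, T0 ψ := Finset.sum_nonneg fun ψ _ => by linarith [hT0 ψ]
  refine ⟨1 + ∑ ψ ∈ S, (C ψ + C' ψ), 10 + ∑ ψ ∈ S, T0 ψ, by linarith, by linarith,
    fun T hT u t hu huL ht1 ht2 => ?_⟩
  have hT1 : 1 ≤ T := by linarith
  obtain ⟨c, hc⟩ : ∃ c : ℝ, c = 1 / Real.sqrt (2 * Real.pi) := ⟨_, rfl⟩
  have hc0 : 0 ≤ c := by rw [hc]; positivity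
  have hc1 : c ≤ 1 := by
    rw [hc, div_le_one (by positivity)]
    rw [show (1 : ℝ) = Real.sqrt 1 by simp]
    apply Real.sqrt_le_sqrt
    linarith [Real.pi_gt_three]
  rw [← hc, AZ_ZS S hT1, PP_aS]
  have e : ∑ ψ ∈ S, AA (Fp ψ) T (2 * T) u t - (c : ℂ) *
        (((S.card : ℝ) : ℂ) * Real.log T * cexp (I * u * t) * Real.exp (-u ^ 2 / 2) -
          ∑ ψ ∈ S, PP (a0 ψ) u t) =
      ∑ ψ ∈ S, ((AA (Fp ψ) T (2 * T) u t - (c : ℂ) *
        (Real.log T * cexp (I * u * t) * Real.exp (-u ^ 2 / 2) - PP (ap ψ) u t)) +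
        (c : ℂ) * (PP (a0 ψ) u t - PP (ap ψ) u t)) := by
    rw [Finset.sum_add_distrib, Finset.sum_sub_distrib, ← Finset.mul_sum, ← Finset.mul_sum,
      Finset.sum_sub_distrib, Finset.sum_sub_distrib, Finset.sum_const, nsmul_eq_mul]
    push_cast
    ring
  rw [e]
  calc _ ≤ ∑ ψ ∈ S, (C ψ + C' ψ) := by
        refine (norm_sum_le _ _).trans (Finset.sum_le_sum fun ψ hψ => ?_)
        refine (norm_add_le _ _).trans (add_le_add ?_ ?_)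
        · have := h ψ T ((hle ψ hψ).trans hT) u t hu huL ht1 ht2
          rw [← hc] at this
          exact this
        · rw [norm_mul, Complex.norm_real, Real.norm_of_nonneg hc0]
          calc c * ‖PP (a0 ψ) u t - PP (ap ψ) u t‖ ≤ 1 * C' ψ :=
                mul_le_mul hc1 (hC' ψ u t hu) (norm_nonneg _) zero_le_one
            _ = C' ψ := one_mul _
    _ ≤ _ := by linarith

end H479.Y
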