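import Pool.Agent.H479.Y.Stm
import Pool.Graph.R_seed8.H370R2.Count

/-! # number of zeros (proved by helper17) -/


set_option autoImplicit false

open MeasureTheory Complex Filter Topology
open scoped ComplexConjugate

namespace H479.Y

open H370 H479.U

theorem cnt : S_CNT := by
  classical
  intro F hF
  obtain ⟨C1, T1, hC1, hT1, h1⟩ := nn_asymp hF
  obtain ⟨C2, hC2, h2⟩ := zcount hF
  refine ⟨C1 + 2 * C2, T1, by positivity, hT1, fun T hT => ⟨fun y => ?_, ?_⟩⟩
  · have hT10 : 10 ≤ T := hT1.trans hT
    have hlogT : 0 ≤ Real.log T := Real.log_nonneg (by linarith)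
    have hK : 0 ≤ (C1 + 2 * C2) * Real.log T := by positivity
    by_cases hne : ∃ s ∈ Zf F T (2 * T), y < s.im ∧ s.im ≤ y + 1
    · obtain ⟨s0, hs0, hy1, hy2⟩ := hne
      have hs0' := (mem_Zf hF (by linarith)).1 hs0
      have ha := hs0'.2.2.1
      have hb := hs0'.2.2.2.1
      have ht3 : 3 ≤ y + 1 := by linarith
      have hc := h2 (y + 1) ht3
      rw [show y + 1 - 1 = y by ring] at hc
      rw [NN_eq hF (show (1 : ℝ) ≤ y by linarith)] at hc
      push_cast at hc
      rw [← Finset.sum_filter]
      have hsub : (Zf F T (2 * T)).filter (fun s => y < s.im ∧ s.im ≤ y + 1) ⊆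
          Zf F y (y + 1 + 1) := by
        intro s hs
        rw [Finset.mem_filter] at hs
        have hs' := (mem_Zf hF (by linarith)).1 hs.1
        rw [mem_Zf hF (by linarith)]
        exact ⟨hs'.1, hs'.2.1, hs.2.1, by linarith [hs.2.2], hs'.2.2.2.2⟩
      have hle := Finset.sum_le_sum_of_subset_of_nonneg hsub
        (f := fun s => (mult F s : ℝ)) fun s _ _ => Nat.cast_nonneg _
      have hlog : Real.log (y + 1) ≤ 2 * Real.log T := by
        rw [← Real.log_rpow (by linarith)]
        refine Real.log_le_log (by linarith) ?_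
        rw [Real.rpow_two]
        nlinarith
      have h5 : C2 * Real.log (y + 1) ≤ C2 * (2 * Real.log T) :=
        mul_le_mul_of_nonneg_left hlog hC2.le
      have h6 : 0 ≤ C1 * Real.log T := by positivity
      linarith
    · push Not at hne
      rw [Finset.sum_eq_zero]
      · exact hK
      · intro s hs
        exact if_neg fun h => absurd h.2 (not_le.2 (hne s hs h.1))
  · have hT10 : 10 ≤ T := hT1.trans hT
    have h3 := h1 T hT T (2 * T) le_rfl (by linarith) (by linarith) le_rfl
    rw [NN_eq hF (show (1 : ℝ) ≤ T by linarith)] at h3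
    push_cast at h3
    unfold NZ
    refine h3.trans ?_
    have h4 : 0 ≤ C2 * T := by positivity
    linarith

end H479.Y

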