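import Pool.Agent.H479.Y.Tent

/-!
# Consequences of the upper half
-/

open Complex Filter Topology Set MeasureTheory

namespace H479.Y

open H370 H479.U

variable {q : ℕ} [NeZero q]

/-- the normalised mean square for a set of characters -/
noncomputable def fS (S : Finset (DirichletCharacter ℂ q)) (T α : ℝ) : ℝ :=
  Mn (aS S) T α / S.card

lemma fS_cont (S : Finset (DirichletCharacter ℂ q)) (T : ℝ) : Continuous (fS S T) :=
  (Mn_cont (Nat.cast_nonneg _) (aS_le S) T).div_const _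

lemma fS_nonneg (S : Finset (DirichletCharacter ℂ q)) (T : ℝ) (hT : 1 ≤ T) (α : ℝ) :
    0 ≤ fS S T α := div_nonneg (Mn_nonneg _ hT α) (Nat.cast_nonneg _)

lemma TT_SS (S : Finset (DirichletCharacter ℂ q)) {A : ℝ} (hA : 1 ≤ A) (T : ℝ) :
    TT S.card A 1 T (aS S) = 1 / A * ∫ t in (1 : ℝ)..A, SS (fS S) T t := by
  have hA0 : 0 < A := by linarith
  have hg : Continuous fun α => fS S T α - 1 := (fS_cont S T).sub continuous_const
  have h := partsY hg A
  unfold SS
  rw [← h, ← intervalIntegral.integral_const_mul]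
  unfold TT
  apply intervalIntegral.integral_congr
  intro α hα
  rw [Set.uIcc_of_le hA] at hα
  simp only [fS]
  rw [min_eq_right hα.1]
  field_simp

lemma N_pos (S : Finset (DirichletCharacter ℂ q)) (hS : S.Nonempty) :
    ∀ᶠ T in atTop, 0 < NZ (ZS S T) (mS S) := by
  obtain ⟨K, T0, hK, hT0, h⟩ := cnt_ZS S
  have h1 : ∀ᶠ T : ℝ in atTop, K * (2 * Real.pi) + 1 ≤ Real.log T :=
    Real.tendsto_log_atTop.eventually_ge_atTop _
  filter_upwards [h1, eventually_ge_atTop T0] with T h1 hT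
  have hT1 : 0 < T := by linarith
  have h2 := (abs_le.1 (h T hT).2).1
  have hr : (1 : ℝ) ≤ S.card := by exact_mod_cast hS.card_pos
  have h3 : K * T < T * Real.log T / (2 * Real.pi) := by
    rw [lt_div_iff₀ (by positivity)]
    nlinarith [Real.pi_pos]
  have h4 : T * Real.log T / (2 * Real.pi) ≤ S.card * (T * Real.log T / (2 * Real.pi)) := by
    have : 0 < T * Real.log T / (2 * Real.pi) := by
      have : 0 ≤ K * T := by positivity
      linarith
    nlinarith
  linarith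

lemma Z1_le (S : Finset (DirichletCharacter ℂ q)) {T : ℝ} (hT : 1 ≤ T) :
    ((Z1 (ZS S T) (mS S)).card : ℝ) ≤ NZ (ZS S T) (mS S) := by
  have h := (counts (sys_ZS S hT)).1
  have h2 : (0 : ℝ) ≤ ((Z2 (ZS S T) (mS S)).card : ℝ) := Nat.cast_nonneg _
  have h3 : (0 : ℝ) ≤ ((Z3 (ZS S T)).card : ℝ) := Nat.cast_nonneg _
  linarith

/-- the lower bound for the tent averages, one character -/
theorem low_one (hMB : S_MB) (χ : DirichletCharacter ℂ q) (A : ℝ) (hA : 1 < A) (e : ℝ)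
    (he : 0 < e) : ∀ᶠ T in atTop, -(1 / 6) - e ≤ ∫ t in (1 : ℝ)..A, SS (fS {χ}) T t := by
  have hA0 : 0 < A := by linarith
  obtain ⟨T0, hT0, h⟩ := tent_S hMB {χ} (Finset.singleton_nonempty χ) A 1 (2 * e / A ^ 2) hA.le
    zero_le_one le_rfl (by positivity)
  filter_upwards [eventually_ge_atTop T0, N_pos {χ} (Finset.singleton_nonempty χ)] with T hT hN
  have h1T : 1 ≤ T := by linarith
  have h1 := (h T hT).1.trans (Z1_le {χ} h1T)
  have h2 := (mul_le_iff_le_one_left hN).1 h1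
  rw [TT_SS {χ} hA.le T, Finset.card_singleton] at h2
  obtain ⟨J, hJ⟩ : ∃ J : ℝ, J = ∫ t in (1 : ℝ)..A, SS (fS {χ}) T t := ⟨_, rfl⟩
  rw [← hJ] at h2 ⊢
  have h3 : 0 ≤ 1 / (3 * A ^ 2) + 2 / A * (1 / A * J) + 2 * e / A ^ 2 := by
    push_cast at h2
    linarith [h2, show (((1 : ℝ) - 1) / A) = 0 by simp]
  have h4 : 1 / (3 * A ^ 2) + 2 / A * (1 / A * J) + 2 * e / A ^ 2 =
      2 / A ^ 2 * (1 / 6 + J + e) := by
    field_simp
    ring
  rw [h4] at h3
  have h5 : 0 < 2 / A ^ 2 := by positivity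
  have h6 := (mul_nonneg_iff_of_pos_left h5).1 h3
  linarith

/-- **finite range** -/
theorem cons_finite (hMB : S_MB) (S : Finset (DirichletCharacter ℂ q)) (hS : S.Nonempty)
    (A : ℝ) (hA : 1 < A) (hU : UBf (fS S) A) (ε : ℝ) (hε : 0 < ε) :
    ∀ᶠ T in atTop,
      (1 - (S.card - 1) / A - 1 / (3 * A ^ 2) - ε) * NZ (ZS S T) (mS S) ≤
        ((Z1 (ZS S T) (mS S)).card : ℝ) ∧
      (1 - (S.card - 1) / (2 * A) - 1 / (6 * A ^ 2) - ε) * NZ (ZS S T) (mS S) ≤
        ((ZS S T).card : ℝ) := by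
  have hA0 : 0 < A := by linarith
  obtain ⟨T0, hT0, h⟩ := tent_S hMB S hS A 1 (ε / 2) hA.le zero_le_one le_rfl (by positivity)
  obtain ⟨e, he⟩ : ∃ e : ℝ, e = ε / 4 := ⟨_, rfl⟩
  have he0 : 0 < e := by rw [he]; positivity
  filter_upwards [eventually_ge_atTop T0, UBf_unif (fS_cont S) (fS_nonneg S) hU le_rfl hA he0]
    with T hT hu
  have hN0 : 0 ≤ NZ (ZS S T) (mS S) := Finset.sum_nonneg fun s _ => Nat.cast_nonneg _
  have hTT : TT S.card A 1 T (aS S) ≤ e := by
    rw [TT_SS S hA.le T]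
    have h1 := intervalIntegral.integral_mono_on (μ := volume) hA.le
      ((SS_cont (fS_cont S) T).intervalIntegrable 1 A) (intervalIntegrable_const (c := e))
      fun t ht => by
        have := hu t ht.1 ht.2
        rw [SS_one] at this
        linarith
    rw [intervalIntegral.integral_const, smul_eq_mul] at h1
    have h2 : 1 / A * (∫ t in (1 : ℝ)..A, SS (fS S) T t) ≤ 1 / A * ((A - 1) * e) :=
      mul_le_mul_of_nonneg_left h1 (by positivity)
    refine h2.trans ?_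
    have h3 : 1 / A * ((A - 1) * e) = e - e / A := by field_simp
    have h4 : 0 ≤ e / A := by positivity
    linarith
  have h2A : 2 / A ≤ 2 := by
    rw [div_le_iff₀ hA0]; linarith
  have h1A : 1 / A ≤ 1 := by
    rw [div_le_iff₀ hA0]; linarith
  have hb1 : 2 / A * TT S.card A 1 T (aS S) ≤ ε / 2 := by
    calc 2 / A * TT S.card A 1 T (aS S) ≤ 2 / A * e := mul_le_mul_of_nonneg_left hTT (by positivity)
      _ ≤ 2 * e := mul_le_mul_of_nonneg_right h2A he0.le
      _ = ε / 2 := by rw [he]; ring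
  have hb2 : 1 / A * TT S.card A 1 T (aS S) ≤ ε / 2 := by
    calc 1 / A * TT S.card A 1 T (aS S) ≤ 1 / A * e := mul_le_mul_of_nonneg_left hTT (by positivity)
      _ ≤ 1 * e := mul_le_mul_of_nonneg_right h1A he0.le
      _ ≤ ε / 2 := by rw [he]; linarith
  obtain ⟨k1, k2⟩ := h T hT
  constructor
  · refine le_trans (mul_le_mul_of_nonneg_right ?_ hN0) k1
    linarith
  · refine le_trans (mul_le_mul_of_nonneg_right ?_ hN0) k2
    linarith

/-- **all windows: almost all zeros simple, on the line, and of one function only** -/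
theorem cons_all (hMB : S_MB) (S : Finset (DirichletCharacter ℂ q)) (hS : S.Nonempty)
    (hU : ∀ A, UBf (fS S) A) (ε : ℝ) (hε : 0 < ε) :
    ∀ᶠ T in atTop,
      (1 - ε) * NZ (ZS S T) (mS S) ≤ ((Z1 (ZS S T) (mS S)).card : ℝ) ∧
      (1 - ε) * NZ (ZS S T) (mS S) ≤ ((ZS S T).card : ℝ) := by
  have hr : (1 : ℝ) ≤ S.card := by exact_mod_cast hS.card_pos
  obtain ⟨A, hA⟩ : ∃ A : ℝ, A = 2 + 4 * S.card / ε := ⟨_, rfl⟩
  have hA1 : 2 ≤ A := by
    rw [hA]
    have : 0 ≤ 4 * (S.card : ℝ) / ε := by positivity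
    linarith
  have hA0 : 0 < A := by linarith
  have hAr : 4 * (S.card : ℝ) ≤ A * ε := by
    have : 4 * (S.card : ℝ) / ε ≤ A := by rw [hA]; linarith
    rwa [div_le_iff₀ hε] at this
  have h1 : ((S.card : ℝ) - 1) / A + 1 / (3 * A ^ 2) ≤ ε / 2 := by
    have h2 : 1 / (3 * A ^ 2) ≤ 1 / A := by
      apply one_div_le_one_div_of_le hA0
      nlinarith
    have h3 : ((S.card : ℝ) - 1) / A + 1 / A = S.card / A := by field_simp; ring
    have h4 : (S.card : ℝ) / A ≤ ε / 4 := by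
      rw [div_le_iff₀ hA0]
      linarith
    linarith
  have h1' : ((S.card : ℝ) - 1) / (2 * A) + 1 / (6 * A ^ 2) ≤ ε / 2 := by
    have e : ((S.card : ℝ) - 1) / (2 * A) + 1 / (6 * A ^ 2) =
        (((S.card : ℝ) - 1) / A + 1 / (3 * A ^ 2)) / 2 := by
      field_simp
      ring
    rw [e]
    linarith
  filter_upwards [cons_finite hMB S hS A (by linarith) (hU A) (ε / 2) (by positivity)] with T hT
  have hN0 : 0 ≤ NZ (ZS S T) (mS S) := Finset.sum_nonneg fun s _ => Nat.cast_nonneg _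
  exact ⟨le_trans (mul_le_mul_of_nonneg_right (by linarith) hN0) hT.1,
    le_trans (mul_le_mul_of_nonneg_right (by linarith) hN0) hT.2⟩

end H479.Y
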