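import Pool.Agent.H479.Y.Stm
import Pool.Agent.H479.U.VV
import Pool.Graph.R_pool_sql_team_ae5b0c61.H55.PNT

/-! # the diagonal for a set of characters modulo q (proved by helper120) -/

/-! # H479-Y-DGS: the diagonal for a set of characters modulo q -/

namespace H479.Y.DGSn

open Finset MeasureTheory
open H479.U (wn wn_nonneg wn_zero smooth_term gshift_int gshift_abs_int)

/-- weights -/
noncomputable def wc (c : ℕ → ℝ) (n : ℕ) : ℝ := c n * wn n

lemma wc_nonneg {c : ℕ → ℝ} (hc : ∀ n, 0 ≤ c n) (n : ℕ) : 0 ≤ wc c n :=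
  mul_nonneg (hc n) (wn_nonneg n)

lemma wc_zero (c : ℕ → ℝ) : wc c 0 = 0 := by unfold wc; rw [wn_zero, mul_zero]

/-- the summatory function -/
noncomputable def Psi (c : ℕ → ℝ) (x : ℝ) : ℝ :=
  ∑ n ∈ Ioc 0 ⌊x⌋₊, c n * ArithmeticFunction.vonMangoldt n

/-- the smoothed sum -/
noncomputable def VVb (c : ℕ → ℝ) (b u : ℝ) : ℝ :=
  ∑' n : ℕ, wc c n * Real.exp (-(u - Real.log n) ^ 2 / b)

/-- cells -/
noncomputable def Scell (c : ℕ → ℝ) (h v : ℝ) (N : ℕ) : ℝ :=
  ∑ n ∈ (Icc 1 N).filter (fun n : ℕ => v < Real.log n ∧ Real.log n ≤ v + h), wc c n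

/-- bound for bounded `v` -/
lemma Scell_bdd {c : ℕ → ℝ} (hc : ∀ n, 0 ≤ c n) (h x0 : ℝ) : ∃ K : ℝ, 0 ≤ K ∧ ∀ v : ℝ, v ≤ x0 → ∀ N : ℕ,
    Scell c h v N ≤ K := by
  have hK0 : (0 : ℝ) ≤ ∑ n ∈ Icc 1 ⌊Real.exp (x0 + h)⌋₊, wc c n := sum_nonneg fun n _ => wc_nonneg hc n
  refine ⟨∑ n ∈ Icc 1 ⌊Real.exp (x0 + h)⌋₊, wc c n, hK0, fun v hv N => ?_⟩
  unfold Scell
  apply sum_le_sum_of_subset_of_nonneg
  · intro n hn
    rw [mem_filter, mem_Icc] at hn
    rw [mem_Icc]
    refine ⟨hn.1.1, ?_⟩
    have hn0 : (0 : ℝ) < n := by exact_mod_cast hn.1.1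
    apply Nat.le_floor
    rw [← Real.exp_log hn0]
    apply Real.exp_le_exp.2
    linarith [hn.2.2]
  · intro n _ _
    exact wc_nonneg hc n

/-- bound from the prime number theorem -/
lemma Scell_pnt {c : ℕ → ℝ} (hc : ∀ n, 0 ≤ c n)
    (hlim : Filter.Tendsto (fun x : ℝ => Psi c x / x) Filter.atTop (nhds 1)) (h : ℝ) (hh : 0 < h) (hh1 : h ≤ 1 / 4) : ∃ x0 : ℝ, 0 ≤ x0 ∧ ∀ v : ℝ, x0 ≤ v → ∀ N : ℕ,
    Scell c h v N ≤ (v + h) * (h * (1 + 5 * h)) := by
  obtain ⟨Y0, hY0⟩ : ∃ Y0 : ℝ, ∀ y : ℝ, Y0 ≤ y → |Psi c y - y| ≤ (h ^ 2 / 2) * y := by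
    have h1 := hlim
    rw [Metric.tendsto_atTop] at h1
    obtain ⟨Y0, hY0⟩ := h1 (h ^ 2 / 2) (by positivity)
    refine ⟨max Y0 1, fun y hy => ?_⟩
    have hy1 : 1 ≤ y := (le_max_right _ _).trans hy
    have hy0 : 0 < y := by linarith
    have h1 := hY0 y ((le_max_left _ _).trans hy)
    rw [Real.dist_eq] at h1
    have h2 : Psi c y - y = (Psi c y / y - 1) * y := by field_simp
    rw [h2, abs_mul, abs_of_pos hy0]
    exact mul_le_mul_of_nonneg_right h1.le hy0.le
  refine ⟨max 0 (Real.log (max Y0 1)), le_max_left _ _, fun v hv N => ?_⟩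
  have hv0 : 0 ≤ v := (le_max_left _ _).trans hv
  have hev : Y0 ≤ Real.exp v := by
    have h1 : Real.log (max Y0 1) ≤ v := (le_max_right _ _).trans hv
    have h2 : (0 : ℝ) < max Y0 1 := lt_of_lt_of_le one_pos (le_max_right _ _)
    have h3 : max Y0 1 ≤ Real.exp v := by
      rw [← Real.exp_log h2]; exact Real.exp_le_exp.2 h1
    exact (le_max_left _ _).trans h3
  have hev2 : Y0 ≤ Real.exp (v + h) := hev.trans (Real.exp_le_exp.2 (by linarith))
  have e1 := (abs_le.1 (hY0 _ hev)).1
  have e2 := (abs_le.1 (hY0 _ hev2)).2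
  have hE : 0 < Real.exp v := Real.exp_pos v
  have hpsi : Psi c (Real.exp (v + h)) - Psi c (Real.exp v) ≤
      Real.exp v * (h * (1 + 5 * h)) := by
    have h1 : Real.exp (v + h) = Real.exp v * Real.exp h := Real.exp_add v h
    have h2 : Real.exp h ≤ 1 + h + h ^ 2 := by
      have := Real.abs_exp_sub_one_sub_id_le (x := h) (by rw [abs_of_pos hh]; linarith)
      have h3 := (abs_le.1 this).2
      linarith
    rw [h1] at e2 ⊢
    have h4 : Real.exp v * Real.exp h ≤ Real.exp v * (1 + h + h ^ 2) := by gcongr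
    have h5 : h ^ 2 / 2 * (Real.exp v * Real.exp h) ≤ h ^ 2 / 2 * (Real.exp v * (1 + h + h ^ 2)) := by
      gcongr
    have h6 : Real.exp v * (1 + h + h ^ 2) + h ^ 2 / 2 * (Real.exp v * (1 + h + h ^ 2)) -
        (Real.exp v - h ^ 2 / 2 * Real.exp v) ≤ Real.exp v * (h * (1 + 5 * h)) := by
      have : Real.exp v * (1 + h + h ^ 2) + h ^ 2 / 2 * (Real.exp v * (1 + h + h ^ 2)) -
        (Real.exp v - h ^ 2 / 2 * Real.exp v) = Real.exp v * (h + 2 * h ^ 2 +
          h ^ 3 / 2 + h ^ 4 / 2) := by ring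
      rw [this]
      apply mul_le_mul_of_nonneg_left _ hE.le
      have h7 : h ^ 3 ≤ h ^ 2 := by
        have := pow_le_pow_of_le_one hh.le (by linarith : h ≤ 1) (show 2 ≤ 3 by norm_num)
        exact this
      have h8 : h ^ 4 ≤ h ^ 2 := pow_le_pow_of_le_one hh.le (by linarith : h ≤ 1) (by norm_num)
      nlinarith [sq_nonneg h]
    linarith
  -- the sum
  have hsum : Scell c h v N ≤ (v + h) / Real.exp v *
      (Psi c (Real.exp (v + h)) - Psi c (Real.exp v)) := by
    have hle : ⌊Real.exp v⌋₊ ≤ ⌊Real.exp (v + h)⌋₊ :=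
      Nat.floor_le_floor (Real.exp_le_exp.2 (by linarith))
    have hpsi2 : Psi c (Real.exp (v + h)) - Psi c (Real.exp v) =
        ∑ n ∈ Ioc ⌊Real.exp v⌋₊ ⌊Real.exp (v + h)⌋₊,
          c n * ArithmeticFunction.vonMangoldt n := by
      unfold Psi
      rw [← sum_Ioc_consecutive (fun n => c n * ArithmeticFunction.vonMangoldt n)
        (Nat.zero_le _) hle]
      ring
    rw [hpsi2, mul_sum]
    unfold Scell
    calc ∑ n ∈ (Icc 1 N).filter (fun n : ℕ => v < Real.log n ∧ Real.log n ≤ v + h), wc c n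
        ≤ ∑ n ∈ (Icc 1 N).filter (fun n : ℕ => v < Real.log n ∧ Real.log n ≤ v + h),
          (v + h) / Real.exp v * (c n * ArithmeticFunction.vonMangoldt n) := by
          apply sum_le_sum
          intro n hn
          rw [mem_filter, mem_Icc] at hn
          have hn0 : (0 : ℝ) < n := by exact_mod_cast hn.1.1
          have hL0 : 0 ≤ ArithmeticFunction.vonMangoldt n := ArithmeticFunction.vonMangoldt_nonneg
          have hL1 : ArithmeticFunction.vonMangoldt n ≤ v + h :=
            ArithmeticFunction.vonMangoldt_le_log.trans hn.2.2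
          have hn1 : Real.exp v ≤ n := by
            rw [← Real.exp_log hn0]; exact Real.exp_le_exp.2 hn.2.1.le
          have hw : wn n ≤ (v + h) / Real.exp v * ArithmeticFunction.vonMangoldt n := by
            unfold wn
            rw [div_mul_eq_mul_div, sq]
            gcongr
          unfold wc
          calc c n * wn n ≤ c n * ((v + h) / Real.exp v * ArithmeticFunction.vonMangoldt n) :=
                mul_le_mul_of_nonneg_left hw (hc n)
            _ = (v + h) / Real.exp v * (c n * ArithmeticFunction.vonMangoldt n) := by ring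
      _ ≤ ∑ n ∈ Ioc ⌊Real.exp v⌋₊ ⌊Real.exp (v + h)⌋₊,
          (v + h) / Real.exp v * (c n * ArithmeticFunction.vonMangoldt n) := by
          apply sum_le_sum_of_subset_of_nonneg
          · intro n hn
            rw [mem_filter, mem_Icc] at hn
            have hn0 : (0 : ℝ) < n := by exact_mod_cast hn.1.1
            rw [mem_Ioc]
            constructor
            · rw [Nat.floor_lt hE.le, ← Real.exp_log hn0]
              exact Real.exp_lt_exp.2 hn.2.1
            · apply Nat.le_floor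
              rw [← Real.exp_log hn0]
              exact Real.exp_le_exp.2 hn.2.2
          · intro n _ _
            have hL0 : 0 ≤ ArithmeticFunction.vonMangoldt n := ArithmeticFunction.vonMangoldt_nonneg
            exact mul_nonneg (by positivity) (mul_nonneg (hc n) hL0)
  refine hsum.trans ?_
  calc (v + h) / Real.exp v *
      (Psi c (Real.exp (v + h)) - Psi c (Real.exp v)) ≤
      (v + h) / Real.exp v * (Real.exp v * (h * (1 + 5 * h))) := by
        apply mul_le_mul_of_nonneg_left hpsi; positivity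
    _ = _ := by field_simp

/-- continuous majorant -/
lemma Scell_le {c : ℕ → ℝ} (hc : ∀ n, 0 ≤ c n)
    (hlim : Filter.Tendsto (fun x : ℝ => Psi c x / x) Filter.atTop (nhds 1)) (h : ℝ) (hh : 0 < h) (hh1 : h ≤ 1 / 4) : ∃ K : ℝ, 0 ≤ K ∧ ∀ v : ℝ, ∀ N : ℕ,
    Scell c h v N ≤ h * (1 + 5 * h) * (|v| + h) + K := by
  obtain ⟨x0, hx0, h1⟩ := Scell_pnt hc hlim h hh hh1
  obtain ⟨K, hK, h2⟩ := Scell_bdd hc h x0
  refine ⟨K, hK, fun v N => ?_⟩
  rcases le_or_gt x0 v with hv | hv
  · have h3 := h1 v hv N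
    have h4 : v ≤ |v| := le_abs_self v
    have h5 : (v + h) * (h * (1 + 5 * h)) ≤ (|v| + h) * (h * (1 + 5 * h)) := by gcongr
    linarith
  · have h3 := h2 v hv.le N
    have : 0 ≤ h * (1 + 5 * h) * (|v| + h) := by positivity
    linarith

/-- upper bound by the prime number theorem -/
theorem VVb_le {c : ℕ → ℝ} (hc : ∀ n, 0 ≤ c n)
    (hlim : Filter.Tendsto (fun x : ℝ => Psi c x / x) Filter.atTop (nhds 1)) (b η : ℝ) (hb : 0 < b) (hη : 0 < η) : ∃ K : ℝ, 0 ≤ K ∧ ∀ u : ℝ, 0 ≤ u →
    Summable (fun n : ℕ => wc c n * Real.exp (-(u - Real.log n) ^ 2 / b)) ∧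
    VVb c b u ≤ (1 + η) * Real.sqrt (Real.pi * b) * u + K := by
  set η1 : ℝ := min η 1 with hη1
  have hη10 : 0 < η1 := lt_min hη one_pos
  have hη11 : η1 ≤ 1 := min_le_right _ _
  have hη12 : η1 ≤ η := min_le_left _ _
  set θ : ℝ := η1 / 8 with hθ
  have hθ0 : 0 < θ := by positivity
  have hθ1 : θ ≤ 1 / 8 := by rw [hθ]; linarith
  set h : ℝ := min (η1 / 40) (θ * b * η1 / 8) with hh
  have hh0 : 0 < h := lt_min (by positivity) (by positivity)
  have hh1 : h ≤ η1 / 40 := min_le_left _ _
  have hh2 : h ≤ θ * b * η1 / 8 := min_le_right _ _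
  have hh3 : h ≤ 1 / 4 := by linarith
  obtain ⟨K0, hK0, hS⟩ := Scell_le hc hlim h hh0 hh3
  set cc : ℝ := (1 - θ) / b with hcc
  have hc0 : 0 < cc := div_pos (by linarith) hb
  set E : ℝ := Real.exp (h ^ 2 / (θ * b)) with hE
  have hE0 : 0 < E := Real.exp_pos _
  set K1 : ℝ := ∫ x : ℝ, |x| * Real.exp (-cc * x ^ 2) with hK1
  have hK10 : 0 ≤ K1 := integral_nonneg fun x => by positivity
  have hgc : ∫ x : ℝ, Real.exp (-cc * x ^ 2) = Real.sqrt (Real.pi / cc) := integral_gaussian cc
  set s : ℝ := Real.sqrt (Real.pi / cc) with hs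
  have hs0 : 0 ≤ s := Real.sqrt_nonneg _
  set K : ℝ := (E / h) * (h * (1 + 5 * h) * (K1 + h * s) + K0 * s) with hK
  have hK' : 0 ≤ K := by positivity
  refine ⟨K, hK', fun u hu => ?_⟩
  set g : ℝ → ℝ := fun v => Real.exp (-cc * (v - u) ^ 2) with hg
  have hgi : Integrable g := gshift_int cc u hc0
  have hgv : ∫ v, g v = s := by
    rw [← hgc]
    exact integral_sub_right_eq_self (fun x : ℝ => Real.exp (-cc * x ^ 2)) u
  have hgai : Integrable (fun v : ℝ => |v - u| * g v) := gshift_abs_int cc u hc0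
  have hgav : ∫ v, |v - u| * g v = K1 :=
    integral_sub_right_eq_self (fun x : ℝ => |x| * Real.exp (-cc * x ^ 2)) u
  -- the majorant
  set M : ℝ → ℝ := fun v => (h * (1 + 5 * h) * (u + h) + K0) * g v +
    (h * (1 + 5 * h)) * (|v - u| * g v) with hM
  have hMi : Integrable M := (hgi.const_mul _).add (hgai.const_mul _)
  have hMv : ∫ v, M v = (h * (1 + 5 * h) * (u + h) + K0) * s + (h * (1 + 5 * h)) * K1 := by
    simp only [hM]
    rw [integral_add (hgi.const_mul _) (hgai.const_mul _), integral_const_mul, integral_const_mul,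
      hgv, hgav]
  have hpart : ∀ N : ℕ, ∑ n ∈ Icc 1 N, wc c n * Real.exp (-(u - Real.log n) ^ 2 / b) ≤
      (E / h) * ∫ v, M v := by
    intro N
    have hind : ∀ n : ℕ, Integrable (fun v : ℝ => wc c n *
        (Set.Ico (Real.log n - h) (Real.log n)).indicator g v) := by
      intro n
      exact (hgi.indicator measurableSet_Ico).const_mul _
    calc ∑ n ∈ Icc 1 N, wc c n * Real.exp (-(u - Real.log n) ^ 2 / b)
        ≤ ∑ n ∈ Icc 1 N, wc c n * ((E / h) * ∫ v in (Real.log n - h)..(Real.log n), g v) := by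
          apply sum_le_sum
          intro n _
          exact mul_le_mul_of_nonneg_left (smooth_term b h θ u (Real.log n) hb hh0 hθ0
            (by linarith)) (wc_nonneg hc n)
      _ = (E / h) * ∑ n ∈ Icc 1 N, ∫ v, wc c n *
          (Set.Ico (Real.log n - h) (Real.log n)).indicator g v := by
          rw [mul_sum]
          apply sum_congr rfl
          intro n _
          rw [integral_const_mul, integral_indicator measurableSet_Ico,
            integral_Ico_eq_integral_Ioc, ← intervalIntegral.integral_of_le (by linarith)]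
          ring
      _ = (E / h) * ∫ v, ∑ n ∈ Icc 1 N, wc c n *
          (Set.Ico (Real.log n - h) (Real.log n)).indicator g v := by
          rw [integral_finsetSum _ fun n _ => hind n]
      _ ≤ (E / h) * ∫ v, M v := by
          apply mul_le_mul_of_nonneg_left _ (by positivity)
          apply integral_mono (integrable_finsetSum _ fun n _ => hind n) hMi
          intro v
          have h1 : ∑ n ∈ Icc 1 N, wc c n *
              (Set.Ico (Real.log n - h) (Real.log n)).indicator g v = Scell c h v N * g v := by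
            unfold Scell
            rw [sum_filter, sum_mul]
            apply sum_congr rfl
            intro n _
            by_cases hm : v < Real.log n ∧ Real.log n ≤ v + h
            · rw [if_pos hm, Set.indicator_of_mem]
              exact ⟨by linarith [hm.2], hm.1⟩
            · rw [if_neg hm, Set.indicator_of_notMem, mul_zero, zero_mul]
              intro hmem
              exact hm ⟨hmem.2, by linarith [hmem.1]⟩
          simp only
          rw [h1]
          have h2 := hS v N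
          have h3 : |v| ≤ u + |v - u| := by
            have : |v| = |u + (v - u)| := by ring_nf
            rw [this]
            refine (abs_add_le _ _).trans ?_
            rw [abs_of_nonneg hu]
          have h4 : 0 ≤ g v := (Real.exp_pos _).le
          have h5 : Scell c h v N ≤ (h * (1 + 5 * h) * (u + h) + K0) +
              (h * (1 + 5 * h)) * |v - u| := by
            have : h * (1 + 5 * h) * (|v| + h) ≤ h * (1 + 5 * h) * (u + |v - u| + h) := by gcongr
            nlinarith
          have h6 := mul_le_mul_of_nonneg_right h5 h4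
          simp only [hM]
          linarith
  have hfin : (E / h) * ∫ v, M v ≤ (1 + η) * Real.sqrt (Real.pi * b) * u + K := by
    rw [hMv]
    have e1 : (E / h) * ((h * (1 + 5 * h) * (u + h) + K0) * s + (h * (1 + 5 * h)) * K1) =
        E * (1 + 5 * h) * s * u + K := by
      rw [hK]; field_simp; ring
    rw [e1]
    have e2 : E * (1 + 5 * h) * s ≤ (1 + η) * Real.sqrt (Real.pi * b) := by
      have hs2 : s ≤ (1 + θ) * Real.sqrt (Real.pi * b) := by
        have h1 : Real.pi / cc ≤ (1 + θ) ^ 2 * (Real.pi * b) := by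
          rw [hcc, div_div_eq_mul_div, div_le_iff₀ (by linarith)]
          have h2 : 1 ≤ (1 + θ) ^ 2 * (1 - θ) := by nlinarith [sq_nonneg θ, mul_pos hθ0 hθ0]
          have h3 : 0 ≤ Real.pi * b := by positivity
          nlinarith
        rw [hs]
        refine (Real.sqrt_le_sqrt h1).trans ?_
        rw [Real.sqrt_mul (by positivity), Real.sqrt_sq (by linarith)]
      have hE2 : E ≤ Real.exp (η1 / 8) := by
        rw [hE]
        apply Real.exp_le_exp.2
        rw [div_le_iff₀ (by positivity)]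
        have h4 : h ^ 2 ≤ h := by nlinarith
        calc h ^ 2 ≤ h := h4
          _ ≤ θ * b * η1 / 8 := hh2
          _ = η1 / 8 * (θ * b) := by ring
      have hE3 : 1 + 5 * h ≤ Real.exp (η1 / 8) := by
        have := Real.add_one_le_exp (η1 / 8); linarith
      have hE4 : 1 + θ ≤ Real.exp (η1 / 8) := by
        have := Real.add_one_le_exp (η1 / 8); linarith
      have hE5 : Real.exp (η1 / 8) * Real.exp (η1 / 8) * Real.exp (η1 / 8) ≤ 1 + η1 := by
        rw [← Real.exp_add, ← Real.exp_add]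
        have h5 := Real.exp_bound_div_one_sub_of_interval (x := η1 / 8 + η1 / 8 + η1 / 8)
          (by positivity) (by linarith)
        refine h5.trans ?_
        rw [div_le_iff₀ (by linarith)]
        nlinarith
      calc E * (1 + 5 * h) * s ≤ Real.exp (η1 / 8) * Real.exp (η1 / 8) *
          (Real.exp (η1 / 8) * Real.sqrt (Real.pi * b)) := by
            have h7 : s ≤ Real.exp (η1 / 8) * Real.sqrt (Real.pi * b) :=
              hs2.trans (mul_le_mul_of_nonneg_right hE4 (Real.sqrt_nonneg _))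
            gcongr
        _ = (Real.exp (η1 / 8) * Real.exp (η1 / 8) * Real.exp (η1 / 8)) *
            Real.sqrt (Real.pi * b) := by ring
        _ ≤ (1 + η1) * Real.sqrt (Real.pi * b) := by gcongr
        _ ≤ (1 + η) * Real.sqrt (Real.pi * b) := by gcongr
    have := mul_le_mul_of_nonneg_right e2 hu
    linarith
  have hrange : ∀ N : ℕ, ∑ n ∈ range N, wc c n * Real.exp (-(u - Real.log n) ^ 2 / b) ≤
      (1 + η) * Real.sqrt (Real.pi * b) * u + K := by
    intro N
    refine le_trans ?_ ((hpart N).trans hfin)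
    have h1 : ∑ n ∈ range N, wc c n * Real.exp (-(u - Real.log n) ^ 2 / b) ≤
        ∑ n ∈ range (N + 1), wc c n * Real.exp (-(u - Real.log n) ^ 2 / b) :=
      sum_le_sum_of_subset_of_nonneg (range_mono (Nat.le_succ N)) fun n _ _ =>
        mul_nonneg (wc_nonneg hc n) (Real.exp_pos _).le
    refine h1.trans (le_of_eq ?_)
    rw [range_eq_Ico, sum_eq_sum_Ico_succ_bot (by omega), wc_zero c, zero_mul, zero_add]
    rfl
  have hnn : ∀ n : ℕ, 0 ≤ wc c n * Real.exp (-(u - Real.log n) ^ 2 / b) := fun n =>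
    mul_nonneg (wc_nonneg hc n) (Real.exp_pos _).le
  exact ⟨summable_of_sum_range_le hnn hrange, Real.tsum_le_of_sum_range_le hnn hrange⟩


section arith

open ArithmeticFunction

variable {q : ℕ} [NeZero q] (S : Finset (DirichletCharacter ℂ q))

/-- the square of the absolute value of the sum of the characters -/
noncomputable def Cr (r : ZMod q) : ℝ := ‖∑ ψ ∈ S, ψ r‖ ^ 2

lemma Cr_nonneg (r : ZMod q) : 0 ≤ Cr S r := by unfold Cr; positivity

lemma Cr_zero {r : ZMod q} (hr : ¬ IsUnit r) : Cr S r = 0 := by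
  unfold Cr
  rw [Finset.sum_eq_zero fun ψ _ => MulChar.map_nonunit ψ hr]
  simp

/-- orthogonality -/
lemma sum_Cr : ∑ r : ZMod q, Cr S r = (S.card : ℝ) * (q.totient : ℝ) := by
  have h1 : ((∑ r : ZMod q, Cr S r : ℝ) : ℂ) = ((S.card : ℝ) * (q.totient : ℝ) : ℝ) := by
    push_cast
    have h2 : ∀ r : ZMod q, ((Cr S r : ℝ) : ℂ) = ∑ ψ ∈ S, ∑ ψ' ∈ S, (ψ * ψ'⁻¹) r := by
      intro r
      unfold Cr
      push_cast
      rw [← Complex.mul_conj', map_sum, Finset.sum_mul_sum]
      refine Finset.sum_congr rfl fun ψ _ => Finset.sum_congr rfl fun ψ' _ => ?_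
      rw [MulChar.mul_apply]
      congr 1
      exact MulChar.star_apply' ψ' r
    simp only [h2]
    rw [Finset.sum_comm]
    have h3 : ∀ ψ ∈ S, ∑ r : ZMod q, ∑ ψ' ∈ S, (ψ * ψ'⁻¹) r = (q.totient : ℂ) := by
      intro ψ hψ
      rw [Finset.sum_comm, Finset.sum_eq_single ψ]
      · rw [mul_inv_cancel, MulChar.sum_one_eq_card_units, ZMod.card_units_eq_totient]
      · intro ψ' _ hne
        apply MulChar.sum_eq_zero_of_ne_one
        intro h
        exact hne (mul_inv_eq_one.mp h).symm
      · intro h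
        exact absurd hψ h
    rw [Finset.sum_congr rfl h3, Finset.sum_const, nsmul_eq_mul]
  exact_mod_cast h1

/-- the normalised weights -/
noncomputable def cS (n : ℕ) : ℝ := Cr S (n : ZMod q) / S.card

lemma cS_nonneg (n : ℕ) : 0 ≤ cS S n := div_nonneg (Cr_nonneg S _) (Nat.cast_nonneg _)

lemma Psi_eq (x : ℝ) : Psi (cS S) x =
    ∑ r : ZMod q, Cr S r / S.card * ∑ k ∈ Finset.Icc 1 ⌊x⌋₊, vonMangoldt.residueClass r k := by
  unfold Psi
  have h0 : Finset.Ioc 0 ⌊x⌋₊ = Finset.Icc 1 ⌊x⌋₊ := rfl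
  rw [h0]
  simp only [Finset.mul_sum]
  rw [Finset.sum_comm]
  refine Finset.sum_congr rfl fun n _ => ?_
  rw [Finset.sum_eq_single (n : ZMod q)]
  · unfold cS
    congr 1
    rw [vonMangoldt.residueClass, Set.indicator_of_mem]
    rfl
  · intro r _ hr
    rw [vonMangoldt.residueClass, Set.indicator_of_notMem, mul_zero]
    intro h
    exact hr h.symm
  · intro h
    exact absurd (Finset.mem_univ _) h

lemma Psi_lim (hS : S.Nonempty) :
    Filter.Tendsto (fun x : ℝ => Psi (cS S) x / x) Filter.atTop (nhds 1) := by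
  have hcard : (0 : ℝ) < S.card := by exact_mod_cast hS.card_pos
  have hφ : (0 : ℝ) < q.totient := by exact_mod_cast Nat.totient_pos.2 (NeZero.pos q)
  have h1 : Filter.Tendsto (fun x : ℝ => ∑ r : ZMod q, Cr S r / S.card *
      ((∑ k ∈ Finset.Icc 1 ⌊x⌋₊, vonMangoldt.residueClass r k) / x)) Filter.atTop
      (nhds (∑ r : ZMod q, Cr S r / S.card * (q.totient : ℝ)⁻¹)) := by
    refine tendsto_finsetSum _ fun r _ => ?_
    by_cases hr : IsUnit r
    · exact (Pool.Agent.H55.PNT.psi_ap hr).const_mul _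
    · rw [Cr_zero S hr]
      simp
  have h2 : ∑ r : ZMod q, Cr S r / S.card * (q.totient : ℝ)⁻¹ = 1 := by
    rw [← Finset.sum_mul, ← Finset.sum_div, sum_Cr]
    field_simp
  rw [h2] at h1
  refine h1.congr fun x => ?_
  rw [Psi_eq, Finset.sum_div]
  refine Finset.sum_congr rfl fun r _ => ?_
  rw [mul_div_assoc]

end arith

end H479.Y.DGSn

namespace H479.Y

open DGSn in
theorem dgs : S_DGS := by
  intro q _ S hS η hη
  have hcard : (0 : ℝ) < S.card := by exact_mod_cast hS.card_pos
  obtain ⟨K, hK, h⟩ := VVb_le (cS_nonneg S) (Psi_lim S hS) 1 η one_pos hη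
  refine ⟨S.card * K, by positivity, fun u hu => ?_⟩
  obtain ⟨-, h1⟩ := h u hu
  have h2 : Va (aS S) u = S.card * VVb (cS S) 1 u := by
    unfold Va VVb
    rw [← tsum_mul_left]
    refine tsum_congr fun n => ?_
    unfold wc cS Cr aS
    rw [norm_mul, Complex.norm_real, Real.norm_of_nonneg ArithmeticFunction.vonMangoldt_nonneg,
      mul_pow, div_one]
    unfold H479.U.wn
    field_simp
  rw [h2]
  have h3 := mul_le_mul_of_nonneg_left h1 hcard.le
  refine h3.trans (le_of_eq ?_)
  rw [mul_one]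
  ring

end H479.Y
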