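import Pool.Agent.H479.Y.Stm
import Pool.Graph.R_seed8.H370R2.PC2

/-! # the mass of the points near the ends (proved by helper295) -/

open MeasureTheory Complex Filter Topology
open scoped ComplexConjugate

namespace H479.Y

open H370 H479.U

namespace EdgL

theorem int_hh (s : ℂ) : Integrable (fun t : ℝ => hh 0 t s) := by
  have h : (fun t : ℝ => hh 0 t s) = fun t : ℝ => cexp (-(zz s - t) ^ 2 / 2) := by
    funext t
    rw [hh_eq]
    simp
  rw [h]
  exact gauss_single_int (zz s)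

theorem int_all (s : ℂ) : ∫ t : ℝ, hh 0 t s = (Real.sqrt (2 * Real.pi) : ℂ) := by
  have h : (fun t : ℝ => hh 0 t s) = fun t : ℝ => cexp (-(zz s - t) ^ 2 / 2) := by
    funext t
    rw [hh_eq]
    simp
  rw [h]
  exact gauss_single (zz s)

theorem int_g (v : ℝ) : Integrable fun t : ℝ => Real.exp (-(1 / 4) * (v - t) ^ 2) := by
  have h := integrable_exp_neg_mul_sq (b := 1 / 4) (by norm_num)
  exact h.comp_sub_left v

theorem val_g (v : ℝ) : ∫ t : ℝ, Real.exp (-(1 / 4) * (v - t) ^ 2) = 2 * Real.sqrt Real.pi := by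
  have h1 := integral_sub_left_eq_self (fun x : ℝ => Real.exp (-(1 / 4) * x ^ 2)) volume v
  rw [h1, integral_gaussian]
  rw [show Real.pi / (1 / 4) = 2 ^ 2 * Real.pi by ring, Real.sqrt_mul (by norm_num),
    Real.sqrt_sq (by norm_num)]

theorem norm_hh0 (t : ℝ) (s : ℂ) (h0 : 0 < s.re) (h1 : s.re < 1) (d : ℝ) (hd0 : 0 ≤ d)
    (hd : d ≤ |s.im - t|) :
    ‖hh 0 t s‖ ≤ 4 / 3 * Real.exp (-d ^ 2 / 4) * Real.exp (-(1 / 4) * (s.im - t) ^ 2) := by
  rw [pc_norm_hh, zero_mul, Real.exp_zero, one_mul]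
  have e1 : d ^ 2 ≤ (s.im - t) ^ 2 := by
    rw [← sq_abs (s.im - t)]
    exact pow_le_pow_left₀ hd0 hd 2
  have e2 : (s.re - 1 / 2) ^ 2 ≤ 1 / 4 := by nlinarith
  have e3 : Real.exp (1 / 8) ≤ 4 / 3 := by
    have h := Real.exp_one_lt_d9
    have h5 : Real.exp (1 / 8) ^ 8 = Real.exp 1 := by
      rw [← Real.exp_nat_mul]; norm_num
    by_contra hcon
    push Not at hcon
    have h6 : (4 / 3 : ℝ) ^ 8 < Real.exp (1 / 8) ^ 8 := pow_lt_pow_left₀ hcon (by norm_num) (by norm_num)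
    rw [h5] at h6
    norm_num at h6
    linarith
  calc Real.exp (((s.re - 1 / 2) ^ 2 - (s.im - t) ^ 2) / 2)
      ≤ Real.exp (1 / 8 + -d ^ 2 / 4 + -(1 / 4) * (s.im - t) ^ 2) := by
        apply Real.exp_le_exp.2
        nlinarith
    _ = Real.exp (1 / 8) * Real.exp (-d ^ 2 / 4) * Real.exp (-(1 / 4) * (s.im - t) ^ 2) := by
        rw [Real.exp_add, Real.exp_add]
    _ ≤ _ := by gcongr

theorem om_bound (t1 t2 : ℝ) (h12 : t1 ≤ t2) (s : ℂ) (h0 : 0 < s.re) (h1 : s.re < 1) (d : ℝ)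
    (hd0 : 0 ≤ d) (h : ∀ t, t ∉ Set.Ioc t1 t2 → d ≤ |s.im - t|) :
    |1 - om t1 t2 s| ≤ 2 * Real.exp (-d ^ 2 / 4) := by
  have hpi := Real.pi_pos
  have hs0 : 0 < Real.sqrt (2 * Real.pi) := Real.sqrt_pos.2 (by positivity)
  have e1 : ∫ t in (Set.Ioc t1 t2)ᶜ, hh 0 t s =
      (Real.sqrt (2 * Real.pi) : ℂ) - ∫ t in t1..t2, hh 0 t s := by
    rw [intervalIntegral.integral_of_le h12, ← int_all s,
      ← integral_add_compl (μ := volume) (measurableSet_Ioc (a := t1) (b := t2)) (int_hh s)]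
    ring
  have e2 : 1 - om t1 t2 s = 1 / Real.sqrt (2 * Real.pi) *
      (∫ t in (Set.Ioc t1 t2)ᶜ, hh 0 t s).re := by
    rw [e1, Complex.sub_re, Complex.ofReal_re]
    unfold om
    rw [mul_sub, one_div_mul_cancel hs0.ne']
  have hI : Integrable fun t : ℝ => 4 / 3 * Real.exp (-d ^ 2 / 4) *
      Real.exp (-(1 / 4) * (s.im - t) ^ 2) := (int_g s.im).const_mul _
  have e3 : ‖∫ t in (Set.Ioc t1 t2)ᶜ, hh 0 t s‖ ≤ ∫ t in (Set.Ioc t1 t2)ᶜ,
      4 / 3 * Real.exp (-d ^ 2 / 4) * Real.exp (-(1 / 4) * (s.im - t) ^ 2) := by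
    refine norm_integral_le_of_norm_le hI.integrableOn ?_
    refine (ae_restrict_iff' measurableSet_Ioc.compl).2 (Filter.Eventually.of_forall fun t ht => ?_)
    exact norm_hh0 t s h0 h1 d hd0 (h t ht)
  have e4 : ∫ t in (Set.Ioc t1 t2)ᶜ,
      4 / 3 * Real.exp (-d ^ 2 / 4) * Real.exp (-(1 / 4) * (s.im - t) ^ 2) ≤
      4 / 3 * Real.exp (-d ^ 2 / 4) * (2 * Real.sqrt Real.pi) := by
    rw [← val_g s.im, ← integral_const_mul]
    exact setIntegral_le_integral hI (Filter.Eventually.of_forall fun t => by positivity)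
  have e5 : |(∫ t in (Set.Ioc t1 t2)ᶜ, hh 0 t s).re| ≤
      4 / 3 * Real.exp (-d ^ 2 / 4) * (2 * Real.sqrt Real.pi) :=
    (Complex.abs_re_le_norm _).trans (e3.trans e4)
  rw [e2, abs_mul, abs_of_pos (by positivity : 0 < 1 / Real.sqrt (2 * Real.pi))]
  have e6 : Real.sqrt (2 * Real.pi) = Real.sqrt 2 * Real.sqrt Real.pi := Real.sqrt_mul (by norm_num) _
  have e7 : 0 < Real.sqrt Real.pi := Real.sqrt_pos.2 hpi
  have e8 : Real.sqrt 2 * Real.sqrt 2 = 2 := Real.mul_self_sqrt (by norm_num)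
  have e9 : 0 < Real.sqrt 2 := Real.sqrt_pos.2 (by norm_num)
  have e10 : Real.sqrt 2 ≤ 3 / 2 := by
    rw [Real.sqrt_le_left (by norm_num)]
    norm_num
  have e11 : 1 / Real.sqrt (2 * Real.pi) * (4 / 3 * Real.exp (-d ^ 2 / 4) * (2 * Real.sqrt Real.pi)) =
      4 / 3 * Real.sqrt 2 * Real.exp (-d ^ 2 / 4) := by
    rw [e6, div_mul_eq_mul_div, div_eq_iff (by positivity)]
    linear_combination (-(4 / 3) * Real.exp (-d ^ 2 / 4) * Real.sqrt Real.pi) * e8
  calc 1 / Real.sqrt (2 * Real.pi) * |(∫ t in (Set.Ioc t1 t2)ᶜ, hh 0 t s).re|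
      ≤ 1 / Real.sqrt (2 * Real.pi) *
        (4 / 3 * Real.exp (-d ^ 2 / 4) * (2 * Real.sqrt Real.pi)) := by gcongr
    _ = 4 / 3 * Real.sqrt 2 * Real.exp (-d ^ 2 / 4) := e11
    _ ≤ 2 * Real.exp (-d ^ 2 / 4) := by
        have := Real.exp_pos (-d ^ 2 / 4)
        nlinarith

/-- covering -/
theorem cover (Z : Finset ℂ) (m : ℂ → ℕ) (B : ℝ)
    (h : ∀ y : ℝ, ∑ s ∈ Z, (if y < s.im ∧ s.im ≤ y + 1 then (m s : ℝ) else 0) ≤ B) (A : ℝ) (n : ℕ) :
    ∑ s ∈ Z, (if A < s.im ∧ s.im ≤ A + n then (m s : ℝ) else 0) ≤ n * B := by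
  induction n with
  | zero =>
    rw [Nat.cast_zero, zero_mul]
    refine (Finset.sum_eq_zero fun s _ => ?_).le
    rw [if_neg]
    rintro ⟨h1, h2⟩
    linarith
  | succ n ih =>
    have h1 := h (A + n)
    have h2 : ∑ s ∈ Z, (if A < s.im ∧ s.im ≤ A + ((n + 1 : ℕ) : ℝ) then (m s : ℝ) else 0) ≤
        ∑ s ∈ Z, ((if A < s.im ∧ s.im ≤ A + n then (m s : ℝ) else 0) +
          (if A + n < s.im ∧ s.im ≤ A + n + 1 then (m s : ℝ) else 0)) := by
      refine Finset.sum_le_sum fun s _ => ?_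
      have hm : (0 : ℝ) ≤ m s := Nat.cast_nonneg _
      have hn : (0 : ℝ) ≤ n := Nat.cast_nonneg _
      split_ifs with a1 a2 a3 a4 a5 a6 a7 <;> push_cast at * <;> first | linarith | skip
      exfalso
      rcases le_or_gt s.im (A + n) with h3 | h3
      · exact a2 ⟨a1.1, h3⟩
      · exact a4 ⟨h3, by linarith [a1.2]⟩
    rw [Finset.sum_add_distrib] at h2
    push_cast at *
    linarith

theorem split (Z : Finset ℂ) (m : ℂ → ℕ) (hS : Sys Z m) (f : ℂ → ℝ) (hf : ∀ s ∈ Z, |1 - f s| ≤ 2) :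
    4 * NZ Z m - 3 * ((Z1 Z m).card : ℝ) - 4 * ((Z2 Z m).card : ℝ) - 4 * ((Z3 Z).card : ℝ) -
      ∑ s ∈ Z, 8 * (m s : ℝ) * |1 - f s| ≤
    ∑ s ∈ Z1 Z m, (2 * f s - 1) + ∑ s ∈ Z2 Z m, (4 * (m s : ℝ) * f s - 4) +
    ∑ s ∈ Z3 Z, (8 * (m s : ℝ) * f s - 4) := by
  classical
  -- decomposition of `Z`
  have hdec : ∀ g : ℂ → ℝ, ∑ s ∈ Z, g s = ∑ s ∈ Z1 Z m, g s + ∑ s ∈ Z2 Z m, g s +
      ∑ s ∈ Z3 Z, g s + ∑ s ∈ Z.filter (fun s => s.re < 1 / 2), g s := by
    intro g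
    unfold Z1 Z2 Z3
    simp only [Finset.sum_filter]
    rw [← Finset.sum_add_distrib, ← Finset.sum_add_distrib, ← Finset.sum_add_distrib]
    refine Finset.sum_congr rfl fun s hs => ?_
    have hm := hS.pos s hs
    rcases lt_trichotomy s.re (1 / 2) with h | h | h
    · rw [if_neg (fun h' => h.ne h'.1), if_neg (fun h' => h.ne h'.1), if_neg (not_lt.2 h.le),
        if_pos h]
      ring
    · rcases eq_or_lt_of_le hm with h2 | h2
      · rw [if_pos ⟨h, h2.symm⟩, if_neg (fun h' => by omega), if_neg (by rw [h]; exact lt_irrefl _),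
          if_neg (by rw [h]; exact lt_irrefl _)]
        ring
      · rw [if_neg (fun h' => by omega), if_pos ⟨h, h2⟩, if_neg (by rw [h]; exact lt_irrefl _),
          if_neg (by rw [h]; exact lt_irrefl _)]
        ring
    · rw [if_neg (fun h' => h.ne' h'.1), if_neg (fun h' => h.ne' h'.1), if_pos h,
        if_neg (not_lt.2 h.le)]
      ring
  -- reflection
  have href : ∑ s ∈ Z.filter (fun s => s.re < 1 / 2), (m s : ℝ) = ∑ s ∈ Z3 Z, (m s : ℝ) := by
    have hinv : ∀ s : ℂ, 1 - conj (1 - conj s) = s := by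
      intro s
      rw [map_sub, map_one, Complex.conj_conj]
      ring
    have hre : ∀ s : ℂ, (1 - conj s).re = 1 - s.re := fun s => by simp
    refine Finset.sum_nbij' (fun s => 1 - conj s) (fun s => 1 - conj s) ?_ ?_ ?_ ?_ ?_
    · intro s hs
      rw [Finset.mem_filter] at hs
      unfold Z3
      rw [Finset.mem_filter]
      refine ⟨hS.refl s hs.1, ?_⟩
      rw [hre]
      linarith [hs.2]
    · intro s hs
      unfold Z3 at hs
      rw [Finset.mem_filter] at hs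
      rw [Finset.mem_filter]
      refine ⟨hS.refl s hs.1, ?_⟩
      rw [hre]
      linarith [hs.2]
    · intro s _; exact hinv s
    · intro s _; exact hinv s
    · intro s hs
      rw [Finset.mem_filter] at hs
      rw [hS.mrefl s hs.1]
  have hNZ : NZ Z m = ∑ s ∈ Z1 Z m, (m s : ℝ) + ∑ s ∈ Z2 Z m, (m s : ℝ) +
      2 * ∑ s ∈ Z3 Z, (m s : ℝ) := by
    unfold NZ
    rw [hdec, href]
    ring
  have hE := hdec (fun s => 8 * (m s : ℝ) * |1 - f s|)
  have h4 : 0 ≤ ∑ s ∈ Z.filter (fun s => s.re < 1 / 2), 8 * (m s : ℝ) * |1 - f s| :=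
    Finset.sum_nonneg fun s _ => by positivity
  have c1 : ∑ s ∈ Z1 Z m, (4 * (m s : ℝ) - 3 - 8 * (m s : ℝ) * |1 - f s|) ≤
      ∑ s ∈ Z1 Z m, (2 * f s - 1) := by
    refine Finset.sum_le_sum fun s hs => ?_
    unfold Z1 at hs
    rw [Finset.mem_filter] at hs
    rw [hs.2.2]
    have := le_abs_self (1 - f s)
    have := abs_nonneg (1 - f s)
    push_cast
    linarith
  have c2 : ∑ s ∈ Z2 Z m, (4 * (m s : ℝ) - 4 - 8 * (m s : ℝ) * |1 - f s|) ≤
      ∑ s ∈ Z2 Z m, (4 * (m s : ℝ) * f s - 4) := by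
    refine Finset.sum_le_sum fun s _ => ?_
    have h1 := le_abs_self (1 - f s)
    have h2 := abs_nonneg (1 - f s)
    have h3 : (0 : ℝ) ≤ m s := Nat.cast_nonneg _
    nlinarith [mul_le_mul_of_nonneg_left h1 h3, mul_nonneg h3 h2]
  have c3 : ∑ s ∈ Z3 Z, (8 * (m s : ℝ) - 4 - 8 * (m s : ℝ) * |1 - f s|) ≤
      ∑ s ∈ Z3 Z, (8 * (m s : ℝ) * f s - 4) := by
    refine Finset.sum_le_sum fun s _ => ?_
    have h1 := le_abs_self (1 - f s)
    have h3 : (0 : ℝ) ≤ m s := Nat.cast_nonneg _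
    nlinarith [mul_le_mul_of_nonneg_left h1 h3]
  rw [Finset.sum_sub_distrib, Finset.sum_sub_distrib, ← Finset.mul_sum, Finset.sum_const,
    nsmul_eq_mul] at c1 c2 c3
  rw [hNZ]
  linarith

end EdgL

open EdgL in
theorem edg : S_EDG := by
  refine ⟨112, Real.exp 4, by norm_num, Real.one_le_exp (by norm_num), ?_⟩
  intro K hK T hT Z m hS hZ hy
  set L := Real.log T with hL
  have hT0 : 0 < T := (Real.exp_pos 4).trans_le hT
  have hL4 : 4 ≤ L := (Real.le_log_iff_exp_le hT0).2 hT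
  have hTL : Real.exp L = T := Real.exp_log hT0
  -- `T` is large
  have hTbig : 2 * L ≤ T := by
    rw [← hTL]
    have := Real.quadratic_le_exp_of_nonneg (by linarith : 0 ≤ L)
    nlinarith
  have h12 : T + L ≤ 2 * T - L := by linarith
  have hKL : 0 ≤ K * L := mul_nonneg hK (by linarith)
  set E := Real.exp (-L ^ 2 / 4) with hE
  have hE0 : 0 < E := Real.exp_pos _
  -- bounds for the mass
  have hb2 : ∀ s ∈ Z, |1 - om (T + L) (2 * T - L) s| ≤ 2 := by
    intro s hs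
    have h := om_bound (T + L) (2 * T - L) h12 s (hS.strip s hs).1 (hS.strip s hs).2 0 le_rfl
      (fun t _ => abs_nonneg _)
    simpa using h
  have hbE : ∀ s ∈ Z, T + 2 * L < s.im → s.im ≤ 2 * T - 2 * L →
      |1 - om (T + L) (2 * T - L) s| ≤ 2 * E := by
    intro s hs h1 h2
    refine om_bound (T + L) (2 * T - L) h12 s (hS.strip s hs).1 (hS.strip s hs).2 L (by linarith) ?_
    intro t ht
    rw [Set.mem_Ioc, not_and_or, not_lt, not_le] at ht
    rcases ht with ht | ht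
    · exact le_abs.2 (Or.inl (by linarith))
    · exact le_abs.2 (Or.inr (by linarith))
  have hsplit := split Z m hS (om (T + L) (2 * T - L)) hb2
  suffices hsum : ∑ s ∈ Z, 8 * (m s : ℝ) * |1 - om (T + L) (2 * T - L) s| ≤ 112 * K * L ^ 2 by
    linarith
  -- the number of unit intervals
  obtain ⟨n, hn1, hn2⟩ : ∃ n : ℕ, 2 * L ≤ n ∧ (n : ℝ) ≤ 2 * L + 1 :=
    ⟨⌈2 * L⌉₊, Nat.le_ceil _, (Nat.ceil_lt_add_one (by linarith)).le⟩
  obtain ⟨N, hN1, hN2⟩ : ∃ n : ℕ, T ≤ n ∧ (n : ℝ) ≤ T + 1 :=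
    ⟨⌈T⌉₊, Nat.le_ceil _, (Nat.ceil_lt_add_one hT0.le).le⟩
  have k1 := cover Z m (K * L) hy T N
  have k2 := cover Z m (K * L) hy T n
  have k3 := cover Z m (K * L) hy (2 * T - 2 * L) n
  have hpt : ∀ s ∈ Z, 8 * (m s : ℝ) * |1 - om (T + L) (2 * T - L) s| ≤
      16 * E * (if T < s.im ∧ s.im ≤ T + N then (m s : ℝ) else 0) +
      16 * (if T < s.im ∧ s.im ≤ T + n then (m s : ℝ) else 0) +
      16 * (if 2 * T - 2 * L < s.im ∧ s.im ≤ 2 * T - 2 * L + n then (m s : ℝ) else 0) := by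
    intro s hs
    obtain ⟨h1, h2⟩ := hZ s hs
    have hm : (0 : ℝ) ≤ m s := Nat.cast_nonneg _
    have p1 : 0 ≤ (if T < s.im ∧ s.im ≤ T + N then (m s : ℝ) else 0) := by split_ifs <;> linarith
    have p2 : 0 ≤ (if T < s.im ∧ s.im ≤ T + n then (m s : ℝ) else 0) := by split_ifs <;> linarith
    have p3 : 0 ≤ (if 2 * T - 2 * L < s.im ∧ s.im ≤ 2 * T - 2 * L + n then (m s : ℝ) else 0) := by
      split_ifs <;> linarith
    have q1 : 0 ≤ 16 * E * (if T < s.im ∧ s.im ≤ T + N then (m s : ℝ) else 0) := by positivity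
    by_cases c1 : s.im ≤ T + 2 * L
    · have : (if T < s.im ∧ s.im ≤ T + n then (m s : ℝ) else 0) = m s :=
        if_pos ⟨h1, by linarith⟩
      rw [this]
      have := mul_le_mul_of_nonneg_left (hb2 s hs) hm
      linarith
    · by_cases c2 : s.im ≤ 2 * T - 2 * L
      · have : (if T < s.im ∧ s.im ≤ T + N then (m s : ℝ) else 0) = m s :=
          if_pos ⟨h1, by linarith⟩
        rw [this]
        have := mul_le_mul_of_nonneg_left (hbE s hs (not_le.1 c1) c2) hm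
        nlinarith
      · have : (if 2 * T - 2 * L < s.im ∧ s.im ≤ 2 * T - 2 * L + n then (m s : ℝ) else 0) = m s :=
          if_pos ⟨not_le.1 c2, by linarith⟩
        rw [this]
        have := mul_le_mul_of_nonneg_left (hb2 s hs) hm
        linarith
  have hsum := Finset.sum_le_sum hpt
  rw [Finset.sum_add_distrib, Finset.sum_add_distrib, ← Finset.mul_sum, ← Finset.mul_sum,
    ← Finset.mul_sum] at hsum
  -- the small factor
  have hTE : (T + 1) * E ≤ 2 := by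
    have h1 : T * E ≤ 1 := by
      rw [← hTL, hE, ← Real.exp_add, ← Real.exp_zero]
      apply Real.exp_le_exp.2
      nlinarith
    have h2 : E ≤ 1 := by
      rw [hE, ← Real.exp_zero]
      apply Real.exp_le_exp.2
      nlinarith [sq_nonneg L]
    linarith
  have u1 : 16 * E * ∑ s ∈ Z, (if T < s.im ∧ s.im ≤ T + N then (m s : ℝ) else 0) ≤
      32 * (K * L) := by
    calc 16 * E * ∑ s ∈ Z, (if T < s.im ∧ s.im ≤ T + N then (m s : ℝ) else 0)
        ≤ 16 * E * (N * (K * L)) := by gcongr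
      _ ≤ 16 * E * ((T + 1) * (K * L)) := by gcongr
      _ = 16 * ((T + 1) * E) * (K * L) := by ring
      _ ≤ 16 * 2 * (K * L) := by gcongr
      _ = _ := by ring
  have u2 : 16 * ∑ s ∈ Z, (if T < s.im ∧ s.im ≤ T + n then (m s : ℝ) else 0) ≤
      16 * ((2 * L + 1) * (K * L)) := by
    calc 16 * ∑ s ∈ Z, (if T < s.im ∧ s.im ≤ T + n then (m s : ℝ) else 0)
        ≤ 16 * (n * (K * L)) := by gcongr
      _ ≤ _ := by gcongr
  have u3 : 16 * ∑ s ∈ Z, (if 2 * T - 2 * L < s.im ∧ s.im ≤ 2 * T - 2 * L + n then (m s : ℝ) else 0)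
      ≤ 16 * ((2 * L + 1) * (K * L)) := by
    calc 16 * ∑ s ∈ Z, (if 2 * T - 2 * L < s.im ∧ s.im ≤ 2 * T - 2 * L + n then (m s : ℝ) else 0)
        ≤ 16 * (n * (K * L)) := by gcongr
      _ ≤ _ := by gcongr
  have u4 : 32 * (K * L) + 16 * ((2 * L + 1) * (K * L)) + 16 * ((2 * L + 1) * (K * L)) ≤
      112 * K * L ^ 2 := by
    have : K * L ≤ K * L ^ 2 := by
      have : K * L * 1 ≤ K * L * L := mul_le_mul_of_nonneg_left (by linarith) hKL
      nlinarith
    nlinarith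
  linarith

end H479.Y
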