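import Pool.Agent.H479.Y.Stm
import Pool.Graph.R_seed8.H370R2.EF

/-!
# The explicit formula for `u ≤ B log T`

The explicit formula of the library (H370R2/EF, `explicit_formula_of`) with `u ≤ B log T` instead of
`u ≤ log T`, and for all zeros with ordinate in `(T, 2T]`.
-/

set_option autoImplicit false
set_option maxHeartbeats 1000000

open Complex Filter Topology Set MeasureTheory

namespace H479.Y

open H370

lemma small_auxB {L u B : ℝ} (hB : 1 ≤ B) (hL : 20 * (B + 1) ≤ L) (_ : 0 ≤ u) (huL : u ≤ B * L) :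
    Real.exp u * (L ^ 2 * Real.exp (-(L - 1) ^ 2 / 4)) ≤ Real.exp (-u) := by
  have hL0 : 0 ≤ L := by linarith
  have h1 : L ^ 2 ≤ Real.exp (2 * L) := by
    have h := Real.add_one_le_exp L
    have h2 : L ≤ Real.exp L := by linarith
    calc L ^ 2 ≤ (Real.exp L) ^ 2 := by
          apply pow_le_pow_left₀ (by linarith) h2
      _ = Real.exp (2 * L) := by rw [← Real.exp_nat_mul]; norm_num
  calc Real.exp u * (L ^ 2 * Real.exp (-(L - 1) ^ 2 / 4))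
      ≤ Real.exp u * (Real.exp (2 * L) * Real.exp (-(L - 1) ^ 2 / 4)) := by gcongr
    _ = Real.exp (u + (2 * L + -(L - 1) ^ 2 / 4)) := by rw [← Real.exp_add, ← Real.exp_add]
    _ ≤ Real.exp (-u) := by
        apply Real.exp_le_exp.2
        have h3 : 20 * (B + 1) * L ≤ L * L := mul_le_mul_of_nonneg_right hL hL0
        nlinarith

theorem ef_of {F : ℂ → ℂ} (hF : GoodL F) {a : ℕ → ℂ} (hc : Coef F a) (B : ℝ) (hB : 1 ≤ B)
    (hgh : ∃ C : ℝ, 0 < C ∧ ∀ T : ℝ, 3 ≤ T →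
      ∃ U ∈ Set.Icc T (T + 1), ∀ σ ∈ Set.Icc (-1 / 2 : ℝ) (3 / 2),
        F (⟨σ, U⟩ : ℂ) ≠ 0 ∧ ‖deriv F (⟨σ, U⟩ : ℂ) / F (⟨σ, U⟩ : ℂ)‖ ≤ C * (Real.log T) ^ 2) :
    ∃ C T0 : ℝ, 0 < C ∧ 10 ≤ T0 ∧ ∀ T : ℝ, T0 ≤ T →
    ∃ U1 U2 : ℝ, T ≤ U1 ∧ U1 ≤ T + 1 ∧ 2 * T - 1 ≤ U2 ∧ U2 ≤ 2 * T ∧
      ∀ u t : ℝ, 0 ≤ u → u ≤ B * Real.log T → T + Real.log T ≤ t → t ≤ 2 * T - Real.log T →
        ‖AA F U1 U2 u t -
          (1 / Real.sqrt (2 * Real.pi) : ℝ) * (Real.log T * cexp (I * u * t) *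
              Real.exp (-u ^ 2 / 2) - PP a u t)‖ ≤ C * Real.exp (-u) := by
  have ha := hc.bd
  have hld := hc.ld
  obtain ⟨C1, hC1, hgh⟩ := hgh
  obtain ⟨C2', hleft'⟩ := hF.left
  set C2 := max C2' 0 with hC2
  have hC20 : 0 ≤ C2 := le_max_right _ _
  have hleft : ∀ s : ℂ, -1 / 2 ≤ s.re → s.re ≤ 1 / 2 → 1 ≤ s.im → F s ≠ 0 →
    ‖deriv F s / F s + Real.log s.im +
      (starRingEnd ℂ) (deriv F (1 - (starRingEnd ℂ) s) / F (1 - (starRingEnd ℂ) s))‖ ≤ C2 :=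
    fun s h1 h2 h3 h4 => (hleft' s h1 h2 h3 h4).trans (le_max_left _ _)
  have hD0 := D0_nonneg
  refine ⟨20 * C1 + 8 * D0 + 8 + 8 * (1 + C2 + D0) + 1, Real.exp (20 * (B + 1)), by positivity, ?_, ?_⟩
  · have := Real.add_one_le_exp (20 * (B + 1))
    linarith
  intro T hT
  have hTpos : 0 < T := (Real.exp_pos _).trans_le hT
  set L := Real.log T with hL
  have hL20B : 20 * (B + 1) ≤ L := by
    rw [hL, Real.le_log_iff_exp_le hTpos]; exact hT
  have hL20 : 20 ≤ L := by linarith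
  have hT21 : 21 ≤ T := by
    have := Real.add_one_le_exp (20 * (B + 1))
    linarith
  obtain ⟨U1, hU1, hg1⟩ := hgh T (by linarith)
  obtain ⟨U2, hU2, hg2⟩ := hgh (2 * T - 1) (by linarith)
  have hU2' : U2 ≤ 2 * T := by linarith [hU2.2]
  refine ⟨U1, U2, hU1.1, hU1.2, hU2.1, hU2', ?_⟩
  intro u t hu huL ht1 ht2
  have hU12 : U1 < U2 := by linarith [hU1.2, hU2.1]
  have hW1 : U1 ≤ t - (L - 1) := by linarith [hU1.2]
  have hW2 : t + (L - 1) ≤ U2 := by linarith [hU2.1]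
  have hW0 : 0 ≤ L - 1 := by linarith
  -- residue theorem
  have hK : ∀ s ∈ Set.Icc (-1 / 2 : ℝ) (3 / 2) ×ℂ Set.Icc U1 U2, 1 ≤ s.im ∧ U1 ≤ s.im ∧ s.im ≤ U2 ∧
      -1 / 2 ≤ s.re ∧ s.re ≤ 3 / 2 := by
    intro s hs
    obtain ⟨h1, h2⟩ := hs
    rw [mem_preimage] at h1 h2
    exact ⟨by linarith [h2.1, hU1.1], h2.1, h2.2, h1.1, h1.2⟩
  have hzero : ∀ s ∈ Set.Icc (-1 / 2 : ℝ) (3 / 2) ×ℂ Set.Icc U1 U2, F s = 0 →
      0 < s.re ∧ s.re < 1 ∧ U1 < s.im ∧ s.im < U2 := by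
    intro s hs h0
    obtain ⟨h1, h2, h3, h4, h5⟩ := hK s hs
    refine ⟨?_, ?_, ?_, ?_⟩
    · by_contra hc
      exact hF.nzl s (not_lt.1 hc) h1 h0
    · by_contra hc
      exact hF.nzr s (not_lt.1 hc) h1 h0
    · refine lt_of_le_of_ne h2 (fun he => ?_)
      have := (hg1 s.re ⟨h4, h5⟩).1
      rw [he] at this
      exact this h0
    · refine lt_of_le_of_ne h3 (fun he => ?_)
      have := (hg2 s.re ⟨h4, h5⟩).1
      rw [← he] at this
      exact this h0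
  have hres := (rect_residue F (hh u t) (-1 / 2) (3 / 2) U1 U2 (by norm_num) hU12
    (fun s hs => hF.an s (by linarith [(hK s hs).1])) (hh_diff u t)
    (fun s hs h0 => by
      obtain ⟨h1, h2, h3, h4⟩ := hzero s hs h0
      exact ⟨⟨by linarith, by linarith⟩, ⟨h3, h4⟩⟩)).2
  have hset : {s | s ∈ Set.Ioo (-1 / 2 : ℝ) (3 / 2) ×ℂ Set.Ioo U1 U2 ∧ F s = 0} = zset F U1 U2 := by
    ext s
    constructor
    · rintro ⟨h1, h2⟩
      obtain ⟨h3, h4, h5, h6⟩ := hzero s ⟨Ioo_subset_Icc_self h1.1, Ioo_subset_Icc_self h1.2⟩ h2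
      exact ⟨h3, h4, h5, h6.le, h2⟩
    · rintro ⟨h3, h4, h5, h6, h7⟩
      obtain ⟨k1, k2, k3, k4⟩ := hzero s ⟨⟨by linarith, by linarith⟩, ⟨h5.le, h6⟩⟩ h7
      exact ⟨⟨⟨by linarith, by linarith⟩, ⟨k3, k4⟩⟩, h7⟩
  rw [hset] at hres
  have hAA : AA F U1 U2 u t = ∑ᶠ s ∈ zset F U1 U2, (mult F s : ℂ) * hh u t s := rfl
  rw [← hAA] at hres
  set HB := ∫ x in (-1 / 2 : ℝ)..(3 / 2), deriv F (⟨x, U1⟩ : ℂ) / F ⟨x, U1⟩ * hh u t ⟨x, U1⟩ with hHB
  set HT := ∫ x in (-1 / 2 : ℝ)..(3 / 2), deriv F (⟨x, U2⟩ : ℂ) / F ⟨x, U2⟩ * hh u t ⟨x, U2⟩ with hHT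
  set R := ∫ y in U1..U2, deriv F (⟨3 / 2, y⟩ : ℂ) / F ⟨3 / 2, y⟩ * hh u t ⟨3 / 2, y⟩ with hR
  set Lf := ∫ y in U1..U2, deriv F (⟨-1 / 2, y⟩ : ℂ) / F ⟨-1 / 2, y⟩ * hh u t ⟨-1 / 2, y⟩ with hLf
  -- bound of the horizontal sides
  have hδ : 0 < Real.exp (-(L - 1) ^ 2 / 4) := Real.exp_pos _
  have hsm := small_auxB hB hL20B hu huL
  have hhor : ∀ (U : ℝ) (x : ℝ), (L - 1) ^ 2 ≤ (U - t) ^ 2 → x ∈ Set.Icc (-1 / 2 : ℝ) (3 / 2) →
      ‖hh u t (⟨x, U⟩ : ℂ)‖ ≤ Real.exp u * (2 * Real.exp (-(L - 1) ^ 2 / 4)) := by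
    intro U x hU hx
    rw [norm_hh]
    have h1 : Real.exp (u * (x - 1 / 2)) ≤ Real.exp u := by
      apply Real.exp_le_exp.2
      nlinarith [hx.2]
    have h2 : Real.exp (((x - 1 / 2) ^ 2 - (U - t) ^ 2) / 2) ≤
        Real.exp (1 / 2) * Real.exp (-(L - 1) ^ 2 / 4) := by
      rw [← Real.exp_add]
      apply Real.exp_le_exp.2
      have : (x - 1 / 2) ^ 2 ≤ 1 := by
        have h3 := hx.1
        have h4 := hx.2
        nlinarith
      nlinarith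
    have h3 : Real.exp (1 / 2) * Real.exp (-(L - 1) ^ 2 / 4) ≤ 2 * Real.exp (-(L - 1) ^ 2 / 4) :=
      mul_le_mul_of_nonneg_right exp_half_le hδ.le
    exact mul_le_mul h1 (h2.trans h3) (Real.exp_pos _).le (Real.exp_pos _).le
  have hHBb : ‖HB‖ ≤ 4 * C1 * Real.exp (-u) := by
    have : ‖HB‖ ≤ (C1 * L ^ 2 * (Real.exp u * (2 * Real.exp (-(L - 1) ^ 2 / 4)))) *
        |(3 / 2 : ℝ) - (-1 / 2)| := by
      apply intervalIntegral.norm_integral_le_of_norm_le_const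
      intro x hx
      rw [uIoc_of_le (by norm_num)] at hx
      have hx' : x ∈ Set.Icc (-1 / 2 : ℝ) (3 / 2) := ⟨hx.1.le, hx.2⟩
      rw [norm_mul]
      apply mul_le_mul (hg1 x hx').2 _ (norm_nonneg _) (by positivity)
      apply hhor U1 x _ hx'
      nlinarith
    rw [show |(3 / 2 : ℝ) - (-1 / 2)| = 2 by norm_num] at this
    calc ‖HB‖ ≤ _ := this
      _ = 4 * C1 * (Real.exp u * (L ^ 2 * Real.exp (-(L - 1) ^ 2 / 4))) := by ring
      _ ≤ 4 * C1 * Real.exp (-u) := by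
          apply mul_le_mul_of_nonneg_left hsm (by positivity)
  have hlog2 : Real.log (2 * T - 1) ≤ 2 * L := by
    have : Real.log (2 * T - 1) ≤ Real.log (T ^ 2) := by
      apply Real.log_le_log (by linarith)
      nlinarith
    rw [Real.log_pow] at this
    exact_mod_cast this
  have hlog20 : 0 ≤ Real.log (2 * T - 1) := Real.log_nonneg (by linarith)
  have hHTb : ‖HT‖ ≤ 16 * C1 * Real.exp (-u) := by
    have : ‖HT‖ ≤ (C1 * (2 * L) ^ 2 * (Real.exp u * (2 * Real.exp (-(L - 1) ^ 2 / 4)))) *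
        |(3 / 2 : ℝ) - (-1 / 2)| := by
      apply intervalIntegral.norm_integral_le_of_norm_le_const
      intro x hx
      rw [uIoc_of_le (by norm_num)] at hx
      have hx' : x ∈ Set.Icc (-1 / 2 : ℝ) (3 / 2) := ⟨hx.1.le, hx.2⟩
      rw [norm_mul]
      apply mul_le_mul _ _ (norm_nonneg _) (by positivity)
      · refine (hg2 x hx').2.trans ?_
        apply mul_le_mul_of_nonneg_left _ hC1.le
        exact pow_le_pow_left₀ hlog20 hlog2 2
      apply hhor U2 x _ hx'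
      nlinarith
    rw [show |(3 / 2 : ℝ) - (-1 / 2)| = 2 by norm_num] at this
    calc ‖HT‖ ≤ _ := this
      _ = 16 * C1 * (Real.exp u * (L ^ 2 * Real.exp (-(L - 1) ^ 2 / 4))) := by ring
      _ ≤ 16 * C1 * Real.exp (-u) := by
          apply mul_le_mul_of_nonneg_left hsm (by positivity)
  -- right side
  have hRD : ∀ y ∈ Icc U1 U2, deriv F (⟨3 / 2, y⟩ : ℂ) / F ⟨3 / 2, y⟩ = - DD a (⟨3 / 2, y⟩ : ℂ) := by
    intro y hy
    exact hld _ (by norm_num) (by show (1 : ℝ) ≤ y; linarith [hy.1, hU1.1])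
  have hReq : R = - ∫ y in U1..U2, DD a (⟨3 / 2, y⟩ : ℂ) * hh u t ⟨3 / 2, y⟩ := by
    rw [hR, ← intervalIntegral.integral_neg]
    apply intervalIntegral.integral_congr
    intro y hy
    rw [uIcc_of_le hU12.le] at hy
    simp only
    rw [hRD y hy]; ring
  have heR : ‖(∫ v : ℝ, DD a (⟨3 / 2, v⟩ : ℂ) * hh u t (⟨3 / 2, v⟩ : ℂ)) -
      ∫ y in U1..U2, DD a (⟨3 / 2, y⟩ : ℂ) * hh u t ⟨3 / 2, y⟩‖ ≤ 8 * D0 * Real.exp (-u) := by
    have hb : ∀ v : ℝ, ‖DD a (⟨3 / 2, v⟩ : ℂ) * hh u t (⟨3 / 2, v⟩ : ℂ)‖ ≤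
        (D0 * (Real.exp u * 2)) * Real.exp (-(v - t) ^ 2 / 2) := by
      intro v
      rw [norm_mul, norm_hh, mul_assoc]
      apply mul_le_mul (norm_DD a ha v) _ (by positivity) hD0
      have e1 : u * (3 / 2 - 1 / 2 : ℝ) = u := by ring
      have e2 : ((3 / 2 - 1 / 2 : ℝ) ^ 2 - (v - t) ^ 2) / 2 = 1 / 2 + -(v - t) ^ 2 / 2 := by ring
      rw [e1, e2, Real.exp_add, mul_assoc]
      apply mul_le_mul_of_nonneg_left _ (Real.exp_pos _).le
      exact mul_le_mul_of_nonneg_right exp_half_le (Real.exp_pos _).le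
    have := tail_bound (((DD_cont a ha).mul (hh_cont_line u t (3 / 2))).aestronglyMeasurable)
      (by positivity) hb hW0 hW1 hW2
    refine this.trans ?_
    have h1 : 1 ≤ L ^ 2 := by nlinarith
    calc D0 * (Real.exp u * 2) * (4 * Real.exp (-(L - 1) ^ 2 / 4))
        = 8 * D0 * (Real.exp u * (1 * Real.exp (-(L - 1) ^ 2 / 4))) := by ring
      _ ≤ 8 * D0 * (Real.exp u * (L ^ 2 * Real.exp (-(L - 1) ^ 2 / 4))) := by gcongr
      _ ≤ 8 * D0 * Real.exp (-u) := mul_le_mul_of_nonneg_left hsm (by positivity)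
  rw [PP_integral a ha u t] at heR
  -- left side
  have hnorml : ∀ v : ℝ, ‖hh u t (⟨-1 / 2, v⟩ : ℂ)‖ ≤
      (Real.exp (-u) * 2) * Real.exp (-(v - t) ^ 2 / 2) := by
    intro v
    rw [norm_hh]
    have e1 : u * (-1 / 2 - 1 / 2 : ℝ) = -u := by ring
    have e2 : ((-1 / 2 - 1 / 2 : ℝ) ^ 2 - (v - t) ^ 2) / 2 = 1 / 2 + -(v - t) ^ 2 / 2 := by ring
    rw [e1, e2, Real.exp_add, mul_assoc]
    apply mul_le_mul_of_nonneg_left _ (Real.exp_pos _).le
    exact mul_le_mul_of_nonneg_right exp_half_le (Real.exp_pos _).le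
  have hGl : (∫ v : ℝ, hh u t (⟨-1 / 2, v⟩ : ℂ)) =
      Real.sqrt (2 * Real.pi) * (cexp (I * u * t) * Real.exp (-u ^ 2 / 2)) := by
    have h := gauss_line (-1 / 2) u t 0
    simp only [ofReal_zero, neg_zero, zero_mul, Complex.exp_zero, mul_one, zero_div, Real.exp_zero,
      sub_zero, ofReal_one] at h
    rw [h, mul_assoc]
    congr 3; ring
  have heG : ‖(∫ v : ℝ, hh u t (⟨-1 / 2, v⟩ : ℂ)) - ∫ y in U1..U2, hh u t (⟨-1 / 2, y⟩ : ℂ)‖ ≤
      (Real.exp (-u) * 2) * (4 * Real.exp (-(L - 1) ^ 2 / 4)) :=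
    tail_bound (hh_cont_line u t (-1 / 2)).aestronglyMeasurable (by positivity) hnorml hW0 hW1 hW2
  have hLe : ‖(L : ℂ) * ((∫ v : ℝ, hh u t (⟨-1 / 2, v⟩ : ℂ)) -
      ∫ y in U1..U2, hh u t (⟨-1 / 2, y⟩ : ℂ))‖ ≤ 8 * Real.exp (-u) := by
    rw [norm_mul, Complex.norm_real, Real.norm_eq_abs, abs_of_nonneg (by linarith : (0:ℝ) ≤ L)]
    have hs0 := small_aux hL20 le_rfl (by linarith : (0 : ℝ) ≤ L)
    simp only [Real.exp_zero, one_mul, neg_zero] at hs0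
    calc L * ‖_‖ ≤ L * ((Real.exp (-u) * 2) * (4 * Real.exp (-(L - 1) ^ 2 / 4))) :=
          mul_le_mul_of_nonneg_left heG (by linarith)
      _ = 8 * Real.exp (-u) * (L * Real.exp (-(L - 1) ^ 2 / 4)) := by ring
      _ ≤ 8 * Real.exp (-u) * (L ^ 2 * Real.exp (-(L - 1) ^ 2 / 4)) := by
          apply mul_le_mul_of_nonneg_left _ (by positivity)
          apply mul_le_mul_of_nonneg_right _ hδ.le
          nlinarith
      _ ≤ 8 * Real.exp (-u) * 1 := mul_le_mul_of_nonneg_left hs0 (by positivity)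
      _ = 8 * Real.exp (-u) := by ring
  have hFl : ∀ y ∈ Icc U1 U2, F (⟨-1 / 2, y⟩ : ℂ) ≠ 0 := by
    intro y hy
    exact hF.nzl _ (by norm_num) (by show (1 : ℝ) ≤ y; linarith [hy.1, hU1.1])
  have hcontl : ContinuousOn (fun y : ℝ => deriv F (⟨-1 / 2, y⟩ : ℂ) / F ⟨-1 / 2, y⟩) (Icc U1 U2) := by
    intro y hy
    have han := hF.an (⟨-1 / 2, y⟩ : ℂ) (by show (0 : ℝ) < y; linarith [hy.1, hU1.1])
    have h1 : ContinuousAt (fun z => deriv F z / F z) (⟨-1 / 2, y⟩ : ℂ) :=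
      han.deriv.continuousAt.div han.continuousAt (hFl y hy)
    have h2 : ContinuousAt (fun y : ℝ => (⟨-1 / 2, y⟩ : ℂ)) y := by
      have : (fun y : ℝ => (⟨-1 / 2, y⟩ : ℂ)) = fun y : ℝ => ((-1 / 2 : ℝ) : ℂ) + y * I := by
        funext v; exact mk_eq _ v
      rw [this]; fun_prop
    exact (ContinuousAt.comp (f := fun y : ℝ => (⟨-1 / 2, y⟩ : ℂ)) (x := y) h1 h2).continuousWithinAt
  set E : ℝ → ℂ := fun y => deriv F (⟨-1 / 2, y⟩ : ℂ) / F ⟨-1 / 2, y⟩ + L with hE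
  have hEb : ∀ y ∈ Icc U1 U2, ‖E y‖ ≤ 1 + C2 + D0 := by
    intro y hy
    have hy1 : 1 ≤ y := by linarith [hy.1, hU1.1]
    have h1 := hleft (⟨-1 / 2, y⟩ : ℂ) (by norm_num) (by norm_num) hy1 (hFl y hy)
    have h2 : (1 : ℂ) - (starRingEnd ℂ) (⟨-1 / 2, y⟩ : ℂ) = ⟨3 / 2, y⟩ := by
      apply Complex.ext <;> simp <;> norm_num
    rw [h2, hRD y hy] at h1
    have h3 : ‖(starRingEnd ℂ) (-DD a (⟨3 / 2, y⟩ : ℂ))‖ ≤ D0 := by
      rw [RCLike.norm_conj, norm_neg]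
      exact norm_DD a ha y
    have h4 : |Real.log y - L| ≤ 1 := by
      have hy0 : T ≤ y := hU1.1.trans hy.1
      have hy2 : y ≤ 2 * T := hy.2.trans hU2'
      have h5 : L ≤ Real.log y := Real.log_le_log hTpos hy0
      have h6 : Real.log y ≤ Real.log 2 + L := by
        rw [hL, ← Real.log_mul (by norm_num) hTpos.ne']
        exact Real.log_le_log (by linarith) hy2
      have h7 := Real.log_two_lt_d9
      rw [abs_le]; constructor <;> linarith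
    have h5 : E y = (deriv F (⟨-1 / 2, y⟩ : ℂ) / F ⟨-1 / 2, y⟩ + (Real.log (⟨-1 / 2, y⟩ : ℂ).im : ℂ) +
        (starRingEnd ℂ) (-DD a (⟨3 / 2, y⟩ : ℂ))) - (starRingEnd ℂ) (-DD a (⟨3 / 2, y⟩ : ℂ))
        - ((Real.log y - L : ℝ) : ℂ) := by
      simp only [hE]
      push_cast
      ring
    rw [h5]
    calc ‖_‖ ≤ _ := (norm_sub_le _ _).trans (add_le_add_left (norm_sub_le _ _) _)
      _ ≤ C2 + D0 + 1 := by
          apply add_le_add (add_le_add h1 h3)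
          rw [Complex.norm_real, Real.norm_eq_abs]; exact h4
      _ = 1 + C2 + D0 := by ring
  have hcl := hh_cont_line u t (-1 / 2)
  have hcE : ContinuousOn E (Icc U1 U2) := hcontl.add continuousOn_const
  have hLsplit : Lf = (∫ y in U1..U2, E y * hh u t (⟨-1 / 2, y⟩ : ℂ)) -
      L * ∫ y in U1..U2, hh u t (⟨-1 / 2, y⟩ : ℂ) := by
    rw [hLf, ← intervalIntegral.integral_const_mul, ← intervalIntegral.integral_sub]
    · apply intervalIntegral.integral_congr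
      intro y _
      simp only [hE]
      ring
    · apply ContinuousOn.intervalIntegrable
      rw [uIcc_of_le hU12.le]
      exact hcE.mul hcl.continuousOn
    · exact (continuous_const.mul hcl).intervalIntegrable _ _
  have heE : ‖∫ y in U1..U2, E y * hh u t (⟨-1 / 2, y⟩ : ℂ)‖ ≤ 8 * (1 + C2 + D0) * Real.exp (-u) := by
    have := int_bound (f := fun y => E y * hh u t (⟨-1 / 2, y⟩ : ℂ)) (K := (1 + C2 + D0) * (Real.exp (-u) * 2))
      (t := t) hU12.le (by positivity) (by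
        intro v hv
        rw [norm_mul, mul_assoc]
        exact mul_le_mul (hEb v (Ioc_subset_Icc_self hv)) (hnorml v) (norm_nonneg _) (by positivity))
    refine this.trans (le_of_eq ?_)
    ring
  -- assembling
  set Q : ℂ := cexp (I * u * t) * Real.exp (-u ^ 2 / 2) with hQ
  set IR := ∫ y in U1..U2, DD a (⟨3 / 2, y⟩ : ℂ) * hh u t ⟨3 / 2, y⟩ with hIR
  set IG := ∫ y in U1..U2, hh u t (⟨-1 / 2, y⟩ : ℂ) with hIG
  set IE := ∫ y in U1..U2, E y * hh u t (⟨-1 / 2, y⟩ : ℂ) with hIE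
  set GG := ∫ v : ℝ, hh u t (⟨-1 / 2, v⟩ : ℂ) with hGG
  set A := AA F U1 U2 u t with hA
  set P := PP a u t with hP
  set w : ℂ := (Real.sqrt (2 * Real.pi) : ℂ) with hw
  have hw2 : w * w = 2 * Real.pi := by
    rw [hw, ← ofReal_mul, Real.mul_self_sqrt (by positivity)]
    push_cast; ring
  have hw0 : w ≠ 0 := by
    rw [hw, ofReal_ne_zero]; positivity
  have hpi0 : (Real.pi : ℂ) ≠ 0 := by exact_mod_cast Real.pi_ne_zero
  have hmain : A - (1 / Real.sqrt (2 * Real.pi) : ℝ) * ((L : ℂ) * cexp (I * u * t) *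
              Real.exp (-u ^ 2 / 2) - P) =
      (1 / (2 * Real.pi)) * ((-I) * (HB - HT) + (w * P - IR) - (L : ℂ) * (GG - IG) - IE) := by
    have h1 : (((1 / Real.sqrt (2 * Real.pi) : ℝ)) : ℂ) = w / (2 * Real.pi) := by
      push_cast
      rw [← hw, ← hw2]
      field_simp
    have h2 : GG = w * Q := hGl
    have h3 : A = (1 / (2 * Real.pi)) * ((-I) * (HB - HT) + R - Lf) := by
      have hI : I ≠ 0 := I_ne_zero
      have h4 : 2 * Real.pi * I * A = HB - HT + I * R - I * Lf := hres.symm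
      field_simp
      have h5 : I * (2 * Real.pi * A) = I * (-(I * (HB - HT)) + R - Lf) := by
        linear_combination h4 + (HB - HT) * I_sq
      have h6 := mul_left_cancel₀ hI h5
      linear_combination h6
    rw [h1, h3, hReq, hLsplit, h2, hQ]
    field_simp
    ring
  rw [hmain, norm_mul]
  have hn1 : ‖(1 / (2 * Real.pi) : ℂ)‖ ≤ 1 := by
    rw [norm_div, norm_mul]
    simp only [norm_one, Complex.norm_ofNat, Complex.norm_real, Real.norm_eq_abs, abs_of_pos Real.pi_pos]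
    rw [div_le_one (by positivity)]
    have := Real.pi_gt_three
    linarith
  have hn2 : ‖(-I) * (HB - HT) + (w * P - IR) - (L : ℂ) * (GG - IG) - IE‖ ≤
      4 * C1 * Real.exp (-u) + 16 * C1 * Real.exp (-u) + 8 * D0 * Real.exp (-u) +
      8 * Real.exp (-u) + 8 * (1 + C2 + D0) * Real.exp (-u) := by
    have h1 : ‖(-I) * (HB - HT)‖ ≤ 4 * C1 * Real.exp (-u) + 16 * C1 * Real.exp (-u) := by
      rw [norm_mul, norm_neg, norm_I, one_mul]
      exact (norm_sub_le _ _).trans (add_le_add hHBb hHTb)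
    calc ‖_‖ ≤ ‖(-I) * (HB - HT) + (w * P - IR) - (L : ℂ) * (GG - IG)‖ + ‖IE‖ := norm_sub_le _ _
      _ ≤ (‖(-I) * (HB - HT) + (w * P - IR)‖ + ‖(L : ℂ) * (GG - IG)‖) + ‖IE‖ := by
          gcongr; exact norm_sub_le _ _
      _ ≤ ((‖(-I) * (HB - HT)‖ + ‖(w * P - IR)‖) + ‖(L : ℂ) * (GG - IG)‖) + ‖IE‖ := by
          gcongr; exact norm_add_le _ _
      _ ≤ _ := by gcongr
  calc ‖(1 / (2 * Real.pi) : ℂ)‖ * ‖_‖ ≤ 1 * _ := by
        apply mul_le_mul hn1 hn2 (norm_nonneg _) zero_le_one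
    _ ≤ (20 * C1 + 8 * D0 + 8 + 8 * (1 + C2 + D0) + 1) * Real.exp (-u) := by
        have := Real.exp_pos (-u)
        nlinarith


end H479.Y
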