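import Pool.Agent.H479.Y.Cons

/-!
# Translations to the usual notation
-/

open Complex Filter Topology Set MeasureTheory

namespace H479.Y

open H370 H479.U

variable {q : ℕ} [NeZero q]

lemma zero_iff (χ : DirichletCharacter ℂ q) {s : ℂ} (h1 : 0 < s.re) (h2 : 0 < s.im) :
    Fp χ s = 0 ↔ χ.LFunction s = 0 := by
  have hc := cond_ne χ
  have h := (imp q χ).1 s h1 h2
  have hs1 : s ≠ 1 := by
    rintro rfl
    simp at h2
  have ha1 : AnalyticAt ℂ χ.LFunction s := by
    have hd : DifferentiableOn ℂ χ.LFunction {1}ᶜ := fun z hz =>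
      (DirichletCharacter.differentiableAt_LFunction χ z (Or.inl hz)).differentiableWithinAt
    exact hd.analyticAt (isOpen_compl_singleton.mem_nhds hs1)
  have ha2 : AnalyticAt ℂ (Fp χ) s := (good_Fp χ).an s h2
  have h' : analyticOrderAt χ.LFunction s = analyticOrderAt (Fp χ) s := h
  constructor
  · intro h0
    by_contra hne
    have h3 := ha1.analyticOrderAt_eq_zero.2 hne
    rw [h'] at h3
    exact (ha2.analyticOrderAt_eq_zero.1 h3) h0
  · intro h0
    by_contra hne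
    have h3 := ha2.analyticOrderAt_eq_zero.2 hne
    rw [← h'] at h3
    exact (ha1.analyticOrderAt_eq_zero.1 h3) h0

lemma ZS_set (S : Finset (DirichletCharacter ℂ q)) {T : ℝ} (hT : 1 ≤ T) :
    {s : ℂ | 0 < s.re ∧ s.re < 1 ∧ T < s.im ∧ s.im ≤ 2 * T ∧ ∃ χ ∈ S, χ.LFunction s = 0} =
      (ZS S T : Set ℂ) := by
  ext s
  rw [Finset.mem_coe, mem_ZS hT]
  constructor
  · rintro ⟨h1, h2, h3, h4, χ, h5, h6⟩
    exact ⟨χ, h5, h1, h2, h3, h4, (zero_iff χ h1 (by linarith)).2 h6⟩
  · rintro ⟨χ, h5, h1, h2, h3, h4, h6⟩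
    exact ⟨h1, h2, h3, h4, χ, h5, (zero_iff χ h1 (by linarith)).1 h6⟩

lemma mS_eq (S : Finset (DirichletCharacter ℂ q)) {T : ℝ} (hT : 1 ≤ T) {s : ℂ} (hs : s ∈ ZS S T) :
    ∑ χ ∈ S, analyticOrderNatAt χ.LFunction s = mS S s := by
  obtain ⟨h1, h2, h3, h4⟩ := ZS_range hT hs
  unfold mS
  exact Finset.sum_congr rfl fun χ _ => (mult_Fp χ h1 (by linarith)).symm

lemma PP_norm (S : Finset (DirichletCharacter ℂ q)) (u t : ℝ) : ‖PP (aS S) u t‖ =
    ‖∑' n : ℕ, (ArithmeticFunction.vonMangoldt n : ℂ) * (∑ χ ∈ S, χ (n : ZMod q)) *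
      (n : ℂ) ^ (-(1 / 2 + t * I)) * Real.exp (-(u - Real.log n) ^ 2 / 2)‖ := by
  have h : PP (aS S) u t = cexp (I * t * u) *
      ∑' n : ℕ, (ArithmeticFunction.vonMangoldt n : ℂ) * (∑ χ ∈ S, χ (n : ZMod q)) *
      (n : ℂ) ^ (-(1 / 2 + t * I)) * Real.exp (-(u - Real.log n) ^ 2 / 2) := by
    rw [← tsum_mul_left]
    unfold PP
    congr 1
    funext n
    rcases Nat.eq_zero_or_pos n with h0 | h0
    · subst h0
      simp [aS]
    · have hn : (n : ℂ) ≠ 0 := by exact_mod_cast h0.ne'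
      have hn0 : (0 : ℝ) < n := by exact_mod_cast h0
      have h1 : (n : ℂ) ^ (-(1 / 2 + t * I)) = (Real.sqrt n : ℂ)⁻¹ *
          cexp (-(I * t * Real.log n)) := by
        rw [neg_add, Complex.cpow_add _ _ hn]
        congr 1
        · rw [Complex.cpow_neg, Real.sqrt_eq_rpow, Complex.ofReal_cpow hn0.le]
          push_cast
          rfl
        · rw [Complex.cpow_def_of_ne_zero hn, ← Complex.natCast_log]
          congr 1
          ring
      have h2 : cexp (I * t * (u - Real.log n)) = cexp (I * t * u) *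
          cexp (-(I * t * Real.log n)) := by
        rw [← Complex.exp_add]
        congr 1
        ring
      rw [h1, h2]
      unfold aS
      ring
  rw [h, norm_mul]
  have h1 : ‖cexp (I * t * u)‖ = 1 := by
    rw [show (I * t * u : ℂ) = ((t * u : ℝ) : ℂ) * I by push_cast; ring,
      Complex.norm_exp_ofReal_mul_I]
  rw [h1, one_mul]

end H479.Y
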