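import Pool.Agent.H479.Y.Stm

/-! # two time variables (proved by helper746) -/


open MeasureTheory Complex Filter Topology
open scoped ComplexConjugate

namespace H479.Y

open H370 H479.U

namespace GGaux

lemma gauss_lint : ∫⁻ v : ℝ, ENNReal.ofReal (Real.exp (-v ^ 2 / 4)) = ENNReal.ofReal (2 * Real.sqrt Real.pi) := by
  have h1 : (fun v : ℝ => Real.exp (-v ^ 2 / 4)) = fun v => Real.exp (-(1 / 4 : ℝ) * v ^ 2) := by
    funext v; congr 1; ring
  have h2 : Integrable fun v : ℝ => Real.exp (-v ^ 2 / 4) := by
    rw [h1]; exact integrable_exp_neg_mul_sq (by norm_num)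
  rw [← ofReal_integral_eq_lintegral_ofReal h2 (Eventually.of_forall fun v => (Real.exp_pos _).le), h1,
    integral_gaussian]
  congr 1
  have h3 : Real.pi / (1 / 4 : ℝ) = 2 ^ 2 * Real.pi := by ring
  rw [h3, Real.sqrt_mul (by norm_num), Real.sqrt_sq (by norm_num)]

lemma core (g : ℝ → ℝ) (t1 t2 : ℝ) (hg : Continuous g) (hg0 : ∀ x, 0 ≤ g x) (ht : t1 ≤ t2) :
    ∫ t in t1..t2, ∫ t' in t1..t2, g ((t + t') / 2) * Real.exp (-(t - t') ^ 2 / 4) ≤
    2 * Real.sqrt Real.pi * ∫ t in t1..t2, g t := by
  set F : ℝ → ℝ → ℝ := fun t t' => g ((t + t') / 2) * Real.exp (-(t - t') ^ 2 / 4) with hF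
  have hFc : Continuous (Function.uncurry F) := by
    show Continuous fun p : ℝ × ℝ => g ((p.1 + p.2) / 2) * Real.exp (-(p.1 - p.2) ^ 2 / 4)
    fun_prop
  have hF0 : ∀ t t', 0 ≤ F t t' := fun t t' => mul_nonneg (hg0 _) (Real.exp_pos _).le
  set G : ℝ → ENNReal := (Set.Icc t1 t2).indicator fun x => ENNReal.ofReal (g x) with hG
  have hGm : Measurable G := by
    apply Measurable.indicator _ measurableSet_Icc
    exact hg.measurable.ennreal_ofReal
  set E : ℝ → ENNReal := fun v => ENNReal.ofReal (Real.exp (-v ^ 2 / 4)) with hE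
  have hEm : Measurable E := by
    apply Measurable.ennreal_ofReal
    fun_prop
  have hin : Continuous fun t => ∫ t' in t1..t2, F t t' :=
    intervalIntegral.continuous_parametric_intervalIntegral_of_continuous' hFc t1 t2
  have hgi : 0 ≤ ∫ t in t1..t2, g t := intervalIntegral.integral_nonneg ht fun x _ => hg0 x
  have hlhs : ENNReal.ofReal (∫ t in t1..t2, ∫ t' in t1..t2, F t t') =
      ∫⁻ t in Set.Ioc t1 t2, ∫⁻ t' in Set.Ioc t1 t2, ENNReal.ofReal (F t t') := by
    rw [intervalIntegral.integral_of_le ht, ofReal_integral_eq_lintegral_ofReal]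
    · refine lintegral_congr fun t => ?_
      rw [intervalIntegral.integral_of_le ht, ofReal_integral_eq_lintegral_ofReal]
      · have h1 : Continuous fun t' => F t t' := hFc.comp (by fun_prop : Continuous fun t' : ℝ => (t, t'))
        exact (h1.continuousOn.integrableOn_Icc).mono_set Set.Ioc_subset_Icc_self
      · exact Eventually.of_forall fun t' => hF0 t t'
    · exact (hin.continuousOn.integrableOn_Icc).mono_set Set.Ioc_subset_Icc_self
    · exact Eventually.of_forall fun t => intervalIntegral.integral_nonneg ht fun t' _ => hF0 t t'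
  have hGi : ∫⁻ x, G x = ENNReal.ofReal (∫ t in t1..t2, g t) := by
    rw [hG, lintegral_indicator measurableSet_Icc, intervalIntegral.integral_of_le ht,
      ← integral_Icc_eq_integral_Ioc, ofReal_integral_eq_lintegral_ofReal]
    · exact hg.continuousOn.integrableOn_Icc
    · exact Eventually.of_forall fun t => hg0 t
  have hle : ENNReal.ofReal (∫ t in t1..t2, ∫ t' in t1..t2, F t t') ≤
      ENNReal.ofReal (2 * Real.sqrt Real.pi * ∫ t in t1..t2, g t) := by
    rw [hlhs]
    calc ∫⁻ t in Set.Ioc t1 t2, ∫⁻ t' in Set.Ioc t1 t2, ENNReal.ofReal (F t t') ≤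
        ∫⁻ t in Set.Ioc t1 t2, ∫⁻ t' in Set.Ioc t1 t2, G ((t + t') / 2) * E (t - t') := by
          refine setLIntegral_mono' measurableSet_Ioc fun t h1 => ?_
          refine setLIntegral_mono' measurableSet_Ioc fun t' h2 => ?_
          rw [hF, ENNReal.ofReal_mul (hg0 _), hG, Set.indicator_of_mem]
          exact ⟨by linarith [h1.1, h2.1], by linarith [h1.2, h2.2]⟩
      _ ≤ ∫⁻ t, ∫⁻ t', G ((t + t') / 2) * E (t - t') := by
          refine (setLIntegral_le_lintegral _ _).trans ?_
          exact lintegral_mono fun t => setLIntegral_le_lintegral _ _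
      _ = ∫⁻ t, ∫⁻ v, G (t - v / 2) * E v := by
          refine lintegral_congr fun t => ?_
          rw [← lintegral_sub_left_eq_self (fun v => G (t - v / 2) * E v) t]
          refine lintegral_congr fun t' => ?_
          congr 2
          ring
      _ = ∫⁻ v, ∫⁻ t, G (t - v / 2) * E v := by
          apply lintegral_lintegral_swap
          apply Measurable.aemeasurable
          show Measurable fun p : ℝ × ℝ => G (p.1 - p.2 / 2) * E p.2
          exact (hGm.comp (by fun_prop)).mul (hEm.comp measurable_snd)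
      _ = ∫⁻ v, (∫⁻ t, G t) * E v := by
          refine lintegral_congr fun v => ?_
          have h1 : Measurable fun t : ℝ => G (t - v / 2) :=
            hGm.comp (by fun_prop : Measurable fun t : ℝ => t - v / 2)
          rw [lintegral_mul_const _ h1, lintegral_sub_right_eq_self]
      _ = _ := by
          rw [lintegral_const_mul _ hEm, hE, gauss_lint, hGi, mul_comm,
            ← ENNReal.ofReal_mul (by positivity)]
  exact (ENNReal.ofReal_le_ofReal_iff (by positivity)).1 hle

end GGaux

theorem gg : S_GG := fun g t1 t2 hg hg0 ht => GGaux.core g t1 t2 hg hg0 ht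

end H479.Y
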