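import Pool.Agent.H479.Y.Stm

/-! # the vectors and the trace (proved by helper376) -/

/-!
# KER: the vectors and the trace (subtask H479-Y-KER)
-/

open MeasureTheory Complex Filter Topology
open scoped ComplexConjugate

namespace H479.Y

open H370 H479.U

namespace KerN

/-- the factor in the space variable -/
noncomputable def Pf (lam : ℝ) (s : ℂ) (x : ℝ) : ℂ := cexp ((lam : ℂ) * x * (s - 1 / 2))

/-- the factor in the time variable -/
noncomputable def Qf (s : ℂ) (t : ℝ) : ℂ := cexp ((s - 1 / 2 - I * t) ^ 2 / 4)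

noncomputable def nu (t1 t2 : ℝ) : Measure ℝ := volume.restrict (Set.Ioc t1 t2)

noncomputable def mu (t1 t2 : ℝ) : Measure (ℝ × ℝ) := (volume : Measure ℝ).prod (nu t1 t2)

noncomputable def c2 : ℝ := 1 / Real.sqrt (2 * Real.pi)

lemma c2_pos : 0 < c2 := by
  unfold c2
  have := Real.pi_pos
  positivity

noncomputable def kf (w : ℝ → ℝ) (lam : ℝ) (s : ℂ) (p : ℝ × ℝ) : ℂ :=
  (Real.sqrt c2 : ℂ) * ((Real.sqrt (w p.1) : ℂ) * Pf lam s p.1) * Qf s p.2

lemma Pf_cont (lam : ℝ) (s : ℂ) : Continuous (Pf lam s) := by unfold Pf; fun_prop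

lemma Qf_cont (s : ℂ) : Continuous (Qf s) := by unfold Qf; fun_prop

variable {w : ℝ → ℝ}

lemma kf_meas (hw : Win w) (lam : ℝ) (s : ℂ) : Measurable (kf w lam s) := by
  unfold kf
  have h1 : Measurable (fun p : ℝ × ℝ => (Real.sqrt (w p.1) : ℂ)) :=
    Complex.measurable_ofReal.comp ((hw.meas.comp measurable_fst).sqrt)
  have h2 : Measurable (fun p : ℝ × ℝ => Pf lam s p.1) :=
    ((Pf_cont lam s).comp continuous_fst).measurable
  have h3 : Measurable (fun p : ℝ × ℝ => Qf s p.2) :=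
    ((Qf_cont s).comp continuous_snd).measurable
  exact (measurable_const.mul (h1.mul h2)).mul h3

/-- continuous functions are integrable on `(t1, t2]` -/
lemma nu_int {F : Type} [NormedAddCommGroup F] (t1 t2 : ℝ) {f : ℝ → F} (hf : Continuous f) :
    Integrable f (nu t1 t2) := by
  unfold nu
  exact (hf.integrableOn_Icc (a := t1) (b := t2)).mono_set Set.Ioc_subset_Icc_self

instance (t1 t2 : ℝ) : SFinite (nu t1 t2) := by
  unfold nu
  infer_instance

lemma kf_memLp (hw : Win w) (lam t1 t2 : ℝ) (s : ℂ) : MemLp (kf w lam s) 2 (mu t1 t2) := by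
  rw [memLp_two_iff_integrable_sq_norm (kf_meas hw lam s).aestronglyMeasurable]
  have h1 : Integrable (fun x : ℝ => w x * ‖Pf lam s x‖ ^ 2) :=
    hw.intr _ ((Pf_cont lam s).norm.pow 2)
  have h2 : Integrable (fun t : ℝ => ‖Qf s t‖ ^ 2) (nu t1 t2) :=
    nu_int t1 t2 ((Qf_cont s).norm.pow 2)
  have h3 := (h1.mul_prod h2).const_mul c2
  refine h3.congr (Filter.Eventually.of_forall fun p => ?_)
  simp only [kf]
  rw [norm_mul, norm_mul, norm_mul, mul_pow, mul_pow, mul_pow, Complex.norm_real,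
    Complex.norm_real, Real.norm_eq_abs, Real.norm_eq_abs, sq_abs, sq_abs,
    Real.sq_sqrt (hw.nonneg _), Real.sq_sqrt c2_pos.le]
  ring

/-- the space part of the inner product -/
noncomputable def Xi (w : ℝ → ℝ) (lam : ℝ) (s s' : ℂ) : ℂ :=
  ∫ x : ℝ, (w x : ℂ) * (conj (Pf lam s x) * Pf lam s' x)

/-- the time part of the inner product -/
noncomputable def Ti (t1 t2 : ℝ) (s s' : ℂ) : ℂ := ∫ t, conj (Qf s t) * Qf s' t ∂(nu t1 t2)

lemma kf_inner (hw : Win w) (lam t1 t2 : ℝ) (s s' : ℂ) :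
    ∫ p, conj (kf w lam s p) * kf w lam s' p ∂(mu t1 t2) =
      (c2 : ℂ) * (Xi w lam s s' * Ti t1 t2 s s') := by
  have h1 : ∀ p : ℝ × ℝ, conj (kf w lam s p) * kf w lam s' p =
      (c2 : ℂ) * (((w p.1 : ℂ) * (conj (Pf lam s p.1) * Pf lam s' p.1)) *
        (conj (Qf s p.2) * Qf s' p.2)) := by
    intro p
    simp only [kf, map_mul, Complex.conj_ofReal]
    have e1 : (Real.sqrt (w p.1) : ℂ) * (Real.sqrt (w p.1) : ℂ) = (w p.1 : ℂ) := by
      rw [← Complex.ofReal_mul, Real.mul_self_sqrt (hw.nonneg _)]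
    have e2 : (Real.sqrt c2 : ℂ) * (Real.sqrt c2 : ℂ) = (c2 : ℂ) := by
      rw [← Complex.ofReal_mul, Real.mul_self_sqrt c2_pos.le]
    rw [← e1, ← e2]
    ring
  simp only [h1]
  rw [integral_const_mul]
  unfold mu
  rw [integral_prod_mul (fun x : ℝ => (w x : ℂ) * (conj (Pf lam s x) * Pf lam s' x))
    (fun t : ℝ => conj (Qf s t) * Qf s' t)]
  rfl

noncomputable def kv (hw : Win w) (lam t1 t2 : ℝ) (s : ℂ) : Lp ℂ 2 (mu t1 t2) :=
  (kf_memLp hw lam t1 t2 s).toLp _

lemma kv_inner (hw : Win w) (lam t1 t2 : ℝ) (s s' : ℂ) :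
    inner ℂ (kv hw lam t1 t2 s) (kv hw lam t1 t2 s') =
      (c2 : ℂ) * (Xi w lam s s' * Ti t1 t2 s s') := by
  rw [L2.inner_def, ← kf_inner hw]
  apply integral_congr_ae
  filter_upwards [(kf_memLp hw lam t1 t2 s).coeFn_toLp, (kf_memLp hw lam t1 t2 s').coeFn_toLp]
    with p h1 h2
  unfold kv
  rw [h1, h2, RCLike.inner_apply, mul_comm]

/-! ### conjugation -/

lemma Pf_conj (lam : ℝ) (s : ℂ) (x : ℝ) : conj (Pf lam s x) = Pf lam (1 - conj s) (-x) := by
  unfold Pf
  rw [← Complex.exp_conj]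
  congr 1
  simp only [map_mul, map_sub, Complex.conj_ofReal, map_div₀, map_one, Complex.conj_ofNat]
  push_cast
  ring

lemma Qf_conj (s : ℂ) (t : ℝ) : conj (Qf s t) = Qf (1 - conj s) t := by
  unfold Qf
  rw [← Complex.exp_conj]
  congr 1
  simp only [map_mul, map_sub, Complex.conj_ofReal, map_div₀, map_one, Complex.conj_ofNat, map_pow,
    Complex.conj_I]
  ring

lemma hh_zero_conj (s : ℂ) (t : ℝ) : hh 0 t (1 - conj s) = conj (hh 0 t s) := by
  unfold hh
  rw [map_mul, ← Complex.exp_conj, ← Complex.exp_conj]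
  congr 1
  · simp
  · congr 1
    simp only [map_mul, map_sub, Complex.conj_ofReal, map_div₀, map_one, Complex.conj_ofNat,
      map_pow, Complex.conj_I]
    ring

/-- the inner product of `k s` and `k (1 - conj s)` -/
lemma diag (hw : Win w) {t1 t2 : ℝ} (ht : t1 ≤ t2) (lam : ℝ) (s : ℂ) :
    (inner ℂ (kv hw lam t1 t2 s) (kv hw lam t1 t2 (1 - conj s))).re = om t1 t2 s := by
  rw [kv_inner]
  have h1 : Xi w lam s (1 - conj s) = 1 := by
    unfold Xi
    have e : ∀ x : ℝ, (w x : ℂ) * (conj (Pf lam s x) * Pf lam (1 - conj s) x) = ((w x : ℝ) : ℂ) := by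
      intro x
      rw [Pf_conj]
      unfold Pf
      rw [← Complex.exp_add]
      have : (lam : ℂ) * ((-x : ℝ) : ℂ) * (1 - conj s - 1 / 2) + lam * x * (1 - conj s - 1 / 2) = 0 := by
        push_cast
        ring
      rw [this, Complex.exp_zero, mul_one]
    simp only [e]
    rw [integral_complex_ofReal, hw.one]
    simp
  have h2 : Ti t1 t2 s (1 - conj s) = conj (∫ t in t1..t2, hh 0 t s) := by
    unfold Ti nu
    rw [intervalIntegral.integral_of_le ht, ← integral_conj]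
    refine integral_congr_ae (Filter.Eventually.of_forall fun t => ?_)
    simp only
    rw [← hh_zero_conj, Qf_conj]
    unfold Qf hh
    rw [← Complex.exp_add, ← Complex.exp_add]
    congr 1
    push_cast
    ring
  rw [h1, h2, one_mul, Complex.re_ofReal_mul, Complex.conj_re]
  rfl

/-! ### reindexing -/

lemma conj_conj' (s : ℂ) : 1 - conj (1 - conj s) = s := by
  rw [map_sub, map_one, Complex.conj_conj]
  ring

lemma reindex {Z : Finset ℂ} {m : ℂ → ℕ} (hZ : Sys Z m) (f : ℂ → ℂ) :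
    ∑ s ∈ Z, (m s : ℂ) * f (1 - conj s) = ∑ s ∈ Z, (m s : ℂ) * f s := by
  refine Finset.sum_nbij' (fun s => 1 - conj s) (fun s => 1 - conj s) hZ.refl hZ.refl ?_ ?_ ?_
  · intro s _
    exact conj_conj' s
  · intro s _
    exact conj_conj' s
  · intro s hs
    rw [hZ.mrefl s hs]

/-- the product of the four factors -/
noncomputable def Rf (lam : ℝ) (x x' t t' : ℝ) (s : ℂ) : ℂ :=
  Pf lam (1 - conj s) x * conj (Pf lam s x') * (Qf (1 - conj s) t * conj (Qf s t'))

lemma Rf_eq (lam : ℝ) (x x' t t' : ℝ) (s : ℂ) : Rf lam x x' t t' s =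
    hh (lam * (x - x')) ((t + t') / 2) (1 - conj s) * (Real.exp (-(t - t') ^ 2 / 8) : ℂ) := by
  unfold Rf
  rw [Pf_conj, Qf_conj]
  unfold Pf Qf hh
  rw [Complex.ofReal_exp, ← Complex.exp_add, ← Complex.exp_add, ← Complex.exp_add,
    ← Complex.exp_add, ← Complex.exp_add]
  congr 1
  push_cast
  have hI : I ^ 2 = -1 := Complex.I_sq
  linear_combination ((t - t') ^ 2 / 8 : ℂ) * hI

lemma Rf_sum {Z : Finset ℂ} {m : ℂ → ℕ} (hZ : Sys Z m) (lam : ℝ) (x x' t t' : ℝ) :
    ∑ s ∈ Z, (m s : ℂ) * Rf lam x x' t t' s =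
      AZ Z m (lam * (x - x')) ((t + t') / 2) * (Real.exp (-(t - t') ^ 2 / 8) : ℂ) := by
  unfold AZ
  have e : ∀ s ∈ Z, (m s : ℂ) * Rf lam x x' t t' s = (m s : ℂ) *
      (fun s => hh (lam * (x - x')) ((t + t') / 2) s * (Real.exp (-(t - t') ^ 2 / 8) : ℂ))
        (1 - conj s) := fun s _ => by rw [Rf_eq]
  refine (Finset.sum_congr rfl e).trans ((reindex hZ (fun s => hh (lam * (x - x'))
    ((t + t') / 2) s * (Real.exp (-(t - t') ^ 2 / 8) : ℂ))).trans ?_)
  rw [Finset.sum_mul]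
  refine Finset.sum_congr rfl fun s _ => ?_
  ring

lemma pair_sum {Z : Finset ℂ} {m : ℂ → ℕ} (hZ : Sys Z m) (lam : ℝ) (x x' t t' : ℝ) :
    ∑ s ∈ Z, ∑ s' ∈ Z, (m s : ℂ) * (m s' : ℂ) *
      (Rf lam x x' t t' s * conj (Rf lam x x' t t' (1 - conj s'))) =
      ((‖AZ Z m (lam * (x - x')) ((t + t') / 2)‖ ^ 2 * Real.exp (-(t - t') ^ 2 / 4) : ℝ) : ℂ) := by
  have e1 : ∑ s' ∈ Z, (m s' : ℂ) * conj (Rf lam x x' t t' (1 - conj s')) =
      conj (∑ s' ∈ Z, (m s' : ℂ) * Rf lam x x' t t' s') := by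
    rw [reindex hZ (fun s => conj (Rf lam x x' t t' s)), map_sum]
    refine Finset.sum_congr rfl fun s _ => ?_
    rw [map_mul, map_natCast]
  have e2 : ∑ s ∈ Z, ∑ s' ∈ Z, (m s : ℂ) * (m s' : ℂ) *
      (Rf lam x x' t t' s * conj (Rf lam x x' t t' (1 - conj s'))) =
      (∑ s ∈ Z, (m s : ℂ) * Rf lam x x' t t' s) *
        ∑ s' ∈ Z, (m s' : ℂ) * conj (Rf lam x x' t t' (1 - conj s')) := by
    rw [Finset.sum_mul_sum]
    refine Finset.sum_congr rfl fun s _ => Finset.sum_congr rfl fun s' _ => ?_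
    ring
  rw [e2, e1, Complex.mul_conj, Rf_sum hZ, Complex.normSq_eq_norm_sq, norm_mul, mul_pow,
    Complex.norm_real, Real.norm_eq_abs, abs_of_pos (Real.exp_pos _), ← Real.exp_nat_mul]
  congr 3
  push_cast
  ring

/-- finite sums of products of functions of different variables -/
lemma sum4 {ι : Type} (J : Finset ι) (c : ι → ℂ) (μ1 μ2 : Measure ℝ) (f g u v : ι → ℝ → ℂ)
    (hf : ∀ i ∈ J, Integrable (f i) μ1) (hg : ∀ i ∈ J, Integrable (g i) μ1)
    (hu : ∀ i ∈ J, Integrable (u i) μ2) (hv : ∀ i ∈ J, Integrable (v i) μ2) :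
    ∫ x, ∫ x', ∫ t, ∫ t', ∑ i ∈ J, c i * f i x * g i x' * u i t * v i t' ∂μ2 ∂μ2 ∂μ1 ∂μ1 =
      ∑ i ∈ J, c i * (∫ x, f i x ∂μ1) * (∫ x', g i x' ∂μ1) * (∫ t, u i t ∂μ2) *
        (∫ t', v i t' ∂μ2) := by
  have e1 : ∀ x x' t, ∫ t', ∑ i ∈ J, c i * f i x * g i x' * u i t * v i t' ∂μ2 =
      ∑ i ∈ J, c i * f i x * g i x' * u i t * (∫ t', v i t' ∂μ2) := by
    intro x x' t
    rw [integral_finsetSum _ fun i hi => (hv i hi).const_mul _]
    exact Finset.sum_congr rfl fun i _ => integral_const_mul _ _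
  have e2 : ∀ x x', ∫ t, ∑ i ∈ J, c i * f i x * g i x' * u i t * (∫ t', v i t' ∂μ2) ∂μ2 =
      ∑ i ∈ J, c i * f i x * g i x' * (∫ t, u i t ∂μ2) * (∫ t', v i t' ∂μ2) := by
    intro x x'
    rw [integral_finsetSum _ fun i hi => ((hu i hi).const_mul _).mul_const _]
    refine Finset.sum_congr rfl fun i _ => ?_
    rw [integral_mul_const, integral_const_mul]
  have e3 : ∀ x, ∫ x', ∑ i ∈ J, c i * f i x * g i x' * (∫ t, u i t ∂μ2) * (∫ t', v i t' ∂μ2) ∂μ1 =
      ∑ i ∈ J, c i * f i x * (∫ x', g i x' ∂μ1) * (∫ t, u i t ∂μ2) * (∫ t', v i t' ∂μ2) := by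
    intro x
    rw [integral_finsetSum _ fun i hi => (((hg i hi).const_mul _).mul_const _).mul_const _]
    refine Finset.sum_congr rfl fun i _ => ?_
    rw [integral_mul_const, integral_mul_const, integral_const_mul]
  simp only [e1, e2, e3]
  rw [integral_finsetSum _ fun i hi =>
    ((((hf i hi).const_mul _).mul_const _).mul_const _).mul_const _]
  refine Finset.sum_congr rfl fun i _ => ?_
  rw [integral_mul_const, integral_mul_const, integral_mul_const, integral_const_mul]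

lemma four {Z : Finset ℂ} {m : ℂ → ℕ} (hZ : Sys Z m) (hw : Win w) (lam t1 t2 : ℝ) :
    ∑ s ∈ Z, ∑ s' ∈ Z, (m s : ℂ) * (m s' : ℂ) * ((Xi w lam s (1 - conj s') *
      Ti t1 t2 s (1 - conj s')) * (Xi w lam s' (1 - conj s) * Ti t1 t2 s' (1 - conj s))) =
      ((∫ x, w x * ∫ x', w x' * ∫ t, ∫ t', ‖AZ Z m (lam * (x - x')) ((t + t') / 2)‖ ^ 2 *
        Real.exp (-(t - t') ^ 2 / 4) ∂(nu t1 t2) ∂(nu t1 t2) : ℝ) : ℂ) := by
  have h := sum4 (Z ×ˢ Z) (fun i => (m i.1 : ℂ) * (m i.2 : ℂ)) volume (nu t1 t2)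
    (fun i x => (w x : ℂ) * (conj (Pf lam i.2 x) * Pf lam (1 - conj i.1) x))
    (fun i x => (w x : ℂ) * (conj (Pf lam i.1 x) * Pf lam (1 - conj i.2) x))
    (fun i t => conj (Qf i.2 t) * Qf (1 - conj i.1) t)
    (fun i t => conj (Qf i.1 t) * Qf (1 - conj i.2) t)
    (fun i _ => hw.intf _ ((Complex.continuous_conj.comp (Pf_cont _ _)).mul (Pf_cont _ _)))
    (fun i _ => hw.intf _ ((Complex.continuous_conj.comp (Pf_cont _ _)).mul (Pf_cont _ _)))
    (fun i _ => nu_int _ _ ((Complex.continuous_conj.comp (Qf_cont _)).mul (Qf_cont _)))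
    (fun i _ => nu_int _ _ ((Complex.continuous_conj.comp (Qf_cont _)).mul (Qf_cont _)))
  have e1 : ∀ x x' t t' : ℝ, ∑ i ∈ Z ×ˢ Z, ((m i.1 : ℂ) * (m i.2 : ℂ)) *
      ((w x : ℂ) * (conj (Pf lam i.2 x) * Pf lam (1 - conj i.1) x)) *
      ((w x' : ℂ) * (conj (Pf lam i.1 x') * Pf lam (1 - conj i.2) x')) *
      (conj (Qf i.2 t) * Qf (1 - conj i.1) t) * (conj (Qf i.1 t') * Qf (1 - conj i.2) t') =
      ((w x * (w x' * (‖AZ Z m (lam * (x - x')) ((t + t') / 2)‖ ^ 2 *
        Real.exp (-(t - t') ^ 2 / 4))) : ℝ) : ℂ) := by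
    intro x x' t t'
    rw [Finset.sum_product, Complex.ofReal_mul, Complex.ofReal_mul, ← pair_sum hZ,
      Finset.mul_sum, Finset.mul_sum]
    refine Finset.sum_congr rfl fun s _ => ?_
    rw [Finset.mul_sum, Finset.mul_sum]
    refine Finset.sum_congr rfl fun s' _ => ?_
    unfold Rf
    rw [conj_conj']
    simp only [map_mul, Complex.conj_conj]
    ring
  simp only [e1] at h
  simp only [integral_complex_ofReal, integral_const_mul] at h
  rw [h, Finset.sum_product]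
  refine Finset.sum_congr rfl fun s _ => Finset.sum_congr rfl fun s' _ => ?_
  unfold Xi Ti
  ring

/-- convolution with the window -/
lemma conv_cont (hw : Win w) {f : ℝ → ℝ} (hf : Continuous f) :
    Continuous fun x => ∫ x', w x' * f (x - x') := by
  rw [continuous_iff_continuousAt]
  intro x0
  obtain ⟨C, hC⟩ := (isCompact_Icc (a := x0 - 2) (b := x0 + 2)).exists_bound_of_continuousOn
    hf.continuousOn
  refine continuousAt_of_dominated (bound := fun x' => w x' * C) ?_ ?_ ?_ ?_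
  · exact Filter.Eventually.of_forall fun x =>
      (hw.meas.mul (hf.comp (continuous_const.sub continuous_id)).measurable).aestronglyMeasurable
  · have : ∀ᶠ x in 𝓝 x0, |x - x0| < 1 := by
      have := Metric.ball_mem_nhds x0 one_pos
      filter_upwards [this] with x hx
      simpa [Real.dist_eq] using hx
    filter_upwards [this] with x hx
    refine Filter.Eventually.of_forall fun x' => ?_
    rw [norm_mul, Real.norm_of_nonneg (hw.nonneg x')]
    by_cases h : 1 / 2 < |x'|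
    · rw [hw.supp x' h]; simp
    · refine mul_le_mul_of_nonneg_left (hC _ ?_) (hw.nonneg x')
      rw [not_lt, abs_le] at h
      rw [abs_lt] at hx
      constructor <;> linarith
  · exact hw.int.mul_const C
  · refine Filter.Eventually.of_forall fun x' => ?_
    exact (continuous_const.mul (hf.comp (continuous_id.sub continuous_const))).continuousAt

end KerN

open KerN in
theorem ker (hG : S_GG) (hW : S_WWF) (hA : S_ABS) : S_KER := by
  intro w hw t1 t2 ht lam
  refine ⟨Lp ℂ 2 (mu t1 t2), inferInstance, inferInstance, kv hw lam t1 t2,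
    fun s => diag hw ht lam s, fun Z m hZ => ?_⟩
  obtain ⟨hA1, hA2, hA3⟩ := hA Z m hZ
  -- the left side
  have hL : ∑ s ∈ Z, ∑ s' ∈ Z, (m s : ℝ) * (m s' : ℝ) *
      (inner ℂ (kv hw lam t1 t2 s) (kv hw lam t1 t2 (1 - conj s')) *
        inner ℂ (kv hw lam t1 t2 s') (kv hw lam t1 t2 (1 - conj s))).re =
      c2 ^ 2 * ∫ x, w x * ∫ x', w x' * ∫ t, ∫ t', ‖AZ Z m (lam * (x - x')) ((t + t') / 2)‖ ^ 2 *
        Real.exp (-(t - t') ^ 2 / 4) ∂(nu t1 t2) ∂(nu t1 t2) := by
    have h := congrArg Complex.re (congrArg (fun z => ((c2 ^ 2 : ℝ) : ℂ) * z)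
      (four hZ hw lam t1 t2))
    simp only [Complex.re_ofReal_mul, Complex.ofReal_re, Complex.re_sum] at h
    rw [← h, Finset.mul_sum]
    refine Finset.sum_congr rfl fun s _ => ?_
    rw [Finset.mul_sum]
    refine Finset.sum_congr rfl fun s' _ => ?_
    rw [kv_inner, kv_inner]
    have e1 : (c2 : ℂ) * (Xi w lam s (1 - conj s') * Ti t1 t2 s (1 - conj s')) *
        ((c2 : ℂ) * (Xi w lam s' (1 - conj s) * Ti t1 t2 s' (1 - conj s))) =
        ((c2 ^ 2 : ℝ) : ℂ) * ((Xi w lam s (1 - conj s') * Ti t1 t2 s (1 - conj s')) *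
          (Xi w lam s' (1 - conj s) * Ti t1 t2 s' (1 - conj s))) := by
      push_cast
      ring
    have e2 : ∀ z : ℂ, ((m s : ℂ) * (m s' : ℂ) * z).re = (m s : ℝ) * (m s' : ℝ) * z.re := by
      intro z
      have : (m s : ℂ) * (m s' : ℂ) * z = (((m s : ℝ) * (m s' : ℝ) : ℝ) : ℂ) * z := by
        push_cast
        ring
      rw [this, Complex.re_ofReal_mul]
    rw [e1, Complex.re_ofReal_mul, e2]
    ring
  rw [hL]
  -- the bound for the time integral
  have hT : ∀ x x' : ℝ, ∫ t, ∫ t', ‖AZ Z m (lam * (x - x')) ((t + t') / 2)‖ ^ 2 *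
      Real.exp (-(t - t') ^ 2 / 4) ∂(nu t1 t2) ∂(nu t1 t2) ≤
      2 * Real.sqrt Real.pi * JZ Z m t1 t2 (lam * (x - x')) := by
    intro x x'
    have h := hG (fun τ => ‖AZ Z m (lam * (x - x')) τ‖ ^ 2) t1 t2 ((hA2 _).norm.pow 2)
      (fun τ => by positivity) ht
    simp only [intervalIntegral.integral_of_le ht] at h
    unfold JZ nu
    rw [intervalIntegral.integral_of_le ht]
    exact h
  have hJc : Continuous fun a => JZ Z m t1 t2 (lam * a) := (hA3 t1 t2).comp (continuous_const.mul continuous_id)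
  have hJe : ∀ a, JZ Z m t1 t2 (lam * -a) = JZ Z m t1 t2 (lam * a) := by
    intro a
    unfold JZ
    congr 1
    funext t
    rw [mul_neg, hA1]
  have hT0 : ∀ x x' : ℝ, 0 ≤ ∫ t, ∫ t', ‖AZ Z m (lam * (x - x')) ((t + t') / 2)‖ ^ 2 *
      Real.exp (-(t - t') ^ 2 / 4) ∂(nu t1 t2) ∂(nu t1 t2) := fun x x' =>
    integral_nonneg fun t => integral_nonneg fun t' => by positivity
  -- the space integrals
  have h1 : ∀ x, ∫ x', w x' * ∫ t, ∫ t', ‖AZ Z m (lam * (x - x')) ((t + t') / 2)‖ ^ 2 *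
      Real.exp (-(t - t') ^ 2 / 4) ∂(nu t1 t2) ∂(nu t1 t2) ≤
      ∫ x', w x' * (2 * Real.sqrt Real.pi * JZ Z m t1 t2 (lam * (x - x'))) := by
    intro x
    refine integral_mono_of_nonneg (Filter.Eventually.of_forall fun x' =>
      mul_nonneg (hw.nonneg _) (hT0 x x')) ?_ (Filter.Eventually.of_forall fun x' =>
      mul_le_mul_of_nonneg_left (hT x x') (hw.nonneg _))
    exact hw.intr _ (continuous_const.mul (hJc.comp (continuous_const.sub continuous_id)))
  have h2 : ∫ x, w x * ∫ x', w x' * ∫ t, ∫ t', ‖AZ Z m (lam * (x - x')) ((t + t') / 2)‖ ^ 2 *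
      Real.exp (-(t - t') ^ 2 / 4) ∂(nu t1 t2) ∂(nu t1 t2) ≤
      ∫ x, w x * ∫ x', w x' * (2 * Real.sqrt Real.pi * JZ Z m t1 t2 (lam * (x - x'))) := by
    refine integral_mono_of_nonneg (Filter.Eventually.of_forall fun x =>
      mul_nonneg (hw.nonneg _) (integral_nonneg fun x' => mul_nonneg (hw.nonneg _) (hT0 x x'))) ?_
      (Filter.Eventually.of_forall fun x => mul_le_mul_of_nonneg_left (h1 x) (hw.nonneg _))
    exact hw.intr _ (conv_cont hw (f := fun a => 2 * Real.sqrt Real.pi * JZ Z m t1 t2 (lam * a))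
      (continuous_const.mul hJc))
  have h3 := hW w hw (fun a => JZ Z m t1 t2 (lam * a)) hJc hJe
  have h4 : ∫ x, w x * ∫ x', w x' * (2 * Real.sqrt Real.pi * JZ Z m t1 t2 (lam * (x - x'))) =
      2 * Real.sqrt Real.pi * (2 * ∫ a in (0 : ℝ)..1, WW w a * JZ Z m t1 t2 (lam * a)) := by
    rw [← h3, ← integral_const_mul]
    congr 1
    funext x
    have : ∫ x', w x' * (2 * Real.sqrt Real.pi * JZ Z m t1 t2 (lam * (x - x'))) =
        2 * Real.sqrt Real.pi * ∫ x', w x' * JZ Z m t1 t2 (lam * (x - x')) := by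
      rw [← integral_const_mul]
      congr 1
      funext x'
      ring
    rw [this]
    ring
  refine (mul_le_mul_of_nonneg_left (h2.trans h4.le) (by positivity)).trans (le_of_eq ?_)
  have hpi := Real.pi_pos
  have h5 : c2 ^ 2 = 1 / (2 * Real.pi) := by
    unfold c2
    rw [div_pow, one_pow, Real.sq_sqrt (by positivity)]
  have h6 : Real.sqrt Real.pi * Real.sqrt Real.pi = Real.pi := Real.mul_self_sqrt hpi.le
  have h7 : 0 < Real.sqrt Real.pi := Real.sqrt_pos.2 hpi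
  rw [h5]
  obtain ⟨J, hJ⟩ : ∃ J, J = ∫ a in (0 : ℝ)..1, WW w a * JZ Z m t1 t2 (lam * a) := ⟨_, rfl⟩
  rw [← hJ]
  field_simp
  rw [sq, h6]

end H479.Y
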