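import Pool.Agent.H479.Y.Stm
import Pool.Graph.R_seed8.H370R2.Trace

/-! # linear algebra: a lower bound for the trace of a square (proved by helper17) -/


set_option autoImplicit false

open MeasureTheory Complex Filter Topology
open scoped ComplexConjugate

namespace H479.Y

open H370 H479.U

namespace LAh

/-- the reflection in the critical line -/
noncomputable def st (s : ℂ) : ℂ := 1 - conj s

theorem st_st (s : ℂ) : st (st s) = s := by
  unfold st
  rw [map_sub, map_one, Complex.conj_conj]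
  ring

theorem st_re (s : ℂ) : (st s).re = 1 - s.re := by
  unfold st
  rw [Complex.sub_re, Complex.one_re, Complex.conj_re]

theorem st_line {s : ℂ} (h : s.re = 1 / 2) : st s = s := by
  apply Complex.ext
  · rw [st_re, h]
    norm_num
  · unfold st
    rw [Complex.sub_im, Complex.one_im, Complex.conj_im]
    ring

section
variable {Z : Finset ℂ} {m : ℂ → ℕ}

theorem mem_Z1 {s : ℂ} : s ∈ Z1 Z m ↔ s ∈ Z ∧ s.re = 1 / 2 ∧ m s = 1 := Finset.mem_filter

theorem mem_Z2 {s : ℂ} : s ∈ Z2 Z m ↔ s ∈ Z ∧ s.re = 1 / 2 ∧ 2 ≤ m s := Finset.mem_filter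

theorem mem_Z3 {s : ℂ} : s ∈ Z3 Z ↔ s ∈ Z ∧ 1 / 2 < s.re := Finset.mem_filter

open Classical in
/-- the right half -/
noncomputable def PP (Z : Finset ℂ) (m : ℂ → ℕ) : Finset ℂ := Z1 Z m ∪ Z2 Z m ∪ Z3 Z

theorem sum_PP (f : ℂ → ℝ) : ∑ s ∈ PP Z m, f s =
    ∑ s ∈ Z1 Z m, f s + ∑ s ∈ Z2 Z m, f s + ∑ s ∈ Z3 Z, f s := by
  classical
  unfold PP
  rw [Finset.sum_union, Finset.sum_union]
  · rw [Finset.disjoint_left]
    intro s h1 h2
    have a1 := (mem_Z1.1 h1).2.2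
    have a2 := (mem_Z2.1 h2).2.2
    omega
  · rw [Finset.disjoint_left]
    intro s h1 h2
    have a2 := (mem_Z3.1 h2).2
    rcases Finset.mem_union.1 h1 with h | h
    · have := (mem_Z1.1 h).2.1
      linarith
    · have := (mem_Z2.1 h).2.1
      linarith

/-- the coefficient -/
noncomputable def cc (m : ℂ → ℕ) (s : ℂ) : ℝ := if s.re = 1 / 2 then (m s : ℝ) / 4 else (m s : ℝ) / 2

theorem cc_nonneg (s : ℂ) : 0 ≤ cc m s := by
  unfold cc
  split_ifs <;> positivity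

theorem split (hZ : Sys Z m) (G : ℂ → ℝ) : ∑ s ∈ Z, (m s : ℝ) * G s =
    ∑ s ∈ PP Z m, 2 * cc m s * (G s + G (st s)) := by
  classical
  rw [sum_PP]
  have h1 : ∑ s ∈ Z, (m s : ℝ) * G s = ∑ s ∈ Z1 Z m, (m s : ℝ) * G s +
      ∑ s ∈ Z2 Z m, (m s : ℝ) * G s + ∑ s ∈ Z3 Z, (m s : ℝ) * G s +
      ∑ s ∈ Z.filter (fun s => s.re < 1 / 2), (m s : ℝ) * G s := by
    rw [← sum_PP, ← Finset.sum_union]
    · refine Finset.sum_congr ?_ fun _ _ => rfl
      ext s
      unfold PP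
      simp only [Finset.mem_union, mem_Z1, mem_Z2, mem_Z3, Finset.mem_filter]
      constructor
      · intro hs
        have hm := hZ.pos s hs
        rcases lt_trichotomy s.re (1 / 2) with h | h | h
        · exact Or.inr ⟨hs, h⟩
        · rcases Nat.lt_or_ge (m s) 2 with h' | h'
          · exact Or.inl (Or.inl (Or.inl ⟨hs, h, by omega⟩))
          · exact Or.inl (Or.inl (Or.inr ⟨hs, h, h'⟩))
        · exact Or.inl (Or.inr ⟨hs, h⟩)
      · rintro (((h | h) | h) | h) <;> exact h.1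
    · rw [Finset.disjoint_left]
      intro s h1 h2
      have a2 := (Finset.mem_filter.1 h2).2
      unfold PP at h1
      rcases Finset.mem_union.1 h1 with h | h
      · rcases Finset.mem_union.1 h with h | h
        · have := (mem_Z1.1 h).2.1
          linarith
        · have := (mem_Z2.1 h).2.1
          linarith
      · have := (mem_Z3.1 h).2
        linarith
  have h2 : ∑ s ∈ Z.filter (fun s => s.re < 1 / 2), (m s : ℝ) * G s =
      ∑ s ∈ Z3 Z, (m s : ℝ) * G (st s) := by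
    refine Finset.sum_nbij' st st ?_ ?_ ?_ ?_ ?_
    · intro s hs
      rw [Finset.mem_filter] at hs
      rw [mem_Z3]
      refine ⟨hZ.refl s hs.1, ?_⟩
      rw [st_re]
      linarith [hs.2]
    · intro s hs
      rw [mem_Z3] at hs
      rw [Finset.mem_filter]
      refine ⟨hZ.refl s hs.1, ?_⟩
      rw [st_re]
      linarith [hs.2]
    · intro s _
      exact st_st s
    · intro s _
      exact st_st s
    · intro s hs
      rw [Finset.mem_filter] at hs
      have e : m (st s) = m s := hZ.mrefl s hs.1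
      rw [e, st_st]
  have h3 : ∀ s ∈ Z1 Z m, 2 * cc m s * (G s + G (st s)) = (m s : ℝ) * G s := by
    intro s hs
    have h := (mem_Z1.1 hs).2.1
    rw [st_line h]
    unfold cc
    rw [if_pos h]
    ring
  have h4 : ∀ s ∈ Z2 Z m, 2 * cc m s * (G s + G (st s)) = (m s : ℝ) * G s := by
    intro s hs
    have h := (mem_Z2.1 hs).2.1
    rw [st_line h]
    unfold cc
    rw [if_pos h]
    ring
  have h5 : ∀ s ∈ Z3 Z, 2 * cc m s * (G s + G (st s)) =
      (m s : ℝ) * G s + (m s : ℝ) * G (st s) := by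
    intro s hs
    have h := (mem_Z3.1 hs).2
    unfold cc
    rw [if_neg h.ne']
    ring
  rw [h1, h2, Finset.sum_congr rfl h3, Finset.sum_congr rfl h4, Finset.sum_congr rfl h5,
    Finset.sum_add_distrib]
  ring

end

section
variable {E : Type} [NormedAddCommGroup E] [InnerProductSpace ℂ E]

/-- the four products -/
theorem four (a a' d d' : E) (r r' : ℝ) (hr : 0 ≤ r) (hr' : 0 ≤ r') :
    ‖inner ℂ (((Real.sqrt r : ℝ) : ℂ) • (a + a')) (((Real.sqrt r' : ℝ) : ℂ) • (d + d'))‖ ^ 2 -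
    ‖inner ℂ (((Real.sqrt r : ℝ) : ℂ) • (a + a')) (((Real.sqrt r' : ℝ) : ℂ) • (d - d'))‖ ^ 2 -
    ‖inner ℂ (((Real.sqrt r : ℝ) : ℂ) • (a - a')) (((Real.sqrt r' : ℝ) : ℂ) • (d + d'))‖ ^ 2 +
    ‖inner ℂ (((Real.sqrt r : ℝ) : ℂ) • (a - a')) (((Real.sqrt r' : ℝ) : ℂ) • (d - d'))‖ ^ 2 =
    2 * r * (2 * r' * ((inner ℂ a d' * inner ℂ d a').re + (inner ℂ a d * inner ℂ d' a').re) +
      2 * r' * 0) +
    2 * r * (2 * r' * ((inner ℂ a' d' * inner ℂ d a).re + (inner ℂ a' d * inner ℂ d' a).re) +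
      2 * r' * 0) := by
  have e : ∀ u v : E, ‖inner ℂ (((Real.sqrt r : ℝ) : ℂ) • u) (((Real.sqrt r' : ℝ) : ℂ) • v)‖ ^ 2 =
      r * r' * ‖(inner ℂ u v : ℂ)‖ ^ 2 := by
    intro u v
    rw [inner_smul_left, inner_smul_right, Complex.conj_ofReal, norm_mul, norm_mul,
      Complex.norm_real, Complex.norm_real, Real.norm_eq_abs, Real.norm_eq_abs, mul_pow, mul_pow,
      sq_abs, sq_abs, Real.sq_sqrt hr, Real.sq_sqrt hr']
    ring
  rw [e, e, e, e, inner_add_left, inner_add_left, inner_sub_left, inner_sub_left]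
  simp only [inner_add_right, inner_sub_right]
  rw [← inner_conj_symm d a', ← inner_conj_symm d' a', ← inner_conj_symm d a,
    ← inner_conj_symm d' a]
  generalize (inner ℂ a d : ℂ) = p
  generalize (inner ℂ a d' : ℂ) = q
  generalize (inner ℂ a' d : ℂ) = u
  generalize (inner ℂ a' d' : ℂ) = t
  simp only [← Complex.normSq_eq_norm_sq, Complex.normSq_apply, Complex.mul_re,
    Complex.conj_re, Complex.conj_im, Complex.add_re, Complex.add_im, Complex.sub_re,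
    Complex.sub_im]
  ring

/-- the difference of the squares of the norms -/
theorem diff (a a' : E) (r : ℝ) (hr : 0 ≤ r) :
    ‖((Real.sqrt r : ℝ) : ℂ) • (a + a')‖ ^ 2 - ‖((Real.sqrt r : ℝ) : ℂ) • (a - a')‖ ^ 2 =
      4 * r * (inner ℂ a a' : ℂ).re := by
  rw [norm_smul, norm_smul, mul_pow, mul_pow, Complex.norm_real, Real.norm_eq_abs, sq_abs,
    Real.sq_sqrt hr, norm_add_sq (𝕜 := ℂ), norm_sub_sq (𝕜 := ℂ)]
  simp only [RCLike.re_to_complex]
  ring

end

end LAh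

open LAh in
theorem la : S_LA := by
  classical
  intro E _ _ k Z m hZ
  set x : ℂ → E := fun s => ((Real.sqrt (cc m s) : ℝ) : ℂ) • (k s + k (st s)) with hx
  set b : ℂ → E := fun s => ((Real.sqrt (cc m s) : ℝ) : ℂ) • (k s - k (st s)) with hb
  set d : ℂ → ℝ := fun s => if s.re = 1 / 2 ∧ m s = 1 then 1 else 2 with hd
  have hd2 : ∀ s, 0 ≤ d s ∧ d s ≤ 2 := by
    intro s
    rw [hd]
    simp only
    split_ifs <;> norm_num
  have hmain := la_core_finset (PP Z m) x b (fun i j => if i = j then d i else 0) (by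
    intro v
    have e : ∀ i ∈ PP Z m, ∑ j ∈ PP Z m, (if i = j then d i else 0) *
        ((starRingEnd ℂ (v i)) * v j).re = d i * ‖v i‖ ^ 2 := by
      intro i hi
      simp_rw [ite_mul, zero_mul]
      rw [Finset.sum_ite_eq, if_pos hi, Complex.conj_mul', ← Complex.ofReal_pow, Complex.ofReal_re]
    rw [Finset.sum_congr rfl e, Finset.mul_sum]
    refine Finset.sum_le_sum fun i _ => ?_
    exact mul_le_mul_of_nonneg_right (hd2 i).2 (by positivity))
  -- the diagonal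
  have hdiag : ∑ i ∈ PP Z m, ∑ j ∈ PP Z m,
      ‖inner ℂ (x i) (x j) - ((if i = j then d i else 0 : ℝ) : ℂ)‖ ^ 2 =
      ∑ i ∈ PP Z m, ∑ j ∈ PP Z m, ‖(inner ℂ (x i) (x j) : ℂ)‖ ^ 2 -
        ∑ i ∈ PP Z m, (2 * d i * ‖x i‖ ^ 2 - d i ^ 2) := by
    rw [← Finset.sum_sub_distrib]
    refine Finset.sum_congr rfl fun i hi => ?_
    have e : ∀ j ∈ PP Z m, ‖inner ℂ (x i) (x j) - ((if i = j then d i else 0 : ℝ) : ℂ)‖ ^ 2 =
        ‖(inner ℂ (x i) (x j) : ℂ)‖ ^ 2 - if i = j then 2 * d i * ‖x i‖ ^ 2 - d i ^ 2 else 0 := by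
      intro j _
      by_cases hij : i = j
      · subst hij
        rw [if_pos rfl, if_pos rfl, inner_self_eq_norm_sq_to_K]
        have e1 : ((‖x i‖ : ℝ) : ℂ) ^ 2 - ((d i : ℝ) : ℂ) = ((‖x i‖ ^ 2 - d i : ℝ) : ℂ) := by
          push_cast
          ring
        have e2 : ((‖x i‖ : ℝ) : ℂ) ^ 2 = ((‖x i‖ ^ 2 : ℝ) : ℂ) := by
          push_cast
          ring
        show ‖((‖x i‖ : ℝ) : ℂ) ^ 2 - ((d i : ℝ) : ℂ)‖ ^ 2 =
          ‖((‖x i‖ : ℝ) : ℂ) ^ 2‖ ^ 2 - (2 * d i * ‖x i‖ ^ 2 - d i ^ 2)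
        rw [e1, e2, Complex.norm_real, Complex.norm_real, Real.norm_eq_abs, Real.norm_eq_abs,
          sq_abs, sq_abs]
        ring
      · rw [if_neg hij, if_neg hij, Complex.ofReal_zero, sub_zero, sub_zero]
    rw [Finset.sum_congr rfl e, Finset.sum_sub_distrib, Finset.sum_ite_eq, if_pos hi]
  -- the right side
  have hQ : ∑ s ∈ Z, ∑ s' ∈ Z, (m s : ℝ) * (m s' : ℝ) *
      (inner ℂ (k s) (k (1 - conj s')) * inner ℂ (k s') (k (1 - conj s))).re =
      ∑ i ∈ PP Z m, ∑ j ∈ PP Z m, ‖(inner ℂ (x i) (x j) : ℂ)‖ ^ 2 -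
        2 * ∑ i ∈ PP Z m, ∑ j ∈ PP Z m, ‖(inner ℂ (x i) (b j) : ℂ)‖ ^ 2 +
        ∑ i ∈ PP Z m, ∑ j ∈ PP Z m, ‖(inner ℂ (b i) (b j) : ℂ)‖ ^ 2 := by
    have h1 : 2 * ∑ i ∈ PP Z m, ∑ j ∈ PP Z m, ‖(inner ℂ (x i) (b j) : ℂ)‖ ^ 2 =
        ∑ i ∈ PP Z m, ∑ j ∈ PP Z m, (‖(inner ℂ (x i) (b j) : ℂ)‖ ^ 2 +
          ‖(inner ℂ (b i) (x j) : ℂ)‖ ^ 2) := by
      simp_rw [Finset.sum_add_distrib]
      have h2 : ∑ i ∈ PP Z m, ∑ j ∈ PP Z m, ‖(inner ℂ (b i) (x j) : ℂ)‖ ^ 2 =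
          ∑ i ∈ PP Z m, ∑ j ∈ PP Z m, ‖(inner ℂ (x i) (b j) : ℂ)‖ ^ 2 := by
        rw [Finset.sum_comm]
        refine Finset.sum_congr rfl fun i _ => Finset.sum_congr rfl fun j _ => ?_
        rw [norm_inner_symm]
      rw [h2]
      ring
    have h3 : ∀ s ∈ Z, ∑ s' ∈ Z, (m s : ℝ) * (m s' : ℝ) *
        (inner ℂ (k s) (k (1 - conj s')) * inner ℂ (k s') (k (1 - conj s))).re =
        (m s : ℝ) * ∑ j ∈ PP Z m, 2 * cc m j *
          ((inner ℂ (k s) (k (st j)) * inner ℂ (k j) (k (st s))).re +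
            (inner ℂ (k s) (k (st (st j))) * inner ℂ (k (st j)) (k (st s))).re) := by
      intro s _
      rw [← split hZ (fun j => (inner ℂ (k s) (k (st j)) * inner ℂ (k j) (k (st s))).re),
        Finset.mul_sum]
      refine Finset.sum_congr rfl fun j _ => ?_
      rw [mul_assoc]
      rfl
    rw [Finset.sum_congr rfl h3, split hZ (fun s => ∑ j ∈ PP Z m, 2 * cc m j *
          ((inner ℂ (k s) (k (st j)) * inner ℂ (k j) (k (st s))).re +
            (inner ℂ (k s) (k (st (st j))) * inner ℂ (k (st j)) (k (st s))).re)),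
      h1, ← Finset.sum_sub_distrib, ← Finset.sum_add_distrib]
    refine Finset.sum_congr rfl fun i _ => ?_
    rw [← Finset.sum_add_distrib, Finset.mul_sum, ← Finset.sum_sub_distrib,
      ← Finset.sum_add_distrib]
    refine Finset.sum_congr rfl fun j _ => ?_
    rw [st_st, st_st]
    have h4 := four (k i) (k (st i)) (k j) (k (st j)) (cc m i) (cc m j) (cc_nonneg i) (cc_nonneg j)
    rw [hx, hb]
    simp only
    linarith
  -- the left side
  have hL : ∑ s ∈ Z1 Z m, (2 * (inner ℂ (k s) (k (1 - conj s))).re - 1) +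
      ∑ s ∈ Z2 Z m, (4 * (m s : ℝ) * (inner ℂ (k s) (k (1 - conj s))).re - 4) +
      ∑ s ∈ Z3 Z, (8 * (m s : ℝ) * (inner ℂ (k s) (k (1 - conj s))).re - 4) =
      ∑ i ∈ PP Z m, (2 * d i * ‖x i‖ ^ 2 - d i ^ 2) - 4 * ∑ i ∈ PP Z m, ‖b i‖ ^ 2 := by
    rw [Finset.mul_sum, ← Finset.sum_sub_distrib, sum_PP]
    have hdf : ∀ s, ‖x s‖ ^ 2 - ‖b s‖ ^ 2 = 4 * cc m s * (inner ℂ (k s) (k (1 - conj s))).re :=
      fun s => diff (k s) (k (st s)) (cc m s) (cc_nonneg s)
    have hb0 : ∀ s : ℂ, s.re = 1 / 2 → ‖b s‖ ^ 2 = 0 := by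
      intro s hs
      rw [hb]
      simp only
      rw [st_line hs, sub_self, smul_zero, norm_zero]
      norm_num
    have e1 : ∀ s ∈ Z1 Z m, 2 * d s * ‖x s‖ ^ 2 - d s ^ 2 - 4 * ‖b s‖ ^ 2 =
        2 * (inner ℂ (k s) (k (1 - conj s))).re - 1 := by
      intro s hs
      obtain ⟨-, h1, h2⟩ := mem_Z1.1 hs
      have h3 := hdf s
      have h4 : d s = 1 := if_pos ⟨h1, h2⟩
      have h5 : cc m s = 1 / 4 := by
        unfold cc
        rw [if_pos h1, h2]
        norm_num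
      rw [hb0 s h1, h5] at h3
      rw [hb0 s h1, h4]
      linarith
    have e2 : ∀ s ∈ Z2 Z m, 2 * d s * ‖x s‖ ^ 2 - d s ^ 2 - 4 * ‖b s‖ ^ 2 =
        4 * (m s : ℝ) * (inner ℂ (k s) (k (1 - conj s))).re - 4 := by
      intro s hs
      obtain ⟨-, h1, h2⟩ := mem_Z2.1 hs
      have h3 := hdf s
      have h4 : d s = 2 := if_neg fun h => by omega
      have h5 : cc m s = (m s : ℝ) / 4 := if_pos h1
      rw [hb0 s h1, h5] at h3
      rw [hb0 s h1, h4]
      linarith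
    have e3 : ∀ s ∈ Z3 Z, 2 * d s * ‖x s‖ ^ 2 - d s ^ 2 - 4 * ‖b s‖ ^ 2 =
        8 * (m s : ℝ) * (inner ℂ (k s) (k (1 - conj s))).re - 4 := by
      intro s hs
      obtain ⟨-, h1⟩ := mem_Z3.1 hs
      have h3 := hdf s
      have h4 : d s = 2 := if_neg fun h => h1.ne' h.1
      have h5 : cc m s = (m s : ℝ) / 2 := if_neg h1.ne'
      rw [h5] at h3
      rw [h4]
      linarith
    rw [Finset.sum_congr rfl e1, Finset.sum_congr rfl e2, Finset.sum_congr rfl e3]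
  rw [hL, hQ]
  rw [hdiag] at hmain
  linarith

end H479.Y

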