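import Pool.Agent.H479.Y.Stm
import Pool.Graph.R_seed8.H370R2.PC4

/-! # mean square in the range of Montgomery (proved by helper539) -/

/-!
# H479-Y-MS1 (owner helper479): mean square in the range of Montgomery
-/

open MeasureTheory Complex Filter Topology
open scoped ComplexConjugate

namespace H479.Y

open H370 H479.U

namespace MS1N

section

variable {a : ℕ → ℂ} {r : ℝ}

lemma div_bd (hr : 1 ≤ r) (ha : ∀ n, ‖a n‖ ≤ r * ArithmeticFunction.vonMangoldt n) (n : ℕ) :
    ‖a n / (r : ℂ)‖ ≤ ArithmeticFunction.vonMangoldt n := by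
  have hr0 : 0 < r := by linarith
  rw [norm_div, Complex.norm_real, Real.norm_of_nonneg hr0.le, div_le_iff₀ hr0, mul_comm]
  exact ha n

lemma pterm_eq (hr : 1 ≤ r) (u t : ℝ) (n : ℕ) :
    pterm a u t n = (r : ℂ) * pterm (fun n => a n / (r : ℂ)) u t n := by
  have hr0 : (r : ℂ) ≠ 0 := by
    have : r ≠ 0 := by linarith
    exact_mod_cast this
  unfold pterm
  field_simp

lemma PP_eq' (hr : 1 ≤ r) (u t : ℝ) :
    PP a u t = (r : ℂ) * PP (fun n => a n / (r : ℂ)) u t := by
  rw [PP_eq, PP_eq, ← tsum_mul_left]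
  exact tsum_congr fun n => pterm_eq hr u t n

lemma PPr_cont (hr : 1 ≤ r) (ha : ∀ n, ‖a n‖ ≤ r * ArithmeticFunction.vonMangoldt n) (u : ℝ) :
    Continuous (fun t => PP a u t) := by
  have h := PP_cont (div_bd hr ha) u
  have e : (fun t => PP a u t) = fun t => (r : ℂ) * PP (fun n => a n / (r : ℂ)) u t :=
    funext fun t => PP_eq' hr u t
  rw [e]
  exact continuous_const.mul h

lemma PPr_bound (hr : 1 ≤ r) (ha : ∀ n, ‖a n‖ ≤ r * ArithmeticFunction.vonMangoldt n)
    (u t : ℝ) : ‖PP a u t‖ ≤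
    r * (2 * (∑' n : ℕ, 1 / (n : ℝ) ^ 2) * Real.exp (2 + 2 * u)) := by
  have hr0 : 0 < r := by linarith
  rw [PP_eq' hr, norm_mul, Complex.norm_real, Real.norm_of_nonneg hr0.le]
  exact mul_le_mul_of_nonneg_left (PP_bound (div_bd hr ha) u t) hr0.le

lemma PPr_trunc (hr : 1 ≤ r) (ha : ∀ n, ‖a n‖ ≤ r * ArithmeticFunction.vonMangoldt n)
    (u t D : ℝ) (X : ℕ) (hD : 0 ≤ D) (hX : u + D ≤ Real.log (X + 1)) :
    ‖PP a u t - ∑ n ∈ Finset.Icc 1 X, pterm a u t n‖ ≤
      r * (2 * (∑' n : ℕ, 1 / (n : ℝ) ^ 2) *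
        (Real.exp (4 + 2 * u) * Real.exp (-D ^ 2 / 4))) := by
  have hr0 : 0 < r := by linarith
  have h1 : ∑ n ∈ Finset.Icc 1 X, pterm a u t n =
      (r : ℂ) * ∑ n ∈ Finset.Icc 1 X, pterm (fun n => a n / (r : ℂ)) u t n := by
    rw [Finset.mul_sum]
    exact Finset.sum_congr rfl fun n _ => pterm_eq hr u t n
  rw [PP_eq' hr, h1, ← mul_sub, norm_mul, Complex.norm_real, Real.norm_of_nonneg hr0.le]
  exact mul_le_mul_of_nonneg_left (PP_trunc (div_bd hr ha) u t D X hD hX) hr0.le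

lemma Va_term_nonneg (a : ℕ → ℂ) (u : ℝ) (n : ℕ) :
    0 ≤ ‖a n‖ ^ 2 / n * Real.exp (-(u - Real.log n) ^ 2) := by positivity

lemma Va_nonneg (a : ℕ → ℂ) (u : ℝ) : 0 ≤ Va a u := tsum_nonneg (Va_term_nonneg a u)

lemma Va_summable (ha : ∀ n, ‖a n‖ ≤ r * ArithmeticFunction.vonMangoldt n) (u : ℝ) :
    Summable (fun n : ℕ => ‖a n‖ ^ 2 / n * Real.exp (-(u - Real.log n) ^ 2)) := by
  refine Summable.of_nonneg_of_le (Va_term_nonneg a u) (fun n => ?_)
    ((VV_summable u).mul_left (r ^ 2))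
  have h1 := ha n
  calc ‖a n‖ ^ 2 / n * Real.exp (-(u - Real.log n) ^ 2) ≤
      (r * ArithmeticFunction.vonMangoldt n) ^ 2 / n * Real.exp (-(u - Real.log n) ^ 2) := by
        gcongr
    _ = _ := by ring

lemma PPr_ms (hr : 1 ≤ r) (ha : ∀ n, ‖a n‖ ≤ r * ArithmeticFunction.vonMangoldt n)
    (u D T1 T2 η : ℝ) (X : ℕ) (hη : 0 < η) (hT : T1 ≤ T2) (hD : 0 ≤ D)
    (hX : u + D ≤ Real.log (X + 1)) :
    ∫ t in T1..T2, ‖PP a u t‖ ^ 2 ≤
      (1 + η) * ((T2 - T1 + 8 * X * (1 + Real.log X)) * Va a u) +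
      (1 + 1 / η) * ((T2 - T1) * (r * (2 * (∑' n : ℕ, 1 / (n : ℝ) ^ 2) *
        (Real.exp (4 + 2 * u) * Real.exp (-D ^ 2 / 4)))) ^ 2) := by
  have hr0 : 0 < r := by linarith
  set E := r * (2 * (∑' n : ℕ, 1 / (n : ℝ) ^ 2) *
        (Real.exp (4 + 2 * u) * Real.exp (-D ^ 2 / 4))) with hE
  set b : ℕ → ℂ := fun n => a n * (Real.sqrt n : ℂ)⁻¹ * Real.exp (-(u - Real.log n) ^ 2 / 2) with hb
  have h1 : ∀ t : ℝ, ‖∑ n ∈ Finset.Icc 1 X, pterm a u t n‖ =
      ‖∑ n ∈ Finset.Icc 1 X, b n * (n : ℂ) ^ (-(t : ℂ) * I)‖ := by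
    intro t
    have h2 : ∑ n ∈ Finset.Icc 1 X, pterm a u t n = cexp (((t * u : ℝ) : ℂ) * I) *
        ∑ n ∈ Finset.Icc 1 X, b n * (n : ℂ) ^ (-(t : ℂ) * I) := by
      rw [Finset.mul_sum]
      refine Finset.sum_congr rfl fun n hn => ?_
      have hn1 : 1 ≤ n := (Finset.mem_Icc.mp hn).1
      have hn0 : (n : ℂ) ≠ 0 := by exact_mod_cast (by omega : n ≠ 0)
      unfold pterm
      simp only [hb]
      have h3 : cexp (I * t * (u - Real.log n)) = cexp (((t * u : ℝ) : ℂ) * I) *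
          (n : ℂ) ^ (-(t : ℂ) * I) := by
        rw [Complex.cpow_def_of_ne_zero hn0, ← Complex.exp_add, ← Complex.natCast_log]
        congr 1
        push_cast
        ring
      rw [h3]; ring
    rw [h2, norm_mul, Complex.norm_exp_ofReal_mul_I, one_mul]
  have h2 := mean_value b X T1 T2 hT
  have h3 : ∑ n ∈ Finset.Icc 1 X, ‖b n‖ ^ 2 ≤ Va a u := by
    have h4 : ∀ n ∈ Finset.Icc 1 X, ‖b n‖ ^ 2 = ‖a n‖ ^ 2 / n *
        Real.exp (-(u - Real.log n) ^ 2) := by
      intro n hn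
      have hn1 : 1 ≤ n := (Finset.mem_Icc.mp hn).1
      have hn0 : (0 : ℝ) < n := by exact_mod_cast hn1
      simp only [hb]
      rw [norm_mul, norm_mul, norm_inv, Complex.norm_real, Complex.norm_real,
        Real.norm_of_nonneg (Real.sqrt_nonneg _), Real.norm_of_nonneg (Real.exp_pos _).le,
        mul_pow, mul_pow, inv_pow, Real.sq_sqrt hn0.le, ← Real.exp_nat_mul, ← div_eq_mul_inv]
      have e1 : ((2 : ℕ) : ℝ) * (-(u - Real.log n) ^ 2 / 2) = -(u - Real.log n) ^ 2 := by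
        push_cast; ring
      rw [e1]
    rw [Finset.sum_congr rfl h4]
    exact (Va_summable ha u).sum_le_tsum _ fun n _ => Va_term_nonneg a u n
  have hPc : Continuous (fun t => ∑ n ∈ Finset.Icc 1 X, pterm a u t n) := by
    unfold pterm; fun_prop
  have hPPc := PPr_cont hr ha u
  calc ∫ t in T1..T2, ‖PP a u t‖ ^ 2 ≤
      ∫ t in T1..T2, ((1 + η) * ‖∑ n ∈ Finset.Icc 1 X, b n * (n : ℂ) ^ (-(t : ℂ) * I)‖ ^ 2 +
        (1 + 1 / η) * E ^ 2) := by
        refine intervalIntegral.integral_mono_on hT ?_ ?_ fun t _ => ?_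
        · exact (hPPc.norm.pow 2).intervalIntegrable _ _
        · simp_rw [← h1]
          exact ((continuous_const.mul (hPc.norm.pow 2)).add continuous_const).intervalIntegrable _ _
        · rw [← h1]
          have h5 := sq_young (x := ∑ n ∈ Finset.Icc 1 X, pterm a u t n)
            (y := PP a u t - ∑ n ∈ Finset.Icc 1 X, pterm a u t n) hη
          rw [add_sub_cancel] at h5
          refine h5.trans ?_
          have h6 := PPr_trunc hr ha u t D X hD hX
          gcongr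
    _ = (1 + η) * (∫ t in T1..T2, ‖∑ n ∈ Finset.Icc 1 X, b n * (n : ℂ) ^ (-(t : ℂ) * I)‖ ^ 2) +
        (1 + 1 / η) * ((T2 - T1) * E ^ 2) := by
        rw [intervalIntegral.integral_add, intervalIntegral.integral_const_mul,
          intervalIntegral.integral_const, smul_eq_mul]
        · ring
        · simp_rw [← h1]
          exact (continuous_const.mul (hPc.norm.pow 2)).intervalIntegrable _ _
        · exact continuous_const.intervalIntegrable _ _
    _ ≤ _ := by
        have hcoef : 0 ≤ T2 - T1 + 8 * X * (1 + Real.log X) := by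
          have : 0 ≤ Real.log X := Real.log_natCast_nonneg X
          have : 0 ≤ T2 - T1 := by linarith
          positivity
        gcongr
        exact h2.trans (by gcongr)

end

end MS1N

open MS1N

theorem ms1 : S_MS1 := by
  intro r hr a ha ε η C hε hε1 hη hC
  have hr0 : 0 < r := by linarith
  set S := ∑' n : ℕ, 1 / (n : ℝ) ^ 2 with hS
  have hS0 : 0 < S := sum_inv_sq.tsum_pos (fun n => by positivity) 1 (by norm_num)
  -- eventual facts
  have ev1 : ∀ᶠ T : ℝ in atTop, 8 * T ^ (1 - ε / 2) * (1 + Real.log T) ≤ η * T := by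
    have h1 : (fun T : ℝ => 1 + Real.log T) =o[atTop] fun T : ℝ => T ^ (ε / 2) := by
      have h2 : (fun _ : ℝ => (1 : ℝ)) =o[atTop] fun T : ℝ => T ^ (ε / 2) := by
        rw [Asymptotics.isLittleO_const_left]
        right
        exact tendsto_norm_atTop_atTop.comp (tendsto_rpow_atTop (by positivity))
      exact h2.add (isLittleO_log_rpow_atTop (by positivity))
    have h3 := h1.bound (show 0 < η / 8 by positivity)
    filter_upwards [h3, eventually_ge_atTop 1] with T hT hT1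
    have hT0 : (0 : ℝ) < T := by linarith
    have hl : 0 ≤ Real.log T := Real.log_nonneg hT1
    rw [Real.norm_of_nonneg (by positivity), Real.norm_of_nonneg (by positivity)] at hT
    calc 8 * T ^ (1 - ε / 2) * (1 + Real.log T) ≤ 8 * T ^ (1 - ε / 2) * (η / 8 * T ^ (ε / 2)) := by
          gcongr
      _ = η * (T ^ (1 - ε / 2) * T ^ (ε / 2)) := by ring
      _ = η * T := by
          rw [← Real.rpow_add hT0]; norm_num
  have ev2 : ∀ᶠ T : ℝ in atTop, r * (2 * S * (Real.exp (4 + 2 * Real.log T) *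
      Real.exp (-(ε / 2 * Real.log T) ^ 2 / 4))) ≤ 1 := by
    have h1 : ∀ᶠ L : ℝ in atTop, Real.log (r * (2 * S)) + 4 + 2 * L - (ε / 2 * L) ^ 2 / 4 ≤ 0 := by
      have h2 : ∀ᶠ L : ℝ in atTop, 3 * 16 / ε ^ 2 ≤ L := eventually_ge_atTop _
      have h3 : ∀ᶠ L : ℝ in atTop, Real.log (r * (2 * S)) + 4 ≤ L := eventually_ge_atTop _
      filter_upwards [h2, h3, eventually_ge_atTop 0] with L h2 h3 h4
      have h5 : 3 * L ≤ (ε / 2 * L) ^ 2 / 4 := by
        rw [div_le_iff₀ (by positivity)] at h2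
        nlinarith
      linarith
    filter_upwards [Real.tendsto_log_atTop.eventually h1] with T hT
    have h6 : r * (2 * S) = Real.exp (Real.log (r * (2 * S))) := (Real.exp_log (by positivity)).symm
    rw [← mul_assoc r, h6, ← Real.exp_add, ← Real.exp_add]
    apply Real.exp_le_one_iff.mpr
    linarith
  have ev4 : ∀ᶠ T : ℝ in atTop, 2 * Real.log T ≤ T := by
    have h1 := Real.isLittleO_log_id_atTop.bound (show (0 : ℝ) < 1 / 2 by norm_num)
    filter_upwards [h1, eventually_ge_atTop 1] with T hT hT1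
    have hl : 0 ≤ Real.log T := Real.log_nonneg hT1
    rw [Real.norm_of_nonneg hl, id, Real.norm_of_nonneg (by linarith)] at hT
    linarith
  obtain ⟨T2, hT2⟩ := ((ev1.and ev2).and ev4).exists_forall_of_atTop
  set CP := 2 * S with hCP
  refine ⟨r ^ 2 * (2 * CP * Real.exp 2),
    (1 + η) / (2 * Real.pi) * (1 + 1 / η) + (1 + 1 / η) * C ^ 2,
    max 10 T2, by positivity, by positivity, le_max_left _ _, fun T hT u hu hu1 A hA hmain => ?_⟩
  obtain ⟨⟨e1, e2⟩, e4⟩ := hT2 T ((le_max_right _ _).trans hT)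
  have hT10 : 10 ≤ T := (le_max_left _ _).trans hT
  have hTpos : 0 < T := by linarith
  set L := Real.log T with hL
  have hL1 : 1 ≤ L := by
    rw [hL, Real.le_log_iff_exp_le hTpos]
    have := Real.exp_one_lt_d9
    linarith
  have huL : u ≤ L := by nlinarith
  have hab : T + L ≤ 2 * T - L := by linarith
  have hlen : 2 * T - L - (T + L) ≤ T := by linarith
  have hlen0 : 0 ≤ 2 * T - L - (T + L) := by linarith
  -- inner pointwise
  set c0 : ℝ := 1 / Real.sqrt (2 * Real.pi) with hc0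
  have hc02 : c0 ^ 2 = 1 / (2 * Real.pi) := by
    rw [hc0, div_pow, one_pow, Real.sq_sqrt (by positivity)]
  have hpt : ∀ t ∈ Set.Icc (T + L) (2 * T - L), ‖A t‖ ^ 2 ≤
      (1 + η) / (2 * Real.pi) * (r ^ 2 * L ^ 2 * Real.exp (-u ^ 2) +
        r ^ 2 * (2 * CP * Real.exp 2) * L * Real.exp (2 * u - u ^ 2 / 2) + ‖PP a u t‖ ^ 2) +
        (1 + 1 / η) * C ^ 2 := by
    intro t ht
    have h1 := hmain t ht.1 ht.2
    set M : ℂ := (c0 : ℂ) * (r * L * cexp (I * u * t) * Real.exp (-u ^ 2 / 2) - PP a u t) with hM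
    have h2 := sq_young (x := M) (y := A t - M) hη
    rw [add_sub_cancel] at h2
    have h3 : ‖A t - M‖ ^ 2 ≤ C ^ 2 := by
      have h4 : ‖A t - M‖ ≤ C := h1
      gcongr
    have h5 : ‖M‖ ≤ c0 * (r * L * Real.exp (-u ^ 2 / 2) + ‖PP a u t‖) := by
      rw [hM, norm_mul, Complex.norm_real, Real.norm_of_nonneg (by positivity)]
      gcongr
      refine (norm_sub_le _ _).trans ?_
      gcongr
      rw [norm_mul, norm_mul, norm_mul, Complex.norm_real, Complex.norm_real, Complex.norm_real,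
        Real.norm_of_nonneg hr0.le,
        Real.norm_of_nonneg (by linarith : (0 : ℝ) ≤ L), Real.norm_of_nonneg (Real.exp_pos _).le,
        show (I * u * t : ℂ) = ((u * t : ℝ) : ℂ) * I by push_cast; ring,
        Complex.norm_exp_ofReal_mul_I, mul_one]
    have h6 : ‖M‖ ^ 2 ≤ 1 / (2 * Real.pi) * (r ^ 2 * L ^ 2 * Real.exp (-u ^ 2) +
        r ^ 2 * (2 * CP * Real.exp 2) * L * Real.exp (2 * u - u ^ 2 / 2) + ‖PP a u t‖ ^ 2) := by
      have hPPb := PPr_bound hr ha u t
      calc ‖M‖ ^ 2 ≤ (c0 * (r * L * Real.exp (-u ^ 2 / 2) + ‖PP a u t‖)) ^ 2 := by gcongr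
        _ = 1 / (2 * Real.pi) * (r ^ 2 * L ^ 2 * (Real.exp (-u ^ 2 / 2)) ^ 2 +
            2 * r * L * Real.exp (-u ^ 2 / 2) * ‖PP a u t‖ + ‖PP a u t‖ ^ 2) := by
            rw [mul_pow, hc02]; ring
        _ ≤ 1 / (2 * Real.pi) * (r ^ 2 * L ^ 2 * (Real.exp (-u ^ 2 / 2)) ^ 2 +
            2 * r * L * Real.exp (-u ^ 2 / 2) * (r * (2 * S * Real.exp (2 + 2 * u))) +
              ‖PP a u t‖ ^ 2) := by
            gcongr
        _ = _ := by
            have e5 : (Real.exp (-u ^ 2 / 2)) ^ 2 = Real.exp (-u ^ 2) := by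
              rw [← Real.exp_nat_mul]; congr 1; push_cast; ring
            have e6 : Real.exp (-u ^ 2 / 2) * Real.exp (2 + 2 * u) =
                Real.exp 2 * Real.exp (2 * u - u ^ 2 / 2) := by
              rw [← Real.exp_add, ← Real.exp_add]; congr 1; ring
            rw [e5, hCP]
            linear_combination (1 / (2 * Real.pi)) * (2 * r ^ 2 * L * (2 * S)) * e6
    calc ‖A t‖ ^ 2 ≤ (1 + η) * ‖M‖ ^ 2 +
        (1 + 1 / η) * ‖A t - M‖ ^ 2 := h2
      _ ≤ (1 + η) * (1 / (2 * Real.pi) * (r ^ 2 * L ^ 2 * Real.exp (-u ^ 2) +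
        r ^ 2 * (2 * CP * Real.exp 2) * L * Real.exp (2 * u - u ^ 2 / 2) + ‖PP a u t‖ ^ 2)) +
        (1 + 1 / η) * C ^ 2 := by gcongr
      _ = _ := by ring
  have hPPc := PPr_cont hr ha u
  -- mean square of PP
  set X : ℕ := ⌊T ^ (1 - ε / 2)⌋₊ with hX
  have hXle : (X : ℝ) ≤ T ^ (1 - ε / 2) := Nat.floor_le (by positivity)
  have hXlog : u + ε / 2 * L ≤ Real.log (X + 1) := by
    have h1 : T ^ (1 - ε / 2) < X + 1 := Nat.lt_floor_add_one _
    have h2 : Real.log (T ^ (1 - ε / 2)) ≤ Real.log (X + 1) :=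
      Real.log_le_log (by positivity) h1.le
    rw [Real.log_rpow hTpos] at h2
    linarith
  have hms := PPr_ms hr ha u (ε / 2 * L) (T + L) (2 * T - L) η X hη hab (by positivity) hXlog
  have hms2 : ∫ t in (T + L)..(2 * T - L), ‖PP a u t‖ ^ 2 ≤
      (1 + η) ^ 2 * T * Va a u + (1 + 1 / η) * T := by
    refine hms.trans ?_
    have hV := Va_nonneg a u
    have h1 : 8 * (X : ℝ) * (1 + Real.log X) ≤ η * T := by
      have h2 : Real.log X ≤ L := by
        rcases Nat.eq_zero_or_pos X with h0 | h0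
        · rw [h0]; simp; linarith
        · apply Real.log_le_log (by exact_mod_cast h0)
          refine hXle.trans ?_
          calc T ^ (1 - ε / 2) ≤ T ^ (1 : ℝ) := Real.rpow_le_rpow_of_exponent_le (by linarith)
                (by linarith)
            _ = T := Real.rpow_one T
      have h3 : 0 ≤ Real.log X := Real.log_natCast_nonneg X
      calc 8 * (X : ℝ) * (1 + Real.log X) ≤ 8 * T ^ (1 - ε / 2) * (1 + L) := by gcongr
        _ ≤ _ := e1
    have h4 : r * (2 * S * (Real.exp (4 + 2 * u) * Real.exp (-(ε / 2 * L) ^ 2 / 4))) ≤ 1 := by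
      refine le_trans ?_ e2
      gcongr
    have h5 : 0 ≤ r * (2 * S * (Real.exp (4 + 2 * u) * Real.exp (-(ε / 2 * L) ^ 2 / 4))) := by
      positivity
    have h6 : (r * (2 * S * (Real.exp (4 + 2 * u) *
        Real.exp (-(ε / 2 * L) ^ 2 / 4)))) ^ 2 ≤ 1 := by
      exact pow_le_one₀ h5 h4
    have h7 : 2 * T - L - (T + L) + 8 * X * (1 + Real.log X) ≤ (1 + η) * T := by
      linarith
    calc (1 + η) * ((2 * T - L - (T + L) + 8 * X * (1 + Real.log X)) * Va a u) +
        (1 + 1 / η) * ((2 * T - L - (T + L)) *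
          (r * (2 * S * (Real.exp (4 + 2 * u) * Real.exp (-(ε / 2 * L) ^ 2 / 4)))) ^ 2) ≤
        (1 + η) * (((1 + η) * T) * Va a u) + (1 + 1 / η) * (T * 1) := by
          gcongr
      _ = _ := by ring
  -- inner integral
  calc ∫ t in (T + L)..(2 * T - L), ‖A t‖ ^ 2 ≤
        ∫ t in (T + L)..(2 * T - L), ((1 + η) / (2 * Real.pi) *
        (r ^ 2 * L ^ 2 * Real.exp (-u ^ 2) +
        r ^ 2 * (2 * CP * Real.exp 2) * L * Real.exp (2 * u - u ^ 2 / 2) + ‖PP a u t‖ ^ 2) +
        (1 + 1 / η) * C ^ 2) := by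
          refine intervalIntegral.integral_mono_on hab ?_ ?_ hpt
          · exact (hA.norm.pow 2).intervalIntegrable _ _
          · exact ((continuous_const.mul (continuous_const.add (hPPc.norm.pow 2))).add
              continuous_const).intervalIntegrable _ _
      _ = (1 + η) / (2 * Real.pi) * ((2 * T - L - (T + L)) * (r ^ 2 * L ^ 2 * Real.exp (-u ^ 2) +
          r ^ 2 * (2 * CP * Real.exp 2) * L * Real.exp (2 * u - u ^ 2 / 2)) +
          ∫ t in (T + L)..(2 * T - L), ‖PP a u t‖ ^ 2) +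
          (2 * T - L - (T + L)) * ((1 + 1 / η) * C ^ 2) := by
          rw [intervalIntegral.integral_add, intervalIntegral.integral_const_mul,
            intervalIntegral.integral_add, intervalIntegral.integral_const,
            intervalIntegral.integral_const, smul_eq_mul, smul_eq_mul]
          · exact continuous_const.intervalIntegrable _ _
          · exact (hPPc.norm.pow 2).intervalIntegrable _ _
          · exact (continuous_const.mul (continuous_const.add (hPPc.norm.pow 2))).intervalIntegrable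
              _ _
          · exact continuous_const.intervalIntegrable _ _
      _ ≤ (1 + η) / (2 * Real.pi) * (T * (r ^ 2 * L ^ 2 * Real.exp (-u ^ 2) +
          r ^ 2 * (2 * CP * Real.exp 2) * L * Real.exp (2 * u - u ^ 2 / 2)) +
          ((1 + η) ^ 2 * T * Va a u + (1 + 1 / η) * T)) + T * ((1 + 1 / η) * C ^ 2) := by
          gcongr
      _ = _ := by ring

end H479.Y
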