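import Pool.Agent.H479.Y.Stm

/-! # mean square beyond (proved by helper30) -/


set_option autoImplicit false

open MeasureTheory Complex Filter Topology
open scoped ComplexConjugate

namespace H479.Y

open H370 H479.U

namespace MS2aux

theorem PP_smul (r : ℝ) (a : ℕ → ℂ) (u t : ℝ) :
    PP (fun n => (r : ℂ) * a n) u t = (r : ℂ) * PP a u t := by
  unfold PP
  rw [← tsum_mul_left]
  congr 1
  funext n
  ring

theorem PP_cont_r (r : ℝ) (hr : 1 ≤ r) (a : ℕ → ℂ)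
    (ha : ∀ n, ‖a n‖ ≤ r * ArithmeticFunction.vonMangoldt n) (u : ℝ) :
    Continuous (fun t => PP a u t) := by
  have hr0 : (0 : ℝ) < r := by linarith
  have hrc : (r : ℂ) ≠ 0 := by exact_mod_cast hr0.ne'
  have hb : ∀ n, ‖(r : ℂ)⁻¹ * a n‖ ≤ ArithmeticFunction.vonMangoldt n := by
    intro n
    rw [norm_mul, norm_inv, Complex.norm_real, Real.norm_of_nonneg hr0.le, inv_mul_le_iff₀ hr0]
    exact ha n
  have h1 := PP_cont (a := fun n => (r : ℂ)⁻¹ * a n) hb u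
  have h2 : (fun t => PP a u t) = fun t => (r : ℂ) * PP (fun n => (r : ℂ)⁻¹ * a n) u t := by
    funext t
    rw [← PP_smul]
    congr 1
    funext n
    rw [← mul_assoc, mul_inv_cancel₀ hrc, one_mul]
  rw [h2]
  exact continuous_const.mul h1

theorem small (r κ L u : ℝ) (hr : 1 ≤ r) (hκ : 0 < κ) (hL : 2 * r / κ ^ 2 ≤ L)
    (hu : κ * L ≤ u) : r * L * Real.exp (-u ^ 2 / 2) ≤ 1 := by
  have hr0 : (0 : ℝ) < r := by linarith
  have h0 : 0 < 2 * r / κ ^ 2 := by positivity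
  have hL0 : 0 < L := lt_of_lt_of_le h0 hL
  have h1 : κ ^ 2 * L ^ 2 ≤ u ^ 2 := by
    have : (κ * L) ^ 2 ≤ u ^ 2 := pow_le_pow_left₀ (by positivity) hu 2
    rwa [mul_pow] at this
  have h2 : κ ^ 2 * L ^ 2 / 2 + 1 ≤ Real.exp (κ ^ 2 * L ^ 2 / 2) := Real.add_one_le_exp _
  have h3 : Real.exp (κ ^ 2 * L ^ 2 / 2) ≤ Real.exp (u ^ 2 / 2) := by
    apply Real.exp_le_exp.2
    linarith
  have h4 : r * L ≤ κ ^ 2 * L ^ 2 / 2 := by
    rw [div_le_iff₀ (by positivity)] at hL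
    nlinarith
  have h5 : r * L ≤ Real.exp (u ^ 2 / 2) := by linarith
  have h6 : Real.exp (-u ^ 2 / 2) = (Real.exp (u ^ 2 / 2))⁻¹ := by
    rw [← Real.exp_neg]
    congr 1
    ring
  rw [h6, ← div_eq_mul_inv, div_le_one (Real.exp_pos _)]
  exact h5

theorem log_half (T : ℝ) (hT : 0 < T) : 2 * Real.log T ≤ T := by
  have h1 : 0 < Real.sqrt T := Real.sqrt_pos.2 hT
  have h2 := Real.log_le_sub_one_of_pos h1
  rw [Real.log_sqrt hT.le] at h2
  have h3 : Real.sqrt T ^ 2 = T := Real.sq_sqrt hT.le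
  nlinarith [sq_nonneg (Real.sqrt T - 2)]

theorem pt_bound (r L u t η C : ℝ) (hη : 0 < η) (hL : 0 ≤ L) (hr : 1 ≤ r)
    (hs : r * L * Real.exp (-u ^ 2 / 2) ≤ 1) (x p : ℂ)
    (h : ‖x - (1 / Real.sqrt (2 * Real.pi) : ℝ) *
        (r * L * cexp (I * u * t) * Real.exp (-u ^ 2 / 2) - p)‖ ≤ C) :
    ‖x‖ ^ 2 ≤ (1 + η) / (2 * Real.pi) * ‖p‖ ^ 2 + (1 + 1 / η) * (1 + C) ^ 2 := by
  obtain ⟨b, hb⟩ : ∃ b : ℝ, b = 1 / Real.sqrt (2 * Real.pi) := ⟨_, rfl⟩
  rw [← hb] at h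
  have hpi : 1 ≤ 2 * Real.pi := by linarith [Real.pi_gt_three]
  have hsq1 : 1 ≤ Real.sqrt (2 * Real.pi) := by
    rw [Real.one_le_sqrt]
    exact hpi
  have hb0 : 0 < b := by rw [hb]; positivity
  have hb1 : b ≤ 1 := by
    rw [hb, div_le_one (by positivity)]
    exact hsq1
  have hb2 : b ^ 2 = 1 / (2 * Real.pi) := by
    rw [hb, div_pow, one_pow, Real.sq_sqrt (by positivity)]
  obtain ⟨m, hm⟩ : ∃ m : ℂ, m = r * L * cexp (I * u * t) * Real.exp (-u ^ 2 / 2) := ⟨_, rfl⟩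
  rw [← hm] at h
  have hmn : ‖m‖ ≤ 1 := by
    rw [hm, norm_mul, norm_mul, norm_mul, Complex.norm_real, Complex.norm_real, Complex.norm_real]
    have e1 : ‖cexp (I * u * t)‖ = 1 := by
      rw [show (I * u * t : ℂ) = ((u * t : ℝ) : ℂ) * I by push_cast; ring,
        Complex.norm_exp_ofReal_mul_I]
    rw [e1, mul_one, Real.norm_of_nonneg (by linarith), Real.norm_of_nonneg hL,
      Real.norm_of_nonneg (Real.exp_pos _).le]
    exact hs
  have hx : x = (-(b : ℂ) * p) + ((x - (b : ℂ) * (m - p)) + (b : ℂ) * m) := by ring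
  have hR : ‖(x - (b : ℂ) * (m - p)) + (b : ℂ) * m‖ ≤ 1 + C := by
    have e2 : ‖(b : ℂ) * m‖ ≤ 1 := by
      rw [norm_mul, Complex.norm_real, Real.norm_of_nonneg hb0.le]
      calc b * ‖m‖ ≤ 1 * 1 := mul_le_mul hb1 hmn (norm_nonneg _) zero_le_one
        _ = 1 := one_mul 1
    have e3 := norm_add_le (x - (b : ℂ) * (m - p)) ((b : ℂ) * m)
    linarith
  have hP : ‖-(b : ℂ) * p‖ ^ 2 = 1 / (2 * Real.pi) * ‖p‖ ^ 2 := by
    rw [norm_mul, norm_neg, Complex.norm_real, Real.norm_of_nonneg hb0.le, mul_pow, hb2]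
  have hY := sq_young (x := -(b : ℂ) * p) (y := (x - (b : ℂ) * (m - p)) + (b : ℂ) * m) hη
  rw [← hx, hP] at hY
  have hR2 : ‖(x - (b : ℂ) * (m - p)) + (b : ℂ) * m‖ ^ 2 ≤ (1 + C) ^ 2 :=
    pow_le_pow_left₀ (norm_nonneg _) hR 2
  have hη1 : 0 < 1 + 1 / η := by positivity
  have h7 := mul_le_mul_of_nonneg_left hR2 hη1.le
  have h8 : (1 + η) * (1 / (2 * Real.pi) * ‖p‖ ^ 2) = (1 + η) / (2 * Real.pi) * ‖p‖ ^ 2 := by
    ring
  rw [h8] at hY
  linarith

end MS2aux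

theorem ms2 : S_MS2 := by
  intro r hr a ha κ η C hκ hη hC
  refine ⟨(1 + 1 / η) * (1 + C) ^ 2, max 10 (Real.exp (2 * r / κ ^ 2)), by positivity,
    le_max_left _ _, ?_⟩
  intro T hT u hu A hA hAb
  have hT10 : 10 ≤ T := le_trans (le_max_left _ _) hT
  have hTe : Real.exp (2 * r / κ ^ 2) ≤ T := le_trans (le_max_right _ _) hT
  have hT0 : 0 < T := by linarith
  have hL : 2 * r / κ ^ 2 ≤ Real.log T := (Real.le_log_iff_exp_le hT0).2 hTe
  have hr0 : (0 : ℝ) < r := by linarith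
  have hL0 : 0 < Real.log T := lt_of_lt_of_le (by positivity) hL
  have hs := MS2aux.small r κ (Real.log T) u hr hκ hL hu
  have h2L := MS2aux.log_half T hT0
  have hPP := MS2aux.PP_cont_r r hr a ha u
  have hPP2 : Continuous (fun t => ‖PP a u t‖ ^ 2) := by fun_prop
  have hle : T + Real.log T ≤ 2 * T - Real.log T := by linarith
  have hpt : ∀ t ∈ Set.Icc (T + Real.log T) (2 * T - Real.log T), ‖A t‖ ^ 2 ≤
      (1 + η) / (2 * Real.pi) * ‖PP a u t‖ ^ 2 + (1 + 1 / η) * (1 + C) ^ 2 := by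
    intro t ht
    have h1 := hAb t ht.1 ht.2
    exact MS2aux.pt_bound r (Real.log T) u t η C hη hL0.le hr hs (A t) (PP a u t) h1
  have c1 : Continuous fun t => ‖A t‖ ^ 2 := by fun_prop
  have c2 : Continuous fun t => (1 + η) / (2 * Real.pi) * ‖PP a u t‖ ^ 2 := by fun_prop
  have c3 : Continuous fun t => (1 + η) / (2 * Real.pi) * ‖PP a u t‖ ^ 2 +
      (1 + 1 / η) * (1 + C) ^ 2 := by fun_prop
  have i1 : IntervalIntegrable (fun t => ‖A t‖ ^ 2) volume (T + Real.log T)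
      (2 * T - Real.log T) := c1.intervalIntegrable _ _
  have i2 : IntervalIntegrable (fun t => (1 + η) / (2 * Real.pi) * ‖PP a u t‖ ^ 2) volume
      (T + Real.log T) (2 * T - Real.log T) := c2.intervalIntegrable _ _
  have i3 : IntervalIntegrable (fun t => (1 + η) / (2 * Real.pi) * ‖PP a u t‖ ^ 2 +
      (1 + 1 / η) * (1 + C) ^ 2) volume
      (T + Real.log T) (2 * T - Real.log T) := c3.intervalIntegrable _ _
  have i4 : IntervalIntegrable (fun _ : ℝ => (1 + 1 / η) * (1 + C) ^ 2) volume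
      (T + Real.log T) (2 * T - Real.log T) := continuous_const.intervalIntegrable _ _
  have hmono := intervalIntegral.integral_mono_on hle i1 i3 hpt
  rw [intervalIntegral.integral_add i2 i4, intervalIntegral.integral_const_mul,
    intervalIntegral.integral_const, smul_eq_mul] at hmono
  have hbig : ∫ t in (T + Real.log T)..(2 * T - Real.log T), ‖PP a u t‖ ^ 2 ≤
      ∫ t in T..(2 * T), ‖PP a u t‖ ^ 2 := by
    apply intervalIntegral.integral_mono_interval (by linarith) hle (by linarith)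
    · exact Filter.Eventually.of_forall fun t => by positivity
    · exact hPP2.intervalIntegrable _ _
  have hc : 0 ≤ (1 + η) / (2 * Real.pi) := by positivity
  have h3 := mul_le_mul_of_nonneg_left hbig hc
  have hK : 0 ≤ (1 + 1 / η) * (1 + C) ^ 2 := by positivity
  have h4 : (2 * T - Real.log T - (T + Real.log T)) * ((1 + 1 / η) * (1 + C) ^ 2) ≤
      (1 + 1 / η) * (1 + C) ^ 2 * T := by
    nlinarith
  linarith

end H479.Y
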