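import Pool.Agent.H479.Y.Stm

/-! # two space variables (proved by helper30) -/


set_option autoImplicit false

open MeasureTheory Complex Filter Topology
open scoped ComplexConjugate

namespace H479.Y

open H370 H479.U

namespace WWFaux

variable {w : ℝ → ℝ}

theorem swapInt (hw : Win w) (f : ℝ → ℝ) (hf : Continuous f) :
    Integrable (fun p : ℝ × ℝ => w p.1 * w (p.1 - p.2) * f p.2)
      ((volume : Measure ℝ).prod (volume : Measure ℝ)) := by
  obtain ⟨M, hM⟩ := hw.bdd
  have h1 : Integrable ((Set.Icc (-1 : ℝ) 1).indicator f) := by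
    rw [integrable_indicator_iff measurableSet_Icc]
    exact hf.continuousOn.integrableOn_Icc
  have h2 : Integrable (fun p : ℝ × ℝ => w p.1 * (Set.Icc (-1 : ℝ) 1).indicator f p.2)
      ((volume : Measure ℝ).prod (volume : Measure ℝ)) := hw.int.mul_prod h1
  have h3 : Integrable (fun p : ℝ × ℝ =>
      w (p.1 - p.2) * (w p.1 * (Set.Icc (-1 : ℝ) 1).indicator f p.2))
      ((volume : Measure ℝ).prod (volume : Measure ℝ)) := by
    refine h2.bdd_mul (c := M) ?_ ?_
    · exact (hw.meas.comp (measurable_fst.sub measurable_snd)).aestronglyMeasurable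
    · refine Filter.Eventually.of_forall fun p => ?_
      rw [Real.norm_of_nonneg (hw.nonneg _)]
      exact hM _
  refine h3.congr (Filter.Eventually.of_forall fun p => ?_)
  show w (p.1 - p.2) * (w p.1 * (Set.Icc (-1 : ℝ) 1).indicator f p.2) =
    w p.1 * w (p.1 - p.2) * f p.2
  by_cases hp : p.2 ∈ Set.Icc (-1 : ℝ) 1
  · rw [Set.indicator_of_mem hp]
    ring
  · rw [Set.indicator_of_notMem hp]
    have h4 : w p.1 * w (p.1 - p.2) = 0 := by
      by_contra hne
      have h5 : w p.1 ≠ 0 := left_ne_zero_of_mul hne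
      have h6 : w (p.1 - p.2) ≠ 0 := right_ne_zero_of_mul hne
      have h7 : |p.1| ≤ 1 / 2 := by
        by_contra hc
        exact h5 (hw.supp _ (not_le.1 hc))
      have h8 : |p.1 - p.2| ≤ 1 / 2 := by
        by_contra hc
        exact h6 (hw.supp _ (not_le.1 hc))
      apply hp
      rw [abs_le] at h7 h8
      constructor <;> linarith [h7.1, h7.2, h8.1, h8.2]
    rw [h4]
    ring

theorem whole (hw : Win w) (f : ℝ → ℝ) (hf : Continuous f) :
    ∫ x, w x * ∫ x', w x' * f (x - x') = ∫ a : ℝ, WW w a * f a := by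
  have h1 : ∀ x : ℝ, w x * ∫ x', w x' * f (x - x') = ∫ a, w x * w (x - a) * f a := by
    intro x
    have h2 : ∫ x', w x' * f (x - x') = ∫ a, w (x - a) * f a := by
      have h3 := integral_sub_left_eq_self (fun a : ℝ => w (x - a) * f a) volume x
      rw [← h3]
      congr 1
      funext y
      rw [sub_sub_cancel]
    rw [h2, ← integral_const_mul]
    congr 1
    funext a
    ring
  simp_rw [h1]
  rw [integral_integral_swap (f := fun x a : ℝ => w x * w (x - a) * f a) (swapInt hw f hf)]
  congr 1
  funext a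
  rw [integral_mul_const]
  congr 1
  unfold WW
  congr 1
  funext t
  rw [← hw.even (t - a), neg_sub]

theorem half (hw : Win w) (f : ℝ → ℝ) (hev : ∀ x, f (-x) = f x) :
    ∫ a : ℝ, WW w a * f a = 2 * ∫ a in (0 : ℝ)..1, WW w a * f a := by
  have h1 : ∫ a : ℝ, WW w a * f a = ∫ a : ℝ, WW w |a| * f |a| := by
    congr 1
    funext a
    rcases abs_cases a with h | h
    · rw [h.1]
    · rw [h.1, WW_even hw, hev]
  rw [h1, integral_comp_abs (f := fun a => WW w a * f a),
    intervalIntegral.integral_of_le zero_le_one]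
  congr 1
  apply setIntegral_eq_of_subset_of_forall_sdiff_eq_zero measurableSet_Ioi
  · intro x hx
    exact hx.1
  · intro x hx
    have h2 : 1 < x := by
      by_contra h
      push Not at h
      exact hx.2 ⟨hx.1, h⟩
    rw [WW_supp hw x (by rw [abs_of_pos (by linarith)]; exact h2), zero_mul]

end WWFaux

theorem wwf : S_WWF := by
  intro w hw f hf hev
  rw [WWFaux.whole hw f hf, WWFaux.half hw f hev]

end H479.Y
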