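import Pool.Agent.H479.Y.Stm

/-!
# The zero side: a local trace inequality
-/

open Complex Filter Topology Set MeasureTheory
open scoped ComplexConjugate

namespace H479.Y

open H370 H479.U

section count

variable {Z : Finset ℂ} {m : ℂ → ℕ}

lemma counts (hS : Sys Z m) :
    ((Z1 Z m).card : ℝ) + 2 * ((Z2 Z m).card : ℝ) + 2 * ((Z3 Z).card : ℝ) ≤ NZ Z m ∧
    (Z.card : ℝ) = ((Z1 Z m).card : ℝ) + ((Z2 Z m).card : ℝ) + 2 * ((Z3 Z).card : ℝ) := by
  classical
  have hB : (Z.filter (fun s => s.re < 1 / 2)).card = (Z3 Z).card := by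
    unfold Z3
    refine Finset.card_bij' (fun s _ => 1 - conj s) (fun s _ => 1 - conj s) ?_ ?_ ?_ ?_
    · intro s hs
      rw [Finset.mem_filter] at hs ⊢
      refine ⟨hS.refl s hs.1, ?_⟩
      simp only [Complex.sub_re, Complex.one_re, Complex.conj_re]
      linarith [hs.2]
    · intro s hs
      rw [Finset.mem_filter] at hs ⊢
      refine ⟨hS.refl s hs.1, ?_⟩
      simp only [Complex.sub_re, Complex.one_re, Complex.conj_re]
      linarith [hs.2]
    · intro s _; simp
    · intro s _; simp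
  have hb1 : ∑ s ∈ Z, (if s.re = 1 / 2 ∧ m s = 1 then (1 : ℝ) else 0) = ((Z1 Z m).card : ℝ) := by
    unfold Z1
    rw [Finset.sum_boole]
  have hb2 : ∑ s ∈ Z, (if s.re = 1 / 2 ∧ 2 ≤ m s then (1 : ℝ) else 0) = ((Z2 Z m).card : ℝ) := by
    unfold Z2
    rw [Finset.sum_boole]
  have hb3 : ∑ s ∈ Z, (if 1 / 2 < s.re then (1 : ℝ) else 0) = ((Z3 Z).card : ℝ) := by
    unfold Z3
    rw [Finset.sum_boole]
  have hb4 : ∑ s ∈ Z, (if s.re < 1 / 2 then (1 : ℝ) else 0) = ((Z3 Z).card : ℝ) := by
    rw [Finset.sum_boole, hB]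
  constructor
  · have h : ∑ s ∈ Z, ((if s.re = 1 / 2 ∧ m s = 1 then (1 : ℝ) else 0) +
        2 * (if s.re = 1 / 2 ∧ 2 ≤ m s then (1 : ℝ) else 0) + (if 1 / 2 < s.re then (1 : ℝ) else 0) +
        (if s.re < 1 / 2 then (1 : ℝ) else 0)) ≤ ∑ s ∈ Z, (m s : ℝ) := by
      refine Finset.sum_le_sum fun s hs => ?_
      have h1 : (1 : ℝ) ≤ m s := by exact_mod_cast hS.pos s hs
      rcases lt_trichotomy s.re (1 / 2) with h | h | h
      · have h' : ¬ (1 / 2 < s.re) := by linarith
        simp only [h, h.ne, h', false_and, if_false, if_true]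
        linarith
      · have h' : ¬ (1 / 2 < s.re) := by linarith
        have h'' : ¬ (s.re < 1 / 2) := by linarith
        by_cases h2 : m s = 1
        · have h3 : ¬ (2 ≤ m s) := by omega
          rw [if_pos ⟨h, h2⟩, if_neg (fun h4 => h3 h4.2), if_neg h', if_neg h'']
          linarith
        · have h3 : 2 ≤ m s := by have := hS.pos s hs; omega
          have h4 : (2 : ℝ) ≤ m s := by exact_mod_cast h3
          rw [if_neg (fun h5 => h2 h5.2), if_pos ⟨h, h3⟩, if_neg h', if_neg h'']
          linarith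
      · have h' : ¬ (s.re < 1 / 2) := by linarith
        have h'' : ¬ (s.re = 1 / 2) := by linarith
        simp only [h, h'', h', false_and, if_false, if_true]
        linarith
    rw [Finset.sum_add_distrib, Finset.sum_add_distrib, Finset.sum_add_distrib,
      ← Finset.mul_sum, hb1, hb2, hb3, hb4] at h
    unfold NZ
    linarith
  · have h : ∑ s ∈ Z, ((if s.re = 1 / 2 ∧ m s = 1 then (1 : ℝ) else 0) +
        (if s.re = 1 / 2 ∧ 2 ≤ m s then (1 : ℝ) else 0) + (if 1 / 2 < s.re then (1 : ℝ) else 0) +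
        (if s.re < 1 / 2 then (1 : ℝ) else 0)) = ∑ s ∈ Z, (1 : ℝ) := by
      refine Finset.sum_congr rfl fun s hs => ?_
      rcases lt_trichotomy s.re (1 / 2) with h | h | h
      · have h' : ¬ (1 / 2 < s.re) := by linarith
        simp only [h, h.ne, h', false_and, if_false, if_true]
        norm_num
      · have h' : ¬ (1 / 2 < s.re) := by linarith
        have h'' : ¬ (s.re < 1 / 2) := by linarith
        by_cases h2 : m s = 1
        · have h3 : ¬ (2 ≤ m s) := by omega
          rw [if_pos ⟨h, h2⟩, if_neg (fun h4 => h3 h4.2), if_neg h', if_neg h'']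
          norm_num
        · have h3 : 2 ≤ m s := by have := hS.pos s hs; omega
          rw [if_neg (fun h5 => h2 h5.2), if_pos ⟨h, h3⟩, if_neg h', if_neg h'']
          norm_num
      · have h' : ¬ (s.re < 1 / 2) := by linarith
        have h'' : ¬ (s.re = 1 / 2) := by linarith
        simp only [h, h'', h', false_and, if_false, if_true]
        norm_num
    rw [Finset.sum_add_distrib, Finset.sum_add_distrib, Finset.sum_add_distrib,
      hb1, hb2, hb3, hb4, Finset.sum_const, nsmul_eq_mul, mul_one] at h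
    linarith

end count

theorem zs (hL : S_LA) (hK : S_KER) (hE : S_EDG) : S_ZS := by
  obtain ⟨C, T0, hC, hT0, hE⟩ := hE
  refine ⟨C, max T0 30, hC, hT0.trans (le_max_left _ _), ?_⟩
  intro K hK0 T hT Z m hS hZ hcnt w hw lam
  have hT1 : T0 ≤ T := (le_max_left _ _).trans hT
  have hT2 : 30 ≤ T := (le_max_right _ _).trans hT
  have hle : T + Real.log T ≤ 2 * T - Real.log T := by
    have h1 := Real.log_le_sub_one_of_pos (show 0 < T / 4 by linarith)
    have h2 : Real.log T = Real.log (T / 4) + Real.log 4 := by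
      rw [← Real.log_mul (by linarith) (by norm_num)]; congr 1; ring
    have h3 : Real.log 4 ≤ 2 := by
      have : (4 : ℝ) = 2 ^ 2 := by norm_num
      rw [this, Real.log_pow]
      have := Real.log_two_lt_d9
      push_cast
      linarith
    linarith
  have h1 := hE K hK0 T hT1 Z m hS hZ hcnt
  obtain ⟨E, iE1, iE2, k, hk1, hk2⟩ := hK w hw _ _ hle lam
  have h2 := hL E k Z m hS
  have h3 := hk2 Z m hS
  simp only [hk1] at h2
  obtain ⟨h4, h5⟩ := counts hS
  have h6 : (0 : ℝ) ≤ ((Z1 Z m).card : ℝ) := Nat.cast_nonneg _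
  have h7 : (0 : ℝ) ≤ ((Z2 Z m).card : ℝ) := Nat.cast_nonneg _
  have h8 : (0 : ℝ) ≤ ((Z3 Z).card : ℝ) := Nat.cast_nonneg _
  constructor
  · linarith
  · linarith

end H479.Y
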