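import Pool.Agent.H479.Y.Chs
import Pool.Agent.H479.Y.Zs
import Pool.Agent.H479.Y.La
import Pool.Agent.H479.Y.Ker
import Pool.Agent.H479.Y.Gg
import Pool.Agent.H479.Y.Wwf
import Pool.Agent.H479.Y.Edg
import Pool.Agent.H479.Y.Ms1
import Pool.Agent.H479.Y.Ms2
import Pool.Agent.H479.Y.Dgs
import Pool.Agent.H479.U.Fin

/-!
# The main theorem for a set of characters
-/

open Complex Filter Topology Set MeasureTheory
open scoped ComplexConjugate

namespace H479.Y

open H370 H479.U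

/-- the value of the average on the conjectures -/
noncomputable def CC (w : ℝ → ℝ) (r b : ℝ) : ℝ :=
  (r * WW w 0 + 2 * ∫ α in (0 : ℝ)..b, WW w (α / b) * min α 1) / b

/-- the excess of the mean square -/
noncomputable def DD' (w : ℝ → ℝ) (r b k T : ℝ) (a : ℕ → ℂ) : ℝ :=
  2 / b * ∫ α in k..b, WW w (α / b) * (Mn a T α / r - min α 1)

lemma Mn_cont {r : ℝ} (hr : 0 ≤ r) {a : ℕ → ℂ}
    (ha : ∀ n, ‖a n‖ ≤ r * ArithmeticFunction.vonMangoldt n) (T : ℝ) : Continuous (Mn a T) := by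
  unfold Mn
  exact continuous_const.mul (((mc r hr a ha).2 T (2 * T)).comp (by fun_prop))

lemma CD_eq {w : ℝ → ℝ} (hw : Win w) {r b k T : ℝ} (hb : 0 < b) (hk0 : 0 ≤ k) (hk1 : k < 1)
    (hr : 0 < r) {a : ℕ → ℂ} (ha : ∀ n, ‖a n‖ ≤ r * ArithmeticFunction.vonMangoldt n) :
    CC w r b + DD' w r b k T a = r * WW w 0 / b + 2 / b * (∫ α in (0 : ℝ)..k, WW w (α / b) * α) +
      2 / b * ∫ α in k..b, WW w (α / b) * (Mn a T α / r) := by
  have hc := Mn_cont hr.le ha T
  have hmin : ∫ α in (0 : ℝ)..b, WW w (α / b) * min α 1 =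
      (∫ α in (0 : ℝ)..k, WW w (α / b) * α) + ∫ α in k..b, WW w (α / b) * min α 1 := by
    rw [← intervalIntegral.integral_add_adjacent_intervals
      (q_ii hw b 0 k hb _ (by fun_prop)) (q_ii hw b k b hb _ (by fun_prop))]
    congr 1
    apply intervalIntegral.integral_congr
    intro α hα
    rw [Set.uIcc_of_le hk0] at hα
    simp only
    rw [min_eq_left (by linarith [hα.2])]
  have hD : ∫ α in k..b, WW w (α / b) * (Mn a T α / r - min α 1) =
      (∫ α in k..b, WW w (α / b) * (Mn a T α / r)) - ∫ α in k..b, WW w (α / b) * min α 1 := by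
    rw [← intervalIntegral.integral_sub]
    · apply intervalIntegral.integral_congr
      intro α _
      simp only
      ring
    · exact q_ii hw b k b hb _ (hc.div_const r)
    · exact q_ii hw b k b hb _ (by fun_prop)
  unfold CC DD'
  rw [hmin, hD]
  field_simp
  ring

variable {q : ℕ} [NeZero q]

theorem main_S (hP : S_PS) (S : Finset (DirichletCharacter ℂ q)) (hS : S.Nonempty)
    {w : ℝ → ℝ} (hw : Win w) (b k ε : ℝ) (hb : 0 < b) (hk0 : 0 ≤ k) (hk1 : k < 1) (hkb : k ≤ b)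
    (hε : 0 < ε) : ∃ T0 : ℝ, 10 ≤ T0 ∧ ∀ T : ℝ, T0 ≤ T →
      (2 - CC w S.card b - DD' w S.card b k T (aS S) - ε) * NZ (ZS S T) (mS S) ≤
        ((Z1 (ZS S T) (mS S)).card : ℝ) ∧
      (3 - CC w S.card b - DD' w S.card b k T (aS S) - ε) * NZ (ZS S T) (mS S) ≤
        2 * ((ZS S T).card : ℝ) := by
  have hπ := Real.pi_pos
  obtain ⟨r, hr⟩ : ∃ r : ℝ, r = (S.card : ℝ) := ⟨_, rfl⟩
  have hr1 : 1 ≤ r := by
    rw [hr]
    exact_mod_cast hS.card_pos
  have hr0 : 0 < r := by linarith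
  have ha : ∀ n, ‖aS S n‖ ≤ r * ArithmeticFunction.vonMangoldt n := by
    rw [hr]; exact aS_le S
  -- the parameter
  obtain ⟨δ, hδ⟩ : ∃ δ : ℝ, δ = min ε 1 / 40 := ⟨_, rfl⟩
  have hδ0 : 0 < δ := by rw [hδ]; have := lt_min hε one_pos; positivity
  have hδ1 : δ ≤ 1 / 40 := by
    rw [hδ]; have := min_le_right ε 1; linarith
  have hδε : 40 * δ ≤ ε := by
    rw [hδ]; have := min_le_left ε 1; linarith
  obtain ⟨C1, T1, hC1, hT1, hef⟩ := ef_ZS S (max 1 b) (le_max_left _ _)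
  obtain ⟨K, T2, hK, hT2, hcnt⟩ := cnt_ZS S
  obtain ⟨C2, T3, hC2, hT3, hzs⟩ := zs la (ker gg wwf abs_) edg
  obtain ⟨T4, hT4, hps⟩ := hP r hr1 (aS S) ha (by rw [hr]; exact dgs q S hS) w hw b k δ C1 hb hk0
    hk1 hkb hδ0 hC1
  -- eventual facts
  have ev1 : ∀ᶠ T : ℝ in atTop, K * T ≤ δ * (r * (T * Real.log T / (2 * Real.pi))) := by
    have h1 : ∀ᶠ T : ℝ in atTop, K * (2 * Real.pi) / (δ * r) ≤ Real.log T :=
      Real.tendsto_log_atTop.eventually_ge_atTop _
    filter_upwards [h1, eventually_ge_atTop 1] with T h1 hT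
    rw [div_le_iff₀ (by positivity)] at h1
    have : δ * (r * (T * Real.log T / (2 * Real.pi))) = (Real.log T * (δ * r)) * T / (2 * Real.pi) := by
      ring
    rw [this, le_div_iff₀ (by positivity)]
    nlinarith
  have ev2 : ∀ᶠ T : ℝ in atTop, C2 * K * Real.log T ^ 2 ≤
      δ / 2 * (r * (T * Real.log T / (2 * Real.pi))) := by
    have h1 := Real.isLittleO_log_id_atTop.bound
      (show (0 : ℝ) < (δ / 2 * r) / (2 * Real.pi) / (C2 * K) by positivity)
    filter_upwards [h1, eventually_ge_atTop 1] with T h1 hT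
    have hl : 0 ≤ Real.log T := Real.log_nonneg hT
    rw [Real.norm_of_nonneg hl, id, Real.norm_of_nonneg (by linarith)] at h1
    rw [div_mul_eq_mul_div, le_div_iff₀ (by positivity)] at h1
    have h2 := mul_le_mul_of_nonneg_right h1 hl
    calc C2 * K * Real.log T ^ 2 = Real.log T * (C2 * K) * Real.log T := by ring
      _ ≤ _ := h2
      _ = _ := by ring
  obtain ⟨T5, hT5⟩ := (ev1.and ev2).exists_forall_of_atTop
  refine ⟨max (max (max T1 T2) (max T3 T4)) T5,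
    ((hT1.trans (le_max_left _ _)).trans (le_max_left _ _)).trans (le_max_left _ _),
    fun T hT => ?_⟩
  have hTT1 : T1 ≤ T := (((le_max_left _ _).trans (le_max_left _ _)).trans (le_max_left _ _)).trans hT
  have hTT2 : T2 ≤ T := (((le_max_right _ _).trans (le_max_left _ _)).trans (le_max_left _ _)).trans hT
  have hTT3 : T3 ≤ T := (((le_max_left _ _).trans (le_max_right _ _)).trans (le_max_left _ _)).trans hT
  have hTT4 : T4 ≤ T := (((le_max_right _ _).trans (le_max_right _ _)).trans (le_max_left _ _)).trans hT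
  obtain ⟨e1, e2⟩ := hT5 T ((le_max_right _ _).trans hT)
  have hT10 : 10 ≤ T := hT1.trans hTT1
  have h1T : 1 ≤ T := by linarith
  have hTpos : 0 < T := by linarith
  have hL : 0 < Real.log T := Real.log_pos (by linarith)
  obtain ⟨N, hN⟩ : ∃ N : ℝ, N = NZ (ZS S T) (mS S) := ⟨_, rfl⟩
  obtain ⟨X, hX⟩ : ∃ X : ℝ, X = T * Real.log T / (2 * Real.pi) := ⟨_, rfl⟩
  have hX0 : 0 < X := by rw [hX]; positivity
  obtain ⟨hc1, hc2⟩ := hcnt T hTT2
  rw [← hr, ← hN, ← hX] at hc2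
  rw [← hX] at e1 e2
  have hN1 : r * X ≤ (1 + 2 * δ) * N := by
    have h1 := (abs_le.1 hc2).1
    have h2 : (1 - δ) * (r * X) ≤ N := by linarith
    have h3 : 0 ≤ r * X := by positivity
    have h4 : (1 + 2 * δ) * ((1 - δ) * (r * X)) ≤ (1 + 2 * δ) * N :=
      mul_le_mul_of_nonneg_left h2 (by linarith)
    have h5 : r * X ≤ (1 + 2 * δ) * ((1 - δ) * (r * X)) := by
      have h6 : 0 ≤ (δ - 2 * δ ^ 2) * (r * X) := mul_nonneg (by nlinarith) h3
      have h7 : (1 + 2 * δ) * ((1 - δ) * (r * X)) = r * X + (δ - 2 * δ ^ 2) * (r * X) := by ring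
      linarith
    linarith
  have hN0 : 0 ≤ N := by
    rw [hN]
    exact Finset.sum_nonneg fun s _ => Nat.cast_nonneg _
  have hsys := sys_ZS S h1T
  obtain ⟨z1, z2⟩ := hzs K hK.le T hTT3 (ZS S T) (mS S) hsys
    (fun s hs => ⟨(ZS_range h1T hs).2.2.1, (ZS_range h1T hs).2.2.2⟩) hc1 w hw (b * Real.log T)
  obtain ⟨-, habs2, habs3⟩ := abs_ (ZS S T) (mS S) hsys
  have hQ := hps T hTT4 (AZ (ZS S T) (mS S)) habs2 (habs3 _ _) (by
    intro u t hu huL ht1 ht2
    have := hef T hTT1 u t hu (huL.trans (mul_le_mul_of_nonneg_right (le_max_right _ _) hL.le)) ht1 ht2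
    rw [← hr] at this
    exact this)
  rw [← hX] at hQ
  have hJ : ∀ u : ℝ, JZ (ZS S T) (mS S) (T + Real.log T) (2 * T - Real.log T) u =
      ∫ t in (T + Real.log T)..(2 * T - Real.log T), ‖AZ (ZS S T) (mS S) u t‖ ^ 2 := fun u => rfl
  simp_rw [hJ] at z1 z2
  rw [← hN] at z1 z2
  rw [← hr, ← hN]
  obtain ⟨Q, hQd⟩ : ∃ Q : ℝ, Q = 2 / Real.sqrt Real.pi * (∫ x in (0 : ℝ)..1, WW w x *
      ∫ t in (T + Real.log T)..(2 * T - Real.log T),
        ‖AZ (ZS S T) (mS S) (b * Real.log T * x) t‖ ^ 2) := ⟨_, rfl⟩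
  rw [← hQd] at z1 z2 hQ
  have hCD := CD_eq (T := T) hw hb hk0 hk1 hr0 ha
  obtain ⟨E, hE⟩ : ∃ E : ℝ, E = CC w r b + DD' w r b k T (aS S) := ⟨_, rfl⟩
  obtain ⟨J1, hJ1⟩ : ∃ x : ℝ, x = ∫ α in (0 : ℝ)..k, WW w (α / b) * α := ⟨_, rfl⟩
  obtain ⟨J2, hJ2⟩ : ∃ x : ℝ, x = ∫ α in k..b, WW w (α / b) * Mn (aS S) T α := ⟨_, rfl⟩
  have hJ2r : ∫ α in k..b, WW w (α / b) * (Mn (aS S) T α / r) = J2 / r := by
    rw [hJ2, ← intervalIntegral.integral_div]
    congr 1
    funext α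
    ring
  have hMn0 : ∀ α, 0 ≤ Mn (aS S) T α := by
    intro α
    unfold Mn
    have : 0 ≤ ∫ t in T..(2 * T), ‖PP (aS S) (α * Real.log T) t‖ ^ 2 :=
      intervalIntegral.integral_nonneg (by linarith) fun t _ => by positivity
    positivity
  have hJ10 : 0 ≤ J1 := by
    rw [hJ1]
    exact intervalIntegral.integral_nonneg hk0 fun α hα => mul_nonneg (WW_nonneg hw _) hα.1
  have hJ20 : 0 ≤ J2 := by
    rw [hJ2]
    exact intervalIntegral.integral_nonneg hkb fun α _ => mul_nonneg (WW_nonneg hw _) (hMn0 α)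
  rw [hJ2r, ← hJ1, ← hE] at hCD
  rw [← hJ1, ← hJ2] at hQ
  have hW0 := WW_nonneg hw 0
  have hE0 : 0 ≤ E := by rw [hCD]; positivity
  have hQE : Q ≤ r * X * (E + δ * E + δ) := by
    refine hQ.trans ?_
    have h1 : X * (r ^ 2 * WW w 0 / b + 2 / b * (r * J1) + (1 + δ) * (2 / b * J2) + δ) =
        r * X * (r * WW w 0 / b + 2 / b * J1 + (1 + δ) * (2 / b * (J2 / r)) + δ / r) := by
      field_simp
    rw [h1]
    apply mul_le_mul_of_nonneg_left _ (by positivity)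
    have h2 : δ / r ≤ δ := div_le_self hδ0.le hr1
    have h3 : 2 / b * (J2 / r) ≤ E := by
      rw [hCD]
      have : 0 ≤ r * WW w 0 / b + 2 / b * J1 := by positivity
      linarith
    have h4 : δ * (2 / b * (J2 / r)) ≤ δ * E := mul_le_mul_of_nonneg_left h3 hδ0.le
    have h5 : (1 + δ) * (2 / b * (J2 / r)) = 2 / b * (J2 / r) + δ * (2 / b * (J2 / r)) := by ring
    rw [h5]
    have h6 : E = r * WW w 0 / b + 2 / b * J1 + 2 / b * (J2 / r) := hCD
    linarith
  have hgoal1 : (2 - CC w r b - DD' w r b k T (aS S) - ε) * N = (2 - E - ε) * N := by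
    rw [hE]; ring
  have hgoal2 : (3 - CC w r b - DD' w r b k T (aS S) - ε) * N = (3 - E - ε) * N := by
    rw [hE]; ring
  rw [hgoal1, hgoal2]
  rcases le_or_gt 3 E with h3 | h3
  · have hn1 : (2 - E - ε) * N ≤ 0 := mul_nonpos_of_nonpos_of_nonneg (by linarith) hN0
    have hn2 : (3 - E - ε) * N ≤ 0 := mul_nonpos_of_nonpos_of_nonneg (by linarith) hN0
    exact ⟨hn1.trans (Nat.cast_nonneg _), hn2.trans (by positivity)⟩
  · have hb1 : Q + C2 * K * Real.log T ^ 2 ≤ (E + ε) * N := by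
      have hE4 : E + δ * E + δ ≤ E + 4 * δ := by nlinarith
      have h4 : Q ≤ (1 + 2 * δ) * N * (E + 4 * δ) := by
        calc Q ≤ r * X * (E + δ * E + δ) := hQE
          _ ≤ r * X * (E + 4 * δ) := by
              apply mul_le_mul_of_nonneg_left hE4 (by positivity)
          _ ≤ _ := by
              apply mul_le_mul_of_nonneg_right hN1 (by linarith)
      have h5 : C2 * K * Real.log T ^ 2 ≤ δ / 2 * ((1 + 2 * δ) * N) :=
        e2.trans (mul_le_mul_of_nonneg_left hN1 (by linarith))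
      have h6 : (1 + 2 * δ) * (E + 4 * δ) + δ / 2 * (1 + 2 * δ) ≤ E + ε := by
        nlinarith
      calc Q + C2 * K * Real.log T ^ 2 ≤ (1 + 2 * δ) * N * (E + 4 * δ) +
            δ / 2 * ((1 + 2 * δ) * N) := add_le_add h4 h5
        _ = ((1 + 2 * δ) * (E + 4 * δ) + δ / 2 * (1 + 2 * δ)) * N := by ring
        _ ≤ (E + ε) * N := mul_le_mul_of_nonneg_right h6 hN0
    constructor
    · have : (2 - E - ε) * N = 2 * N - (E + ε) * N := by ring
      linarith
    · have : (3 - E - ε) * N = 3 * N - (E + ε) * N := by ring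
      linarith

end H479.Y
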