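import Pool.Agent.H479.Y.Stm
import Pool.Graph.R_seed8.H370R2.PC3
import Pool.Agent.H479.U.VV
import Pool.Agent.H479.P.MVG

/-! # the mean square of the prime polynomial of length up to T (proved by helper271) -/

/-!
# The mean square of the prime polynomial of length up to `T` (task Y-MB of helper479)
-/

open MeasureTheory Complex Filter Topology
open scoped ComplexConjugate

namespace H479.Y

open H370 H479.U

namespace MBaux

/-- Gaussian sums, one side -/
lemma gauss_range (c : ℝ) (hc : 0 < c) (K : ℕ) :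
    ∑ j ∈ Finset.range K, Real.exp (-c * ((j : ℝ) + 1) ^ 2) ≤ Real.sqrt (Real.pi / c) / 2 := by
  have hanti : AntitoneOn (fun x : ℝ => Real.exp (-c * x ^ 2)) (Set.Icc (0 : ℝ) (0 + (K : ℝ))) := by
    intro x hx y hy hxy
    apply Real.exp_le_exp.2
    have h1 : x ^ 2 ≤ y ^ 2 := pow_le_pow_left₀ hx.1 hxy 2
    nlinarith
  have h1 := hanti.sum_le_integral
  have h2 : ∑ j ∈ Finset.range K, Real.exp (-c * ((j : ℝ) + 1) ^ 2) ≤
      ∫ x in (0 : ℝ)..(0 + (K : ℝ)), Real.exp (-c * x ^ 2) := by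
    refine le_trans (le_of_eq ?_) h1
    refine Finset.sum_congr rfl fun j _ => ?_
    push_cast
    rw [zero_add]
  refine h2.trans ?_
  rw [← integral_gaussian_Ioi, intervalIntegral.integral_of_le (by positivity)]
  apply setIntegral_mono_set
  · exact (integrable_exp_neg_mul_sq hc).integrableOn
  · exact ae_of_all _ fun x => (Real.exp_pos _).le
  · exact (Set.Ioc_subset_Ioi_self).eventuallyLE

lemma gauss_inj (c : ℝ) (hc : 0 < c) (s : Finset ℕ) (f : ℕ → ℕ) (hf : Set.InjOn f s) :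
    ∑ m ∈ s, Real.exp (-c * ((f m : ℝ) + 1) ^ 2) ≤ Real.sqrt (Real.pi / c) / 2 := by
  classical
  have h1 : ∑ m ∈ s, Real.exp (-c * ((f m : ℝ) + 1) ^ 2) =
      ∑ j ∈ s.image f, Real.exp (-c * ((j : ℝ) + 1) ^ 2) := by
    rw [Finset.sum_image hf]
  rw [h1]
  have h2 : s.image f ⊆ Finset.range ((s.image f).sup id + 1) := by
    intro j hj
    rw [Finset.mem_range, Nat.lt_succ_iff]
    exact Finset.le_sup (f := id) hj
  exact (Finset.sum_le_sum_of_subset_of_nonneg h2 fun _ _ _ => (Real.exp_pos _).le).trans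
    (gauss_range c hc _)

/-- Gaussian sums, two sides -/
lemma gauss_two (c : ℝ) (hc : 0 < c) (s : Finset ℕ) (n : ℕ) :
    ∑ m ∈ s, Real.exp (-c * ((m : ℝ) - n) ^ 2) ≤ 1 + Real.sqrt (Real.pi / c) := by
  classical
  rw [← Finset.sum_filter_add_sum_filter_not s (fun m => m < n)]
  rw [← Finset.sum_filter_add_sum_filter_not (s.filter fun m => ¬ m < n) (fun m => n < m)]
  have h1 : ∑ m ∈ s.filter (fun m => m < n), Real.exp (-c * ((m : ℝ) - n) ^ 2) ≤
      Real.sqrt (Real.pi / c) / 2 := by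
    have h2 := gauss_inj c hc (s.filter fun m => m < n) (fun m => n - m - 1) (by
      intro x hx y hy hxy
      simp only [Finset.coe_filter, Set.mem_ofPred_eq] at hx hy
      simp only at hxy
      omega)
    refine le_trans (le_of_eq ?_) h2
    refine Finset.sum_congr rfl fun m hm => ?_
    rw [Finset.mem_filter] at hm
    have h3 : ((n - m - 1 : ℕ) : ℝ) + 1 = (n : ℝ) - m := by
      have h4 : n - m - 1 + 1 = n - m := by omega
      have h5 : ((n - m - 1 + 1 : ℕ) : ℝ) = ((n - m : ℕ) : ℝ) := by rw [h4]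
      rw [Nat.cast_sub hm.2.le] at h5
      push_cast at h5
      exact h5
    rw [h3]
    congr 1
    ring
  have h2 : ∑ m ∈ (s.filter fun m => ¬ m < n).filter (fun m => n < m),
      Real.exp (-c * ((m : ℝ) - n) ^ 2) ≤ Real.sqrt (Real.pi / c) / 2 := by
    have h2 := gauss_inj c hc ((s.filter fun m => ¬ m < n).filter fun m => n < m)
      (fun m => m - n - 1) (by
      intro x hx y hy hxy
      simp only [Finset.coe_filter, Finset.mem_filter, Set.mem_ofPred_eq] at hx hy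
      simp only at hxy
      omega)
    refine le_trans (le_of_eq ?_) h2
    refine Finset.sum_congr rfl fun m hm => ?_
    rw [Finset.mem_filter] at hm
    have h3 : ((m - n - 1 : ℕ) : ℝ) + 1 = (m : ℝ) - n := by
      have h4 : m - n - 1 + 1 = m - n := by omega
      have h5 : ((m - n - 1 + 1 : ℕ) : ℝ) = ((m - n : ℕ) : ℝ) := by rw [h4]
      rw [Nat.cast_sub hm.2.le] at h5
      push_cast at h5
      exact h5
    rw [h3]
  have h3 : ∑ m ∈ (s.filter fun m => ¬ m < n).filter (fun m => ¬ n < m),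
      Real.exp (-c * ((m : ℝ) - n) ^ 2) ≤ 1 := by
    have h4 : (s.filter fun m => ¬ m < n).filter (fun m => ¬ n < m) ⊆ {n} := by
      intro m hm
      simp only [Finset.mem_filter] at hm
      rw [Finset.mem_singleton]
      omega
    refine (Finset.sum_le_sum_of_subset_of_nonneg h4 fun _ _ _ => (Real.exp_pos _).le).trans ?_
    simp
  linarith

/-- elementary lower bound for the difference of logarithms -/
lemma log_diff (m n : ℕ) (hm : 1 ≤ m) (hn : 1 ≤ n) (h : m ≤ 2 * n) :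
    (((m : ℝ) - n) / (2 * n)) ^ 2 ≤ (Real.log m - Real.log n) ^ 2 := by
  have hm0 : (0 : ℝ) < m := by exact_mod_cast hm
  have hn0 : (0 : ℝ) < n := by exact_mod_cast hn
  have hmn : (m : ℝ) ≤ 2 * n := by exact_mod_cast h
  rw [← sq_abs (((m : ℝ) - n) / (2 * n)), ← sq_abs (Real.log m - Real.log n)]
  apply pow_le_pow_left₀ (abs_nonneg _)
  rcases le_total (m : ℝ) n with h1 | h1
  · have h2 : Real.log m ≤ Real.log n := Real.log_le_log hm0 h1
    have h0 : ((m : ℝ) - n) / (2 * n) ≤ 0 := by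
      apply div_nonpos_of_nonpos_of_nonneg <;> linarith
    rw [abs_of_nonpos h0, abs_of_nonpos (by linarith : Real.log m - Real.log n ≤ 0)]
    have h3 := Real.one_sub_inv_le_log_of_pos (div_pos hn0 hm0)
    rw [Real.log_div hn0.ne' hm0.ne', inv_div] at h3
    have h4 : (1 : ℝ) - m / n = (n - m) / n := by field_simp
    have h5 : -(((m : ℝ) - n) / (2 * n)) ≤ (n - m) / n := by
      rw [neg_div' , neg_sub, div_le_div_iff₀ (by positivity) hn0]
      nlinarith
    linarith
  · have h2 : Real.log n ≤ Real.log m := Real.log_le_log hn0 h1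
    have h0 : 0 ≤ ((m : ℝ) - n) / (2 * n) := by
      apply div_nonneg <;> linarith
    rw [abs_of_nonneg h0, abs_of_nonneg (by linarith : 0 ≤ Real.log m - Real.log n)]
    have h3 := Real.one_sub_inv_le_log_of_pos (div_pos hm0 hn0)
    rw [Real.log_div hm0.ne' hn0.ne', inv_div] at h3
    have h4 : (1 : ℝ) - n / m = (m - n) / m := by field_simp
    have h5 : ((m : ℝ) - n) / (2 * n) ≤ (m - n) / m := by
      apply div_le_div_of_nonneg_left (by linarith) hm0 hmn
    linarith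

/-- the far part -/
lemma far_term (T : ℝ) (hT : 16 ≤ T) (m n : ℕ) (hn : 1 ≤ n) (h : 2 * n < m) :
    Real.exp (-(T ^ 2 * (Real.log m - Real.log n) ^ 2 / 4)) ≤
      (1 / T) * ((n : ℝ) ^ 2 * ((m : ℝ) ^ 2)⁻¹) := by
  have hn0 : (0 : ℝ) < n := by exact_mod_cast hn
  have hmn : 2 * (n : ℝ) < m := by exact_mod_cast h
  have hm0 : (0 : ℝ) < m := by linarith
  set L : ℝ := Real.log m - Real.log n with hL
  have hL1 : 1 / 2 ≤ L := by
    have h1 : Real.log 2 ≤ L := by
      rw [hL, ← Real.log_div hm0.ne' hn0.ne']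
      apply Real.log_le_log (by norm_num)
      rw [le_div_iff₀ hn0]
      exact hmn.le
    have h2 := Real.log_two_gt_d9
    linarith
  have h1 : -(T ^ 2 * L ^ 2 / 4) ≤ -(2 * L) + -(T ^ 2 / 16 - 1) := by
    have h2 : 0 ≤ T ^ 2 / 4 * (L * (L - 1 / 2)) := by
      have : 0 ≤ L * (L - 1 / 2) := mul_nonneg (by linarith) (by linarith)
      positivity
    have h3 : 0 ≤ (T ^ 2 / 8 - 2) * (L - 1 / 2) := by
      apply mul_nonneg _ (by linarith)
      nlinarith
    nlinarith
  have h2 : Real.exp (-(2 * L)) = (n : ℝ) ^ 2 * ((m : ℝ) ^ 2)⁻¹ := by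
    have h3 : -(2 * L) = Real.log ((n : ℝ) ^ 2 * ((m : ℝ) ^ 2)⁻¹) := by
      rw [Real.log_mul (by positivity) (by positivity), Real.log_inv, Real.log_pow, Real.log_pow,
        hL]
      push_cast
      ring
    rw [h3, Real.exp_log (by positivity)]
  have h3 : Real.exp (-(T ^ 2 / 16 - 1)) ≤ 1 / T := by
    rw [Real.exp_neg, one_div]
    apply inv_anti₀ (by linarith)
    have h4 := Real.add_one_le_exp (T ^ 2 / 16 - 1)
    nlinarith
  calc Real.exp (-(T ^ 2 * L ^ 2 / 4)) ≤ Real.exp (-(2 * L) + -(T ^ 2 / 16 - 1)) :=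
        Real.exp_le_exp.2 h1
    _ = Real.exp (-(T ^ 2 / 16 - 1)) * Real.exp (-(2 * L)) := by rw [Real.exp_add]; ring
    _ ≤ (1 / T) * Real.exp (-(2 * L)) := by gcongr
    _ = _ := by rw [h2]

/-- the inner sum -/
lemma inner_sum (T : ℝ) (hT : 16 ≤ T) (X n : ℕ) (hn : 1 ≤ n) :
    ∑ m ∈ Finset.Icc 1 X, Real.exp (-(T ^ 2 * (Real.log m - Real.log n) ^ 2 / 4)) ≤
      1 + 8 * (n / T) := by
  classical
  have hT0 : 0 < T := by linarith
  have hn0 : (0 : ℝ) < n := by exact_mod_cast hn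
  rw [← Finset.sum_filter_add_sum_filter_not (Finset.Icc 1 X) (fun m => m ≤ 2 * n)]
  have h1 : ∑ m ∈ (Finset.Icc 1 X).filter (fun m => m ≤ 2 * n),
      Real.exp (-(T ^ 2 * (Real.log m - Real.log n) ^ 2 / 4)) ≤
      1 + 4 * Real.sqrt Real.pi * (n / T) := by
    have hc : 0 < T ^ 2 / (16 * (n : ℝ) ^ 2) := by positivity
    have h2 := gauss_two (T ^ 2 / (16 * (n : ℝ) ^ 2)) hc
      ((Finset.Icc 1 X).filter (fun m => m ≤ 2 * n)) n
    have h3 : Real.sqrt (Real.pi / (T ^ 2 / (16 * (n : ℝ) ^ 2))) =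
        4 * Real.sqrt Real.pi * (n / T) := by
      have h4 : Real.pi / (T ^ 2 / (16 * (n : ℝ) ^ 2)) = Real.pi * (4 * (n / T)) ^ 2 := by
        field_simp
        ring
      rw [h4, Real.sqrt_mul Real.pi_pos.le, Real.sqrt_sq (by positivity)]
      ring
    rw [h3] at h2
    refine le_trans (Finset.sum_le_sum fun m hm => ?_) h2
    rw [Finset.mem_filter, Finset.mem_Icc] at hm
    apply Real.exp_le_exp.2
    have h4 := log_diff m n hm.1.1 hn hm.2
    have h5 : T ^ 2 / (16 * (n : ℝ) ^ 2) * ((m : ℝ) - n) ^ 2 =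
        T ^ 2 * (((m : ℝ) - n) / (2 * n)) ^ 2 / 4 := by
      field_simp
      ring
    have h6 : T ^ 2 * (((m : ℝ) - n) / (2 * n)) ^ 2 / 4 ≤
        T ^ 2 * (Real.log m - Real.log n) ^ 2 / 4 := by gcongr
    linarith
  have h2 : ∑ m ∈ (Finset.Icc 1 X).filter (fun m => ¬ m ≤ 2 * n),
      Real.exp (-(T ^ 2 * (Real.log m - Real.log n) ^ 2 / 4)) ≤ (n / T) / 2 := by
    have h3 : ∑ m ∈ (Finset.Icc 1 X).filter (fun m => ¬ m ≤ 2 * n),
        Real.exp (-(T ^ 2 * (Real.log m - Real.log n) ^ 2 / 4)) ≤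
        ∑ m ∈ (Finset.Icc 1 X).filter (fun m => ¬ m ≤ 2 * n),
          (1 / T) * ((n : ℝ) ^ 2 * ((m : ℝ) ^ 2)⁻¹) := by
      refine Finset.sum_le_sum fun m hm => ?_
      rw [Finset.mem_filter, not_le] at hm
      exact far_term T hT m n hn hm.2
    refine h3.trans ?_
    have h4 : (Finset.Icc 1 X).filter (fun m => ¬ m ≤ 2 * n) ⊆
        Finset.Ioc (2 * n) (max X (2 * n)) := by
      intro m hm
      rw [Finset.mem_filter, Finset.mem_Icc, not_le] at hm
      rw [Finset.mem_Ioc]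
      exact ⟨hm.2, hm.1.2.trans (le_max_left _ _)⟩
    have h5 : ∑ m ∈ (Finset.Icc 1 X).filter (fun m => ¬ m ≤ 2 * n), ((m : ℝ) ^ 2)⁻¹ ≤
        1 / (2 * n) := by
      refine (Finset.sum_le_sum_of_subset_of_nonneg h4 fun _ _ _ => by positivity).trans ?_
      have h6 := sum_Ioc_inv_sq_le_sub (α := ℝ) (k := 2 * n) (n := max X (2 * n)) (by omega)
        (le_max_right _ _)
      refine h6.trans ?_
      have h7 : (0 : ℝ) ≤ ((max X (2 * n) : ℕ) : ℝ)⁻¹ := by positivity
      have h8 : (((2 * n : ℕ) : ℝ))⁻¹ = 1 / (2 * n) := by push_cast; rw [one_div]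
      linarith
    rw [← Finset.mul_sum, ← Finset.mul_sum]
    calc 1 / T * ((n : ℝ) ^ 2 * ∑ m ∈ (Finset.Icc 1 X).filter (fun m => ¬ m ≤ 2 * n),
          ((m : ℝ) ^ 2)⁻¹) ≤ 1 / T * ((n : ℝ) ^ 2 * (1 / (2 * n))) := by gcongr
      _ = (n / T) / 2 := by field_simp
  have h3 : Real.sqrt Real.pi ≤ 15 / 8 := by
    rw [Real.sqrt_le_left (by norm_num)]
    have := Real.pi_lt_d2
    nlinarith
  have h4 : 0 ≤ (n : ℝ) / T := by positivity
  nlinarith

lemma VV_eq (u : ℝ) : VV u = VVb 1 u := by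
  unfold VV VVb wn
  congr 1
  ext n
  rw [div_one]

/-- the sum over `n` -/
lemma outer_sum (T : ℝ) (hT : 16 ≤ T) (X : ℕ) (u : ℝ) (hu1 : u ≤ Real.log T) (c : ℕ → ℂ)
    (hc : ∀ n, 1 ≤ n → ‖c n‖ ^ 2 ≤ (ArithmeticFunction.vonMangoldt n) ^ 2 / n *
      Real.exp (-(u - Real.log n) ^ 2)) :
    ∑ n ∈ Finset.Icc 1 X, ‖c n‖ ^ 2 *
      ∑ m ∈ Finset.Icc 1 X, Real.exp (-(T ^ 2 * (Real.log m - Real.log n) ^ 2 / 4)) ≤
      VV u + 8 * Real.exp (1 / 4) * VV (u + 1 / 2) := by
  have hT0 : 0 < T := by linarith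
  have h1 : ∀ n ∈ Finset.Icc 1 X, ‖c n‖ ^ 2 *
      ∑ m ∈ Finset.Icc 1 X, Real.exp (-(T ^ 2 * (Real.log m - Real.log n) ^ 2 / 4)) ≤
      (ArithmeticFunction.vonMangoldt n) ^ 2 / n * Real.exp (-(u - Real.log n) ^ 2) +
      8 * Real.exp (1 / 4) * ((ArithmeticFunction.vonMangoldt n) ^ 2 / n *
        Real.exp (-(u + 1 / 2 - Real.log n) ^ 2)) := by
    intro n hn
    rw [Finset.mem_Icc] at hn
    have hn0 : (0 : ℝ) < n := by exact_mod_cast hn.1
    have h2 := hc n hn.1
    have h3 := inner_sum T hT X n hn.1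
    have h4 : (0 : ℝ) ≤ (ArithmeticFunction.vonMangoldt n) ^ 2 / n := by positivity
    have h5 : (n / T) * Real.exp (-(u - Real.log n) ^ 2) ≤
        Real.exp (1 / 4) * Real.exp (-(u + 1 / 2 - Real.log n) ^ 2) := by
      have h6 : (n : ℝ) * Real.exp (-(u - Real.log n) ^ 2) =
          Real.exp u * (Real.exp (1 / 4) * Real.exp (-(u + 1 / 2 - Real.log n) ^ 2)) := by
        nth_rewrite 1 [← Real.exp_log hn0]
        rw [← Real.exp_add, ← Real.exp_add, ← Real.exp_add]
        congr 1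
        ring
      have h7 : Real.exp u ≤ T := by
        rw [← Real.exp_log hT0]
        exact Real.exp_le_exp.2 hu1
      rw [div_mul_eq_mul_div, div_le_iff₀ hT0, h6, mul_comm (Real.exp u)]
      gcongr
    calc ‖c n‖ ^ 2 * ∑ m ∈ Finset.Icc 1 X,
          Real.exp (-(T ^ 2 * (Real.log m - Real.log n) ^ 2 / 4))
        ≤ ((ArithmeticFunction.vonMangoldt n) ^ 2 / n * Real.exp (-(u - Real.log n) ^ 2)) *
          (1 + 8 * (n / T)) := by
          apply mul_le_mul h2 h3
          · exact Finset.sum_nonneg fun _ _ => (Real.exp_pos _).le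
          · positivity
      _ = (ArithmeticFunction.vonMangoldt n) ^ 2 / n * Real.exp (-(u - Real.log n) ^ 2) +
          8 * ((ArithmeticFunction.vonMangoldt n) ^ 2 / n * ((n / T) *
            Real.exp (-(u - Real.log n) ^ 2))) := by ring
      _ ≤ (ArithmeticFunction.vonMangoldt n) ^ 2 / n * Real.exp (-(u - Real.log n) ^ 2) +
          8 * ((ArithmeticFunction.vonMangoldt n) ^ 2 / n * (Real.exp (1 / 4) *
            Real.exp (-(u + 1 / 2 - Real.log n) ^ 2))) := by gcongr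
      _ = _ := by ring
  refine (Finset.sum_le_sum h1).trans ?_
  rw [Finset.sum_add_distrib, ← Finset.mul_sum]
  have h2 := (VV_summable u).sum_le_tsum (Finset.Icc 1 X) fun n _ => VV_term_nonneg u n
  have h3 := (VV_summable (u + 1 / 2)).sum_le_tsum (Finset.Icc 1 X)
    fun n _ => VV_term_nonneg (u + 1 / 2) n
  have h4 : (0 : ℝ) ≤ 8 * Real.exp (1 / 4) := by positivity
  exact add_le_add h2 (mul_le_mul_of_nonneg_left h3 h4)

/-- the mean square of a finite sum over `[T, 2T]` -/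
lemma ms_fin (T : ℝ) (hT : 0 < T) (S : Finset ℕ) (c : ℕ → ℂ) (x : ℕ → ℝ) :
    ∫ t in T..(2 * T), ‖∑ n ∈ S, c n * cexp (I * t * (-(x n : ℂ)))‖ ^ 2 ≤
      Real.exp 4 * (Real.sqrt Real.pi * T * ∑ n ∈ S, ‖c n‖ ^ 2 *
        ∑ m ∈ S, Real.exp (-(T ^ 2 * (x m - x n) ^ 2 / 4))) := by
  have hg := H479.P.gmvt S c x T hT
  have hcont : Continuous fun t : ℝ => ‖∑ n ∈ S, c n * cexp (I * t * (-(x n : ℂ)))‖ ^ 2 := by
    fun_prop
  have hbd : ∀ t : ℝ, ‖∑ n ∈ S, c n * cexp (I * t * (-(x n : ℂ)))‖ ≤ ∑ n ∈ S, ‖c n‖ := by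
    intro t
    refine norm_sum_le_of_le _ fun n _ => ?_
    rw [norm_mul, show I * (t : ℂ) * (-(x n : ℂ)) = ((-(t * x n) : ℝ) : ℂ) * I by push_cast; ring,
      Complex.norm_exp_ofReal_mul_I, mul_one]
  have hint : Integrable (fun t : ℝ => ‖∑ n ∈ S, c n * cexp (I * t * (-(x n : ℂ)))‖ ^ 2 *
      Real.exp (-(t / T) ^ 2)) := by
    refine (H479.P.gw_int T hT).bdd_mul (c := (∑ n ∈ S, ‖c n‖) ^ 2) hcont.aestronglyMeasurable ?_
    refine Filter.Eventually.of_forall fun t => ?_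
    rw [Real.norm_of_nonneg (by positivity)]
    have := hbd t
    gcongr
  have h1 : ∫ t in T..(2 * T), ‖∑ n ∈ S, c n * cexp (I * t * (-(x n : ℂ)))‖ ^ 2 ≤
      ∫ t in T..(2 * T), Real.exp 4 * (‖∑ n ∈ S, c n * cexp (I * t * (-(x n : ℂ)))‖ ^ 2 *
        Real.exp (-(t / T) ^ 2)) := by
    apply intervalIntegral.integral_mono_on (by linarith)
    · exact hcont.intervalIntegrable _ _
    · exact (hint.const_mul _).intervalIntegrable
    · intro t ht
      have h2 : 1 ≤ Real.exp 4 * Real.exp (-(t / T) ^ 2) := by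
        rw [← Real.exp_add]
        apply Real.one_le_exp
        have h3 : 0 ≤ t / T := div_nonneg (by linarith [ht.1]) hT.le
        have h4 : t / T ≤ 2 := by
          rw [div_le_iff₀ hT]
          exact ht.2
        nlinarith
      have h3 : 0 ≤ ‖∑ n ∈ S, c n * cexp (I * t * (-(x n : ℂ)))‖ ^ 2 := by positivity
      calc ‖∑ n ∈ S, c n * cexp (I * t * (-(x n : ℂ)))‖ ^ 2
          = ‖∑ n ∈ S, c n * cexp (I * t * (-(x n : ℂ)))‖ ^ 2 * 1 := (mul_one _).symm
        _ ≤ ‖∑ n ∈ S, c n * cexp (I * t * (-(x n : ℂ)))‖ ^ 2 *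
            (Real.exp 4 * Real.exp (-(t / T) ^ 2)) := by gcongr
        _ = _ := by ring
  refine h1.trans ?_
  rw [intervalIntegral.integral_const_mul, intervalIntegral.integral_of_le (by linarith)]
  apply mul_le_mul_of_nonneg_left _ (Real.exp_pos 4).le
  refine le_trans ?_ hg
  exact setIntegral_le_integral hint (Filter.Eventually.of_forall fun t => by positivity)

/-- the case `r = 1` -/
lemma core : ∃ C : ℝ, 0 < C ∧ ∀ a : ℕ → ℂ, (∀ n, ‖a n‖ ≤ ArithmeticFunction.vonMangoldt n) →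
    ∀ T : ℝ, 16 ≤ T → ∀ u : ℝ, 0 ≤ u → u ≤ Real.log T →
      ∫ t in T..(2 * T), ‖PP a u t‖ ^ 2 ≤ C * (T * Real.log T) := by
  obtain ⟨K, hK, hV⟩ := VVb_le 1 1 one_pos one_pos
  set Z : ℝ := ∑' n : ℕ, 1 / (n : ℝ) ^ 2 with hZ
  have hZ0 : 0 ≤ Z := tsum_nonneg fun n => by positivity
  set s : ℝ := Real.sqrt Real.pi with hs
  have hs0 : 0 ≤ s := Real.sqrt_nonneg _
  set e : ℝ := Real.exp (1 / 4) with he
  have he0 : 0 < e := Real.exp_pos _
  refine ⟨2 * Real.exp 4 * s * ((2 * s + K) + 8 * e * (2 * s * (3 / 2) + K)) + 2 * (2 * Z) ^ 2 + 1,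
    by positivity, ?_⟩
  intro a ha T hT u hu0 hu1
  have hT0 : 0 < T := by linarith
  have hlog : 1 ≤ Real.log T := by
    rw [Real.le_log_iff_exp_le hT0]
    have := Real.exp_one_lt_d9
    linarith
  set X : ℕ := ⌈Real.exp (u + (4 + 2 * u))⌉₊ with hX
  have hXl : u + (4 + 2 * u) ≤ Real.log (X + 1) := by
    rw [Real.le_log_iff_exp_le (by positivity)]
    have := Nat.le_ceil (Real.exp (u + (4 + 2 * u)))
    linarith
  have htr : ∀ t : ℝ, ‖PP a u t - ∑ n ∈ Finset.Icc 1 X, pterm a u t n‖ ≤ 2 * Z := by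
    intro t
    have h1 := PP_trunc ha u t (4 + 2 * u) X (by linarith) hXl
    refine h1.trans ?_
    have h2 : Real.exp (4 + 2 * u) * Real.exp (-(4 + 2 * u) ^ 2 / 4) ≤ 1 := by
      rw [← Real.exp_add, Real.exp_le_one_iff]
      nlinarith
    calc 2 * (∑' n : ℕ, 1 / (n : ℝ) ^ 2) * (Real.exp (4 + 2 * u) *
          Real.exp (-(4 + 2 * u) ^ 2 / 4)) ≤ 2 * Z * 1 := by
          rw [← hZ]
          gcongr
      _ = 2 * Z := mul_one _
  set c : ℕ → ℂ := fun n => a n * (Real.sqrt n : ℂ)⁻¹ * Real.exp (-(u - Real.log n) ^ 2 / 2) with hc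
  have hcn : ∀ n, 1 ≤ n → ‖c n‖ ^ 2 ≤ (ArithmeticFunction.vonMangoldt n) ^ 2 / n *
      Real.exp (-(u - Real.log n) ^ 2) := by
    intro n hn1
    have hn0 : (0 : ℝ) < n := by exact_mod_cast hn1
    simp only [hc]
    rw [norm_mul, norm_mul, norm_inv, Complex.norm_real, Complex.norm_real,
      Real.norm_of_nonneg (Real.sqrt_nonneg _), Real.norm_of_nonneg (Real.exp_pos _).le,
      mul_pow, mul_pow, inv_pow, Real.sq_sqrt hn0.le, ← Real.exp_nat_mul, ← div_eq_mul_inv]
    have e1 : ((2 : ℕ) : ℝ) * (-(u - Real.log n) ^ 2 / 2) = -(u - Real.log n) ^ 2 := by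
      push_cast; ring
    rw [e1]
    have := ha n
    gcongr
  have hSn : ∀ t : ℝ, ‖∑ n ∈ Finset.Icc 1 X, pterm a u t n‖ =
      ‖∑ n ∈ Finset.Icc 1 X, c n * cexp (I * t * (-((Real.log n : ℝ) : ℂ)))‖ := by
    intro t
    have h2 : ∑ n ∈ Finset.Icc 1 X, pterm a u t n = cexp (((t * u : ℝ) : ℂ) * I) *
        ∑ n ∈ Finset.Icc 1 X, c n * cexp (I * t * (-((Real.log n : ℝ) : ℂ))) := by
      rw [Finset.mul_sum]
      refine Finset.sum_congr rfl fun n _ => ?_
      unfold pterm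
      simp only [hc]
      have h3 : cexp (I * t * (u - Real.log n)) = cexp (((t * u : ℝ) : ℂ) * I) *
          cexp (I * t * (-((Real.log n : ℝ) : ℂ))) := by
        rw [← Complex.exp_add]
        congr 1
        push_cast
        ring
      rw [h3]; ring
    rw [h2, norm_mul, Complex.norm_exp_ofReal_mul_I, one_mul]
  have hms := ms_fin T hT0 (Finset.Icc 1 X) c (fun n => Real.log n)
  have hout := outer_sum T hT X u hu1 c hcn
  have hPPc := PP_cont ha u
  have hSc : Continuous (fun t => ∑ n ∈ Finset.Icc 1 X, pterm a u t n) := by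
    unfold pterm; fun_prop
  have hV1 : VV u ≤ 2 * s * Real.log T + K := by
    rw [VV_eq]
    have h1 := (hV u hu0).2
    rw [mul_one] at h1
    have h2 : (1 + 1) * s * u ≤ 2 * s * Real.log T := by
      have : s * u ≤ s * Real.log T := by gcongr
      linarith
    linarith
  have hV2 : VV (u + 1 / 2) ≤ 2 * s * (3 / 2) * Real.log T + K := by
    rw [VV_eq]
    have h1 := (hV (u + 1 / 2) (by linarith)).2
    rw [mul_one] at h1
    have h2 : (1 + 1) * s * (u + 1 / 2) ≤ 2 * s * (3 / 2) * Real.log T := by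
      have : s * (u + 1 / 2) ≤ s * (3 / 2 * Real.log T) := by
        apply mul_le_mul_of_nonneg_left _ hs0
        linarith
      linarith
    linarith
  calc ∫ t in T..(2 * T), ‖PP a u t‖ ^ 2
      ≤ ∫ t in T..(2 * T), (2 * ‖∑ n ∈ Finset.Icc 1 X, c n *
          cexp (I * t * (-((Real.log n : ℝ) : ℂ)))‖ ^ 2 + 2 * (2 * Z) ^ 2) := by
        apply intervalIntegral.integral_mono_on (by linarith)
        · exact (hPPc.norm.pow 2).intervalIntegrable _ _
        · simp_rw [← hSn]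
          exact ((continuous_const.mul (hSc.norm.pow 2)).add continuous_const).intervalIntegrable _ _
        · intro t _
          rw [← hSn]
          have h5 := sq_young (x := ∑ n ∈ Finset.Icc 1 X, pterm a u t n)
            (y := PP a u t - ∑ n ∈ Finset.Icc 1 X, pterm a u t n) (η := 1) one_pos
          rw [add_sub_cancel] at h5
          have h6 := htr t
          have h7 : ‖PP a u t - ∑ n ∈ Finset.Icc 1 X, pterm a u t n‖ ^ 2 ≤ (2 * Z) ^ 2 := by
            gcongr
          linarith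
    _ = 2 * (∫ t in T..(2 * T), ‖∑ n ∈ Finset.Icc 1 X, c n *
          cexp (I * t * (-((Real.log n : ℝ) : ℂ)))‖ ^ 2) + T * (2 * (2 * Z) ^ 2) := by
        rw [intervalIntegral.integral_add, intervalIntegral.integral_const_mul,
          intervalIntegral.integral_const, smul_eq_mul]
        · ring
        · simp_rw [← hSn]
          exact (continuous_const.mul (hSc.norm.pow 2)).intervalIntegrable _ _
        · exact continuous_const.intervalIntegrable _ _
    _ ≤ 2 * (Real.exp 4 * (s * T * (VV u + 8 * e * VV (u + 1 / 2)))) +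
          T * (2 * (2 * Z) ^ 2) := by
        have h8 := hms.trans (mul_le_mul_of_nonneg_left
          (mul_le_mul_of_nonneg_left hout (by positivity : 0 ≤ s * T)) (Real.exp_pos 4).le)
        linarith
    _ ≤ 2 * (Real.exp 4 * (s * T * ((2 * s * Real.log T + K * Real.log T) +
          8 * e * (2 * s * (3 / 2) * Real.log T + K * Real.log T)))) +
          T * (2 * (2 * Z) ^ 2) * Real.log T + T * Real.log T := by
        have hK1 : K ≤ K * Real.log T := le_mul_of_one_le_right hK hlog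
        have h9 : VV u + 8 * e * VV (u + 1 / 2) ≤ (2 * s * Real.log T + K * Real.log T) +
          8 * e * (2 * s * (3 / 2) * Real.log T + K * Real.log T) := by
          have : 8 * e * VV (u + 1 / 2) ≤ 8 * e * (2 * s * (3 / 2) * Real.log T + K * Real.log T) := by
            apply mul_le_mul_of_nonneg_left _ (by positivity)
            linarith
          linarith
        have h10 : T * (2 * (2 * Z) ^ 2) ≤ T * (2 * (2 * Z) ^ 2) * Real.log T :=
          le_mul_of_one_le_right (by positivity) hlog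
        have h11 : 0 ≤ T * Real.log T := by positivity
        have h12 : Real.exp 4 * (s * T * (VV u + 8 * e * VV (u + 1 / 2))) ≤
            Real.exp 4 * (s * T * ((2 * s * Real.log T + K * Real.log T) +
              8 * e * (2 * s * (3 / 2) * Real.log T + K * Real.log T))) := by
          apply mul_le_mul_of_nonneg_left _ (Real.exp_pos 4).le
          exact mul_le_mul_of_nonneg_left h9 (by positivity)
        linarith
    _ = _ := by ring

end MBaux

open MBaux in
theorem mb : ∀ (r : ℝ), 1 ≤ r → ∀ a : ℕ → ℂ, (∀ n, ‖a n‖ ≤ r * ArithmeticFunction.vonMangoldt n) →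
    ∃ C T0 : ℝ, 0 < C ∧ 10 ≤ T0 ∧ ∀ T : ℝ, T0 ≤ T → ∀ α : ℝ, 0 ≤ α → α ≤ 1 → Mn a T α ≤ C := by
  intro r hr a ha
  obtain ⟨C, hC, h⟩ := core
  have hr0 : 0 < r := by linarith
  refine ⟨1 / Real.sqrt Real.pi * (r ^ 2 * C), 16, by positivity, by norm_num, ?_⟩
  intro T hT α hα0 hα1
  have hT0 : 0 < T := by linarith
  have hlog : 0 < Real.log T := Real.log_pos (by linarith)
  have ha' : ∀ n, ‖(fun n => (r : ℂ)⁻¹ * a n) n‖ ≤ ArithmeticFunction.vonMangoldt n := by
    intro n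
    simp only
    rw [norm_mul, norm_inv, Complex.norm_real, Real.norm_of_nonneg hr0.le, inv_mul_le_iff₀ hr0]
    exact ha n
  have h1 := h _ ha' T hT (α * Real.log T) (by positivity) (by nlinarith)
  have h2 : ∀ t : ℝ, ‖PP a (α * Real.log T) t‖ ^ 2 =
      r ^ 2 * ‖PP (fun n => (r : ℂ)⁻¹ * a n) (α * Real.log T) t‖ ^ 2 := by
    intro t
    have hrc : (r : ℂ) ≠ 0 := by exact_mod_cast hr0.ne'
    have h3 : PP a (α * Real.log T) t =
        (r : ℂ) * PP (fun n => (r : ℂ)⁻¹ * a n) (α * Real.log T) t := by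
      unfold PP
      rw [← tsum_mul_left]
      congr 1
      ext n
      field_simp
    rw [h3, norm_mul, Complex.norm_real, Real.norm_of_nonneg hr0.le, mul_pow]
  unfold Mn
  simp_rw [h2]
  rw [intervalIntegral.integral_const_mul]
  have hsq : 0 < Real.sqrt Real.pi := Real.sqrt_pos.2 Real.pi_pos
  calc 1 / (Real.sqrt Real.pi * (T * Real.log T)) * (r ^ 2 *
        ∫ t in T..(2 * T), ‖PP (fun n => (r : ℂ)⁻¹ * a n) (α * Real.log T) t‖ ^ 2)
      ≤ 1 / (Real.sqrt Real.pi * (T * Real.log T)) * (r ^ 2 * (C * (T * Real.log T))) := by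
        gcongr
    _ = 1 / Real.sqrt Real.pi * (r ^ 2 * C) := by
        field_simp

end H479.Y
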