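import Pool.Agent.H479.Y.Stm

/-! # the prime side: the smoothed mean square (proved by helper149) -/


open MeasureTheory Complex Filter Topology
open scoped ComplexConjugate

namespace H479.Y

open H370 H479.U

namespace PSaux

variable {w : ℝ → ℝ}

lemma qii (hw : Win w) (b x y : ℝ) (hb : 0 < b) (g : ℝ → ℝ) (hg : Continuous g) :
    IntervalIntegrable (fun α => WW w (α / b) * g α) volume x y := by
  have h1 : Integrable (fun α => WW w (α / b)) := (WW_int hw).comp_div hb.ne'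
  exact (h1.intervalIntegrable).mul_continuousOn hg.continuousOn

lemma scale (b L : ℝ) (hb : 0 < b) (J : ℝ → ℝ) :
    ∫ x in (0 : ℝ)..1, WW w x * J (b * L * x) =
    (1 / b) * ∫ α in (0 : ℝ)..b, WW w (α / b) * J (α * L) := by
  have h := intervalIntegral.integral_comp_div (a := 0) (b := b) (c := b)
    (fun a : ℝ => WW w a * J (b * L * a)) hb.ne'
  rw [zero_div, div_self hb.ne', smul_eq_mul] at h
  have h2 : ∀ α : ℝ, WW w (α / b) * J (b * L * (α / b)) = WW w (α / b) * J (α * L) := by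
    intro α
    congr 2
    field_simp
  simp_rw [h2] at h
  rw [h, ← mul_assoc, one_div, inv_mul_cancel₀ hb.ne', one_mul]

lemma gauss0 (c k : ℝ) (hc : 0 < c) (hk : 0 ≤ k) :
    ∫ α in (0 : ℝ)..k, Real.exp (-c * α ^ 2) ≤ Real.sqrt (Real.pi / c) / 2 := by
  rw [← integral_gaussian_Ioi c, intervalIntegral.integral_of_le hk]
  refine setIntegral_mono_set (integrable_exp_neg_mul_sq hc).integrableOn
    (Filter.Eventually.of_forall fun x => (Real.exp_pos _).le) ?_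
  exact (Set.Ioc_subset_Ioi_self).eventuallyLE

lemma gauss1 (L k : ℝ) (hL : 0 < L) (hk : 0 ≤ k) :
    ∫ α in (0 : ℝ)..k, Real.exp (-(α * L) ^ 2) ≤ Real.sqrt Real.pi / (2 * L) := by
  have h := gauss0 (L ^ 2) k (by positivity) hk
  have e1 : Real.sqrt (Real.pi / L ^ 2) / 2 = Real.sqrt Real.pi / (2 * L) := by
    rw [Real.sqrt_div' _ (by positivity), Real.sqrt_sq hL.le]
    field_simp
  rw [e1] at h
  refine le_trans (le_of_eq ?_) h
  congr 1
  funext α
  congr 1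
  ring

lemma gauss2 (L k : ℝ) (hL : 0 < L) (hk : 0 ≤ k) :
    ∫ α in (0 : ℝ)..k, Real.exp (2 * (α * L) - (α * L) ^ 2 / 2) ≤
      Real.exp 4 * (Real.sqrt Real.pi / L) := by
  have h := gauss0 (L ^ 2 / 4) k (by positivity) hk
  have e1 : Real.sqrt (Real.pi / (L ^ 2 / 4)) / 2 = Real.sqrt Real.pi / L := by
    have : L ^ 2 / 4 = (L / 2) ^ 2 := by ring
    rw [this, Real.sqrt_div' _ (by positivity), Real.sqrt_sq (by positivity)]
    field_simp
  rw [e1] at h
  have h2 : ∫ α in (0 : ℝ)..k, Real.exp (2 * (α * L) - (α * L) ^ 2 / 2) ≤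
      ∫ α in (0 : ℝ)..k, Real.exp 4 * Real.exp (-(L ^ 2 / 4) * α ^ 2) := by
    apply intervalIntegral.integral_mono_on hk
    · apply Continuous.intervalIntegrable
      fun_prop
    · apply Continuous.intervalIntegrable
      fun_prop
    · intro α _
      rw [← Real.exp_add]
      apply Real.exp_le_exp.2
      nlinarith [sq_nonneg (α * L / 2 - 2)]
  rw [intervalIntegral.integral_const_mul] at h2
  exact h2.trans (mul_le_mul_of_nonneg_left h (Real.exp_pos _).le)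

lemma partA (hw : Win w) (b k L T r η K1 K2 K3 : ℝ) (J : ℝ → ℝ) (hJ : Continuous J)
    (hb : 0 < b) (hk0 : 0 ≤ k) (hk1 : k < 1) (hL : 0 < L) (hT : 0 < T)
    (hη : 0 < η) (hK1 : 0 ≤ K1) (hK2 : 0 ≤ K2) (hK3 : 0 ≤ K3)
    (hup : ∀ α : ℝ, 0 ≤ α → α ≤ k → J (α * L) ≤ (1 + η) / (2 * Real.pi) *
      (r ^ 2 * (T * L ^ 2) * Real.exp (-(α * L) ^ 2) +
        K1 * (T * L) * Real.exp (2 * (α * L) - (α * L) ^ 2 / 2) +
        (1 + η) ^ 2 * T * ((1 + η) * (r * Real.sqrt Real.pi * (α * L)) + K3)) + K2 * T) :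
    ∫ α in (0 : ℝ)..k, WW w (α / b) * J (α * L) ≤
      (1 + η) / (2 * Real.pi) *
      (r ^ 2 * (T * L ^ 2) * WW w 0 * (Real.sqrt Real.pi / (2 * L)) +
        K1 * (T * L) * WW w 0 * (Real.exp 4 * (Real.sqrt Real.pi / L)) +
        (1 + η) ^ 2 * T * ((1 + η) * (r * Real.sqrt Real.pi * L) *
          (∫ α in (0 : ℝ)..k, WW w (α / b) * α) + K3 * WW w 0)) + K2 * T * WW w 0 := by
  have hπ := Real.pi_pos
  obtain ⟨W0, hW0d⟩ : ∃ x : ℝ, x = WW w 0 := ⟨_, rfl⟩
  have hW0 : 0 ≤ W0 := by rw [hW0d]; exact WW_nonneg hw 0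
  rw [← hW0d]
  have hq : ∀ α : ℝ, WW w (α / b) ≤ W0 := fun α => by rw [hW0d]; exact WW_le hw _
  have hq0 : ∀ α : ℝ, 0 ≤ WW w (α / b) := fun α => WW_nonneg hw _
  obtain ⟨P, hP⟩ : ∃ x : ℝ, x = Real.sqrt Real.pi := ⟨_, rfl⟩
  have hP0 : 0 ≤ P := by rw [hP]; exact Real.sqrt_nonneg _
  obtain ⟨H, hH⟩ : ∃ x : ℝ, x = (1 + η) / (2 * Real.pi) := ⟨_, rfl⟩
  have hH0 : 0 ≤ H := by rw [hH]; positivity
  have hg1 := gauss1 L k hL hk0
  have hg2 := gauss2 L k hL hk0
  rw [← hP] at hup hg1 hg2 ⊢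
  rw [← hH] at hup ⊢
  obtain ⟨I0, hI0⟩ : ∃ x : ℝ, x = ∫ α in (0 : ℝ)..k, WW w (α / b) * α := ⟨_, rfl⟩
  have i1 : IntervalIntegrable (fun α : ℝ => (H * (r ^ 2 * (T * L ^ 2)) * W0) *
      Real.exp (-(α * L) ^ 2)) volume 0 k := by
    apply Continuous.intervalIntegrable
    fun_prop
  have i2 : IntervalIntegrable (fun α : ℝ => (H * (K1 * (T * L)) * W0) *
      Real.exp (2 * (α * L) - (α * L) ^ 2 / 2)) volume 0 k := by
    apply Continuous.intervalIntegrable
    fun_prop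
  have i3 : IntervalIntegrable (fun α : ℝ => (H * ((1 + η) ^ 2 * T * ((1 + η) * (r * P * L)))) *
      (WW w (α / b) * α)) volume 0 k := (qii hw b 0 k hb _ continuous_id).const_mul _
  have i4 : IntervalIntegrable (fun _ : ℝ => (H * ((1 + η) ^ 2 * T * K3) + K2 * T) * W0)
      volume 0 k := intervalIntegrable_const
  have hmono : ∫ α in (0 : ℝ)..k, WW w (α / b) * J (α * L) ≤
      ∫ α in (0 : ℝ)..k, ((((H * (r ^ 2 * (T * L ^ 2)) * W0) * Real.exp (-(α * L) ^ 2) +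
        (H * (K1 * (T * L)) * W0) * Real.exp (2 * (α * L) - (α * L) ^ 2 / 2)) +
        (H * ((1 + η) ^ 2 * T * ((1 + η) * (r * P * L)))) * (WW w (α / b) * α)) +
        (H * ((1 + η) ^ 2 * T * K3) + K2 * T) * W0) := by
    apply intervalIntegral.integral_mono_on hk0
    · exact qii hw b 0 k hb _ (hJ.comp (by fun_prop))
    · exact ((i1.add i2).add i3).add i4
    · intro α hα
      have hα0 := hα.1
      have h1 := hup α hα.1 hα.2
      have h2 := mul_le_mul_of_nonneg_left h1 (hq0 α)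
      refine h2.trans ?_
      have he := Real.exp_pos (-(α * L) ^ 2)
      have he2 := Real.exp_pos (2 * (α * L) - (α * L) ^ 2 / 2)
      obtain ⟨e, hed⟩ : ∃ x : ℝ, x = Real.exp (-(α * L) ^ 2) := ⟨_, rfl⟩
      obtain ⟨e', hed'⟩ : ∃ x : ℝ, x = Real.exp (2 * (α * L) - (α * L) ^ 2 / 2) := ⟨_, rfl⟩
      obtain ⟨q, hqd⟩ : ∃ x : ℝ, x = WW w (α / b) := ⟨_, rfl⟩
      have hqq : q ≤ W0 := by rw [hqd]; exact hq α
      rw [← hed] at he ⊢
      rw [← hed'] at he2 ⊢
      rw [← hqd]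
      have h3 : q * (H * (r ^ 2 * (T * L ^ 2)) * e) ≤ W0 * (H * (r ^ 2 * (T * L ^ 2)) * e) :=
        mul_le_mul_of_nonneg_right hqq (by positivity)
      have h4 : q * (H * (K1 * (T * L)) * e') ≤ W0 * (H * (K1 * (T * L)) * e') :=
        mul_le_mul_of_nonneg_right hqq (by positivity)
      have h5 : q * (H * ((1 + η) ^ 2 * T * K3) + K2 * T) ≤
          W0 * (H * ((1 + η) ^ 2 * T * K3) + K2 * T) :=
        mul_le_mul_of_nonneg_right hqq (by positivity)
      have e1 : q * (H * (r ^ 2 * (T * L ^ 2) * e + K1 * (T * L) * e' +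
          (1 + η) ^ 2 * T * ((1 + η) * (r * P * (α * L)) + K3)) + K2 * T) =
          q * (H * (r ^ 2 * (T * L ^ 2)) * e) + q * (H * (K1 * (T * L)) * e') +
          H * ((1 + η) ^ 2 * T * ((1 + η) * (r * P * L))) * (q * α) +
          q * (H * ((1 + η) ^ 2 * T * K3) + K2 * T) := by ring
      rw [e1]
      linarith
  refine hmono.trans ?_
  rw [intervalIntegral.integral_add ((i1.add i2).add i3) i4,
    intervalIntegral.integral_add (i1.add i2) i3, intervalIntegral.integral_add i1 i2,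
    intervalIntegral.integral_const_mul, intervalIntegral.integral_const_mul,
    intervalIntegral.integral_const_mul, intervalIntegral.integral_const, ← hI0, smul_eq_mul,
    sub_zero]
  have h6 := mul_le_mul_of_nonneg_left hg1
    (show 0 ≤ H * (r ^ 2 * (T * L ^ 2)) * W0 by positivity)
  have h7 := mul_le_mul_of_nonneg_left hg2 (show 0 ≤ H * (K1 * (T * L)) * W0 by positivity)
  have h8 : k * ((H * ((1 + η) ^ 2 * T * K3) + K2 * T) * W0) ≤
      1 * ((H * ((1 + η) ^ 2 * T * K3) + K2 * T) * W0) :=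
    mul_le_mul_of_nonneg_right hk1.le (by positivity)
  have e2 : H * (r ^ 2 * (T * L ^ 2) * W0 * (P / (2 * L)) +
      K1 * (T * L) * W0 * (Real.exp 4 * (P / L)) +
      (1 + η) ^ 2 * T * ((1 + η) * (r * P * L) * I0 + K3 * W0)) + K2 * T * W0 =
      H * (r ^ 2 * (T * L ^ 2)) * W0 * (P / (2 * L)) +
      H * (K1 * (T * L)) * W0 * (Real.exp 4 * (P / L)) +
      H * ((1 + η) ^ 2 * T * ((1 + η) * (r * P * L))) * I0 +
      1 * ((H * ((1 + η) ^ 2 * T * K3) + K2 * T) * W0) := by ring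
  rw [e2]
  linarith

lemma partB (hw : Win w) (b k L T H K4 : ℝ) (J : ℝ → ℝ) (hJ : Continuous J) (m : ℝ → ℝ)
    (hm : Continuous m) (hb : 0 < b) (hkb : k ≤ b) (hT : 0 < T) (hK4 : 0 ≤ K4)
    (hup : ∀ α : ℝ, k ≤ α → α ≤ b → J (α * L) ≤ H * m α + K4 * T) :
    ∫ α in k..b, WW w (α / b) * J (α * L) ≤
      H * (∫ α in k..b, WW w (α / b) * m α) + (b - k) * (K4 * T * WW w 0) := by
  have hq : ∀ α : ℝ, WW w (α / b) ≤ WW w 0 := fun α => WW_le hw _
  have hq0 : ∀ α : ℝ, 0 ≤ WW w (α / b) := fun α => WW_nonneg hw _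
  have i1 : IntervalIntegrable (fun α : ℝ => H * (WW w (α / b) * m α)) volume k b :=
    (qii hw b k b hb _ hm).const_mul _
  have i2 : IntervalIntegrable (fun _ : ℝ => K4 * T * WW w 0) volume k b :=
    intervalIntegrable_const
  have hmono : ∫ α in k..b, WW w (α / b) * J (α * L) ≤
      ∫ α in k..b, (H * (WW w (α / b) * m α) + K4 * T * WW w 0) := by
    apply intervalIntegral.integral_mono_on hkb
    · exact qii hw b k b hb _ (hJ.comp (by fun_prop))
    · exact i1.add i2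
    · intro α hα
      have h1 := hup α hα.1 hα.2
      have h2 := mul_le_mul_of_nonneg_left h1 (hq0 α)
      refine h2.trans ?_
      have h3 : WW w (α / b) * (K4 * T) ≤ WW w 0 * (K4 * T) :=
        mul_le_mul_of_nonneg_right (hq α) (by positivity)
      have e1 : WW w (α / b) * (H * m α + K4 * T) =
          H * (WW w (α / b) * m α) + WW w (α / b) * (K4 * T) := by ring
      rw [e1]
      linarith
  refine hmono.trans ?_
  rw [intervalIntegral.integral_add i1 i2, intervalIntegral.integral_const_mul,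
    intervalIntegral.integral_const, smul_eq_mul]

lemma pow4 (η : ℝ) (h0 : 0 ≤ η) (h1 : η ≤ 1) : (1 + η) ^ 4 ≤ 1 + 15 * η := by
  have g1 : η ^ 2 ≤ η := by nlinarith
  have g2 : η ^ 3 ≤ η := by nlinarith
  have g3 : η ^ 4 ≤ η := by nlinarith
  nlinarith

lemma aux2 (η X Y Z : ℝ) (h0 : 0 ≤ η) (hX0 : 0 ≤ X) (h4 : Z ≤ 1 + 15 * η) (hXY : X ≤ 2 * Y) :
    Z * X ≤ X + η * (30 * Y) := by
  have g1 := mul_le_mul_of_nonneg_right h4 hX0
  have g2 := mul_le_mul_of_nonneg_left hXY (show 0 ≤ 15 * η by positivity)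
  linarith

lemma aux3 (r W0 κ ε b : ℝ) (hr : 0 < r) (hW0 : 0 ≤ W0) (hκ0 : 0 < κ) (hκh : κ ≤ 1 / 2)
    (g3 : κ * (8 * (r * W0 + 1)) ≤ ε * b) : 8 * (r * (W0 * κ ^ 2)) ≤ ε * b := by
  have g2 : κ ^ 2 ≤ κ := by nlinarith
  have g4 : r * W0 * κ ^ 2 ≤ r * W0 * κ := mul_le_mul_of_nonneg_left g2 (by positivity)
  linarith

lemma aux4 (T L r W0 b P H η K1 K2 K3 K4 I1 M2 E : ℝ) (hb : b ≠ 0) (hP : P ≠ 0) (hL : L ≠ 0)
    (hPP : P * P = Real.pi) (hH : H = (1 + η) / (2 * Real.pi)) :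
    2 / (b * P) * (H * (r ^ 2 * (T * L ^ 2) * W0 * (P / (2 * L)) +
        K1 * (T * L) * W0 * (E * (P / L)) +
        (1 + η) ^ 2 * T * ((1 + η) * (r * P * L) * I1 + K3 * W0)) + K2 * T * W0 +
        (H * (P * (T * L)) * M2 + b * (K4 * T * W0))) =
      T * L / (2 * Real.pi) * ((1 + η) * (r ^ 2 * W0 / b) + (1 + η) ^ 4 * (2 / b * (r * I1)) +
        (1 + η) * (2 / b * M2)) + (2 / (b * P) * (H *
      (K1 * W0 * (E * P) + (1 + η) ^ 2 * (K3 * W0)) + K2 * W0 + b * (K4 * W0))) * T := by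
  have hπ : Real.pi ≠ 0 := Real.pi_ne_zero
  rw [hH]
  field_simp
  ring

end PSaux

open PSaux in
theorem ps (h1 : S_MS1) (h2 : S_MS2) (hM : S_MC) : S_PS := by
  intro r hr a ha hD w hw b k ε C hb hk0 hk1 hkb hε hC
  have hπ := Real.pi_pos
  have hr0 : 0 < r := by linarith
  obtain ⟨W0, hW0d⟩ : ∃ x : ℝ, x = WW w 0 := ⟨_, rfl⟩
  have hW0 : 0 ≤ W0 := by rw [hW0d]; exact WW_nonneg hw 0
  -- the choice of `κ₀`
  obtain ⟨κ, hκd⟩ : ∃ κ : ℝ, κ = min (1 / 2) (min b (ε * b / (8 * (r * W0 + 1)))) := ⟨_, rfl⟩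
  have hκ0 : 0 < κ := by
    rw [hκd]
    exact lt_min (by norm_num) (lt_min hb (by positivity))
  have hκh : κ ≤ 1 / 2 := by rw [hκd]; exact min_le_left _ _
  have hκb : κ ≤ b := by rw [hκd]; exact (min_le_right _ _).trans (min_le_left _ _)
  have hκe : 2 / b * (r * (W0 * κ ^ 2)) ≤ ε / 4 := by
    have g1 : κ ≤ ε * b / (8 * (r * W0 + 1)) := by
      rw [hκd]; exact (min_le_right _ _).trans (min_le_right _ _)
    have g3 : κ * (8 * (r * W0 + 1)) ≤ ε * b := (le_div_iff₀ (by positivity)).1 g1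
    have g5 : 8 * (r * (W0 * κ ^ 2)) ≤ ε * b := aux3 r W0 κ ε b hr0 hW0 hκ0 hκh g3
    rw [div_mul_eq_mul_div, div_le_iff₀ hb]
    linarith
  obtain ⟨k', hk'd⟩ : ∃ x : ℝ, x = max k κ := ⟨_, rfl⟩
  have hk'k : k ≤ k' := by rw [hk'd]; exact le_max_left _ _
  have hk'κ : κ ≤ k' := by rw [hk'd]; exact le_max_right _ _
  have hk'1 : k' < 1 := by rw [hk'd]; exact max_lt hk1 (by linarith)
  have hk'b : k' ≤ b := by rw [hk'd]; exact max_le hkb hκb
  have hk'0 : 0 < k' := by linarith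
  -- the choice of `η`
  obtain ⟨η, hηd⟩ : ∃ η : ℝ, η = min 1 (min ε (ε / (4 * (r ^ 2 * W0 / b + 30 * (r * W0 / b) + 1)))) :=
    ⟨_, rfl⟩
  have hden : 0 < r ^ 2 * W0 / b + 30 * (r * W0 / b) + 1 := by positivity
  have hη : 0 < η := by
    rw [hηd]
    exact lt_min one_pos (lt_min hε (by positivity))
  have hη1 : η ≤ 1 := by rw [hηd]; exact min_le_left _ _
  have hηε : η ≤ ε := by rw [hηd]; exact (min_le_right _ _).trans (min_le_left _ _)
  have hη2 : η * (r ^ 2 * W0 / b + 30 * (r * W0 / b) + 1) ≤ ε / 4 := by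
    have g1 : η ≤ ε / (4 * (r ^ 2 * W0 / b + 30 * (r * W0 / b) + 1)) := by
      rw [hηd]; exact (min_le_right _ _).trans (min_le_right _ _)
    have g2 := (le_div_iff₀ (by positivity)).1 g1
    linarith
  obtain ⟨K1, K2, T1, hK1, hK2, hT1, hup1⟩ := h1 r hr a ha ((1 - k') / 2) η C (by linarith)
    (by linarith) hη hC
  obtain ⟨K3, hK3, hup3⟩ := hD η hη
  obtain ⟨K4, T2, hK4, hT2, hup4⟩ := h2 r hr a ha κ η C hκ0 hη hC
  -- the constant of the error term
  obtain ⟨P, hPd⟩ : ∃ x : ℝ, x = Real.sqrt Real.pi := ⟨_, rfl⟩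
  have hP : 0 < P := by rw [hPd]; exact Real.sqrt_pos.2 hπ
  have hPP : P * P = Real.pi := by rw [hPd]; exact Real.mul_self_sqrt hπ.le
  obtain ⟨D, hDd⟩ : ∃ x : ℝ, x = 2 / (b * P) * ((1 + η) / (2 * Real.pi) *
      (K1 * W0 * (Real.exp 4 * P) + (1 + η) ^ 2 * (K3 * W0)) + K2 * W0 + b * (K4 * W0)) :=
    ⟨_, rfl⟩
  have hD0 : 0 ≤ D := by rw [hDd]; positivity
  refine ⟨max (max T1 T2) (Real.exp (8 * Real.pi * D / ε + 1)),
    (hT1.trans (le_max_left _ _)).trans (le_max_left _ _), fun T hT A hA1 hA2 hA3 => ?_⟩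
  have hTT1 : T1 ≤ T := ((le_max_left _ _).trans (le_max_left _ _)).trans hT
  have hTT2 : T2 ≤ T := ((le_max_right _ _).trans (le_max_left _ _)).trans hT
  have hTT3 : Real.exp (8 * Real.pi * D / ε + 1) ≤ T := (le_max_right _ _).trans hT
  have hT10 : 10 ≤ T := hT1.trans hTT1
  have hTpos : 0 < T := by linarith
  obtain ⟨L, hLd⟩ : ∃ L : ℝ, L = Real.log T := ⟨_, rfl⟩
  have hL : 0 < L := by rw [hLd]; exact Real.log_pos (by linarith)
  have hL3 : D ≤ L / (2 * Real.pi) * (ε / 4) := by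
    have g1 : 8 * Real.pi * D / ε + 1 ≤ L := by
      rw [hLd, Real.le_log_iff_exp_le hTpos]
      exact hTT3
    have g2 : 8 * Real.pi * D / ε ≤ L := by linarith
    rw [div_le_iff₀ hε] at g2
    rw [div_mul_div_comm, le_div_iff₀ (by positivity)]
    linarith
  rw [← hLd] at hA2 hA3 ⊢
  obtain ⟨J, hJd⟩ : ∃ J : ℝ → ℝ, J = fun u => ∫ t in (T + L)..(2 * T - L), ‖A u t‖ ^ 2 :=
    ⟨_, rfl⟩
  have hJc : Continuous J := by rw [hJd]; exact hA2
  have hJe : ∀ u, ∫ t in (T + L)..(2 * T - L), ‖A u t‖ ^ 2 = J u := fun u => by rw [hJd]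
  simp_rw [hJe]
  rw [scale b L hb J]
  -- the two ranges
  have hlow := partA hw b k' L T r η K1 K2 K3 J hJc hb hk'0.le hk'1 hL hTpos hη hK1.le
    hK2.le hK3 (by
      intro α hα0 hα1
      have hu0 : 0 ≤ α * L := by positivity
      have hu1 : α * L ≤ (1 - (1 - k') / 2) * L :=
        mul_le_mul_of_nonneg_right (by linarith) hL.le
      have g1 := hup1 T hTT1 (α * L) hu0 (by rw [← hLd]; exact hu1) (A (α * L)) (hA1 _) (by
        intro t ht1 ht2
        rw [← hLd] at ht1 ht2 ⊢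
        exact hA3 (α * L) t hu0 (mul_le_mul_of_nonneg_right (hα1.trans hk'b) hL.le) ht1 ht2)
      rw [← hLd, hJe] at g1
      refine g1.trans ?_
      have g2 := hup3 (α * L) hu0
      have g3 : (1 + η) ^ 2 * T * Va a (α * L) ≤
          (1 + η) ^ 2 * T * ((1 + η) * (r * Real.sqrt Real.pi * (α * L)) + K3) :=
        mul_le_mul_of_nonneg_left g2 (by positivity)
      have g4 : 0 ≤ (1 + η) / (2 * Real.pi) := by positivity
      have g5 := mul_le_mul_of_nonneg_left (add_le_add_right g3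
        (r ^ 2 * (T * L ^ 2) * Real.exp (-(α * L) ^ 2) +
        K1 * (T * L) * Real.exp (2 * (α * L) - (α * L) ^ 2 / 2))) g4
      linarith)
  have hMc : Continuous (Mn a T) := by
    have g1 := (hM r hr0.le a ha).2 T (2 * T)
    have g2 : Continuous fun α : ℝ => α * Real.log T := by fun_prop
    exact continuous_const.mul (g1.comp g2)
  have hMn : ∀ α, 0 ≤ Mn a T α := by
    intro α
    unfold Mn
    refine mul_nonneg ?_ (intervalIntegral.integral_nonneg (by linarith) fun t _ => by positivity)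
    rw [← hLd, ← hPd]
    positivity
  have hhigh := partB hw b k' L T ((1 + η) / (2 * Real.pi) * (P * (T * L))) K4 J hJc (Mn a T)
    hMc hb hk'b hTpos hK4.le (by
      intro α hα0 hα1
      have hα00 : 0 ≤ α := by linarith
      have hu0 : 0 ≤ α * L := by positivity
      have g1 := hup4 T hTT2 (α * L) (by
        rw [← hLd]; exact mul_le_mul_of_nonneg_right (hk'κ.trans hα0) hL.le) (A (α * L)) (hA1 _) (by
        intro t ht1 ht2
        rw [← hLd] at ht1 ht2 ⊢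
        exact hA3 (α * L) t hu0 (mul_le_mul_of_nonneg_right hα1 hL.le) ht1 ht2)
      rw [← hLd, hJe] at g1
      refine g1.trans (le_of_eq ?_)
      congr 1
      unfold Mn
      rw [← hLd, ← hPd]
      field_simp)
  have hsplit : ∫ α in (0 : ℝ)..b, WW w (α / b) * J (α * L) =
      (∫ α in (0 : ℝ)..k', WW w (α / b) * J (α * L)) +
      ∫ α in k'..b, WW w (α / b) * J (α * L) := by
    rw [intervalIntegral.integral_add_adjacent_intervals]
    · exact qii hw b 0 k' hb _ (hJc.comp (by fun_prop))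
    · exact qii hw b k' b hb _ (hJc.comp (by fun_prop))
  -- the integrals
  have hq : ∀ α : ℝ, WW w (α / b) ≤ W0 := fun α => by rw [hW0d]; exact WW_le hw _
  have hq0 : ∀ α : ℝ, 0 ≤ WW w (α / b) := fun α => WW_nonneg hw _
  have hMsplit : ∫ α in k..b, WW w (α / b) * Mn a T α =
      (∫ α in k..k', WW w (α / b) * Mn a T α) + ∫ α in k'..b, WW w (α / b) * Mn a T α := by
    rw [intervalIntegral.integral_add_adjacent_intervals]
    · exact qii hw b k k' hb _ hMc
    · exact qii hw b k' b hb _ hMc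
  have hM1 : 0 ≤ ∫ α in k..k', WW w (α / b) * Mn a T α :=
    intervalIntegral.integral_nonneg hk'k fun α _ => mul_nonneg (hq0 α) (hMn α)
  have hM2 : 0 ≤ ∫ α in k'..b, WW w (α / b) * Mn a T α :=
    intervalIntegral.integral_nonneg hk'b fun α _ => mul_nonneg (hq0 α) (hMn α)
  have hIsplit : ∫ α in (0 : ℝ)..k', WW w (α / b) * α =
      (∫ α in (0 : ℝ)..k, WW w (α / b) * α) + ∫ α in k..k', WW w (α / b) * α := by
    rw [intervalIntegral.integral_add_adjacent_intervals]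
    · exact qii hw b 0 k hb _ continuous_id
    · exact qii hw b k k' hb _ continuous_id
  have hI1 : ∫ α in (0 : ℝ)..k', WW w (α / b) * α ≤ W0 := by
    have g1 : ∫ α in (0 : ℝ)..k', WW w (α / b) * α ≤ ∫ α in (0 : ℝ)..k', W0 := by
      apply intervalIntegral.integral_mono_on hk'0.le (qii hw b 0 k' hb _ continuous_id)
        intervalIntegrable_const
      intro α hα
      simp only [id]
      calc WW w (α / b) * α ≤ WW w (α / b) * 1 :=
            mul_le_mul_of_nonneg_left (by linarith [hα.2]) (hq0 α)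
        _ ≤ W0 := by rw [mul_one]; exact hq α
    rw [intervalIntegral.integral_const, smul_eq_mul, sub_zero] at g1
    refine g1.trans ?_
    calc k' * W0 ≤ 1 * W0 := mul_le_mul_of_nonneg_right hk'1.le hW0
      _ = W0 := one_mul _
  have hI2 : ∫ α in k..k', WW w (α / b) * α ≤ W0 * κ ^ 2 := by
    rcases le_total k κ with h | h
    · have e : k' = κ := by rw [hk'd]; exact max_eq_right h
      rw [e]
      have g1 : ∫ α in k..κ, WW w (α / b) * α ≤ ∫ α in k..κ, W0 * κ := by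
        apply intervalIntegral.integral_mono_on h (qii hw b k κ hb _ continuous_id)
          intervalIntegrable_const
        intro α hα
        simp only [id]
        exact mul_le_mul (hq α) hα.2 (hk0.trans hα.1) hW0
      rw [intervalIntegral.integral_const, smul_eq_mul] at g1
      refine g1.trans ?_
      have : (κ - k) * (W0 * κ) ≤ κ * (W0 * κ) :=
        mul_le_mul_of_nonneg_right (by linarith) (by positivity)
      refine this.trans (le_of_eq ?_)
      ring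
    · have e : k' = k := by rw [hk'd]; exact max_eq_left h
      rw [e, intervalIntegral.integral_same]
      positivity
  have hI0 : 0 ≤ ∫ α in (0 : ℝ)..k', WW w (α / b) * α :=
    intervalIntegral.integral_nonneg hk'0.le fun α hα => mul_nonneg (hq0 α) hα.1
  -- names
  obtain ⟨J1, hJ1⟩ : ∃ x : ℝ, x = ∫ α in (0 : ℝ)..k', WW w (α / b) * J (α * L) := ⟨_, rfl⟩
  obtain ⟨J2, hJ2⟩ : ∃ x : ℝ, x = ∫ α in k'..b, WW w (α / b) * J (α * L) := ⟨_, rfl⟩
  obtain ⟨I1, hI1d⟩ : ∃ x : ℝ, x = ∫ α in (0 : ℝ)..k', WW w (α / b) * α := ⟨_, rfl⟩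
  obtain ⟨I2, hI2d⟩ : ∃ x : ℝ, x = ∫ α in k..k', WW w (α / b) * α := ⟨_, rfl⟩
  obtain ⟨I3, hI3d⟩ : ∃ x : ℝ, x = ∫ α in (0 : ℝ)..k, WW w (α / b) * α := ⟨_, rfl⟩
  obtain ⟨M1, hM1d⟩ : ∃ x : ℝ, x = ∫ α in k..k', WW w (α / b) * Mn a T α := ⟨_, rfl⟩
  obtain ⟨M2, hM2d⟩ : ∃ x : ℝ, x = ∫ α in k'..b, WW w (α / b) * Mn a T α := ⟨_, rfl⟩
  rw [hsplit, hMsplit, ← hJ1, ← hJ2, ← hM1d, ← hM2d, ← hI3d, ← hPd, ← hW0d]
  rw [← hJ1, ← hI1d, ← hPd, ← hW0d] at hlow
  rw [← hJ2, ← hM2d, ← hW0d] at hhigh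
  rw [← hI1d, ← hI2d, ← hI3d] at hIsplit
  rw [← hI1d] at hI1 hI0
  rw [← hI2d] at hI2
  rw [← hM1d] at hM1
  rw [← hM2d] at hM2
  -- algebra
  have hc : 0 < 2 / (b * P) := by positivity
  have hhigh2 : J2 ≤ (1 + η) / (2 * Real.pi) * (P * (T * L)) * M2 + b * (K4 * T * W0) := by
    have : (b - k') * (K4 * T * W0) ≤ b * (K4 * T * W0) :=
      mul_le_mul_of_nonneg_right (by linarith) (by positivity)
    linarith
  have key : 2 / P * (1 / b * (J1 + J2)) ≤
      T * L / (2 * Real.pi) * ((1 + η) * (r ^ 2 * W0 / b) + (1 + η) ^ 4 * (2 / b * (r * I1)) +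
        (1 + η) * (2 / b * M2)) + D * T := by
    have e0 : 2 / P * (1 / b * (J1 + J2)) = 2 / (b * P) * (J1 + J2) := by field_simp
    rw [e0]
    refine (mul_le_mul_of_nonneg_left (add_le_add hlow hhigh2) hc.le).trans (le_of_eq ?_)
    rw [hDd]
    exact aux4 T L r W0 b P _ η K1 K2 K3 K4 I1 M2 (Real.exp 4) hb.ne' hP.ne' hL.ne' hPP rfl
  refine key.trans ?_
  have hDT : D * T ≤ T * L / (2 * Real.pi) * (ε / 4) := by
    have := mul_le_mul_of_nonneg_right hL3 hTpos.le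
    refine this.trans (le_of_eq ?_)
    ring
  have hN : 0 ≤ T * L / (2 * Real.pi) := by positivity
  have hη4 : (1 + η) ^ 4 ≤ 1 + 15 * η := pow4 η hη.le hη1
  have t1 : (1 + η) * (r ^ 2 * W0 / b) = r ^ 2 * W0 / b + η * (r ^ 2 * W0 / b) := by ring
  have hX0 : 0 ≤ 2 / b * (r * I1) := by positivity
  have hX1 : 2 / b * (r * I1) ≤ 2 * (r * W0 / b) := by
    have g1 : 2 / b * (r * I1) ≤ 2 / b * (r * W0) := by gcongr
    refine g1.trans (le_of_eq ?_)
    ring
  have t2 : (1 + η) ^ 4 * (2 / b * (r * I1)) ≤ 2 / b * (r * I1) + η * (30 * (r * W0 / b)) :=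
    aux2 η _ _ _ hη.le hX0 hη4 hX1
  have t3 : 2 / b * (r * I1) ≤ 2 / b * (r * I3) + ε / 4 := by
    rw [hIsplit]
    have g1 : 2 / b * (r * (I3 + I2)) = 2 / b * (r * I3) + 2 / b * (r * I2) := by ring
    rw [g1]
    have g2 : 2 / b * (r * I2) ≤ 2 / b * (r * (W0 * κ ^ 2)) := by gcongr
    linarith
  have t4 : (1 + η) * (2 / b * M2) ≤ (1 + ε) * (2 / b * (M1 + M2)) := by
    have g1 : 2 / b * M2 ≤ 2 / b * (M1 + M2) := by gcongr; linarith
    have g2 : 0 ≤ 2 / b * M2 := by positivity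
    have g3 : 0 ≤ 2 / b * (M1 + M2) := by positivity
    exact mul_le_mul (by linarith) g1 g2 (by linarith)
  have hsum : (1 + η) * (r ^ 2 * W0 / b) + (1 + η) ^ 4 * (2 / b * (r * I1)) +
      (1 + η) * (2 / b * M2) + ε / 4 ≤
      r ^ 2 * W0 / b + 2 / b * (r * I3) + (1 + ε) * (2 / b * (M1 + M2)) + ε := by
    have g1 : η * (r ^ 2 * W0 / b + 30 * (r * W0 / b) + 1) =
        η * (r ^ 2 * W0 / b) + η * (30 * (r * W0 / b)) + η := by ring
    rw [g1] at hη2
    rw [t1]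
    linarith
  have := mul_le_mul_of_nonneg_left hsum hN
  rw [mul_add] at this
  linarith

end H479.Y
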