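import Mathlib

/-!
# Rigidity: an upper bound in the mean and the lower bound for the tent averages

The same argument as in H479/P/Mono for Montgomery's function, here for any family of nonnegative
continuous functions `f T`.
-/

open Filter Finset MeasureTheory Topology

namespace H479.Y

/-- integration by parts -/
lemma partsY {g : ℝ → ℝ} (hg : Continuous g) (b : ℝ) :
    ∫ α in (1 : ℝ)..b, (b - α) * g α = ∫ t in (1 : ℝ)..b, (∫ α in (1 : ℝ)..t, g α) := by
  have hS : ∀ t, HasDerivAt (fun t => ∫ α in (1 : ℝ)..t, g α) (g t) t := fun t =>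
    intervalIntegral.integral_hasDerivAt_right (hg.intervalIntegrable _ _)
      (hg.stronglyMeasurableAtFilter _ _) hg.continuousAt
  have hSc : Continuous (fun t => ∫ α in (1 : ℝ)..t, g α) :=
    continuous_iff_continuousAt.2 fun t => (hS t).continuousAt
  have hd : ∀ t, HasDerivAt (fun t => (b - t) * ∫ α in (1 : ℝ)..t, g α)
      ((b - t) * g t - ∫ α in (1 : ℝ)..t, g α) t := by
    intro t
    have h1 := ((hasDerivAt_id t).const_sub b).mul (hS t)
    refine h1.congr_deriv ?_
    simp
    ring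
  have h2 := intervalIntegral.integral_eq_sub_of_hasDerivAt (a := 1) (b := b)
    (fun t _ => hd t) (by
      apply Continuous.intervalIntegrable
      exact ((continuous_const.sub continuous_id).mul hg).sub hSc)
  rw [intervalIntegral.integral_sub] at h2
  · simp at h2
    linarith
  · exact ((continuous_const.sub continuous_id).mul hg).intervalIntegrable _ _
  · exact hSc.intervalIntegrable _ _

/-- the excess over `[1, t]` -/
noncomputable def SS (f : ℝ → ℝ → ℝ) (T t : ℝ) : ℝ := ∫ α in (1 : ℝ)..t, (f T α - 1)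

variable {f : ℝ → ℝ → ℝ}

lemma SS_cont (hc : ∀ T, Continuous (f T)) (T : ℝ) : Continuous (SS f T) := by
  have hg : Continuous fun α => f T α - 1 := (hc T).sub continuous_const
  exact continuous_iff_continuousAt.2 fun t =>
    (intervalIntegral.integral_hasDerivAt_right (hg.intervalIntegrable _ _)
      (hg.stronglyMeasurableAtFilter _ _) hg.continuousAt).continuousAt

lemma SS_sub (hc : ∀ T, Continuous (f T)) (T a b : ℝ) :
    SS f T b - SS f T a = (∫ α in a..b, f T α) - (b - a) := by
  have hg : ∀ x y, IntervalIntegrable (fun α => f T α - 1) volume x y := fun x y =>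
    ((hc T).sub continuous_const).intervalIntegrable _ _
  unfold SS
  rw [intervalIntegral.integral_interval_sub_left (hg _ _) (hg _ _),
    intervalIntegral.integral_sub ((hc T).intervalIntegrable _ _) intervalIntegrable_const]
  simp

lemma SS_one (T : ℝ) : SS f T 1 = 0 := by
  unfold SS
  simp

lemma SS_add_mono (hc : ∀ T, Continuous (f T)) (hn : ∀ T, 1 ≤ T → ∀ α, 0 ≤ f T α)
    {T : ℝ} (hT : 1 ≤ T) {s t : ℝ} (hst : s ≤ t) : SS f T s + s ≤ SS f T t + t := by
  have h1 := SS_sub hc T s t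
  have h2 : 0 ≤ ∫ α in s..t, f T α :=
    intervalIntegral.integral_nonneg hst fun α _ => hn T hT α
  linarith

/-- the upper bound in the mean for the windows in `[1, A]` -/
def UBf (f : ℝ → ℝ → ℝ) (A : ℝ) : Prop := ∀ a b : ℝ, 1 ≤ a → a < b → b ≤ A → ∀ ε : ℝ, 0 < ε →
  ∀ᶠ T in atTop, ∫ α in a..b, f T α ≤ b - a + ε

lemma UBf_unif (hc : ∀ T, Continuous (f T)) (hn : ∀ T, 1 ≤ T → ∀ α, 0 ≤ f T α)
    {A : ℝ} (h : UBf f A) {t0 : ℝ} (ht0 : 1 ≤ t0) (htA : t0 < A) {ε : ℝ} (hε : 0 < ε) :
    ∀ᶠ T in atTop, ∀ t, t0 ≤ t → t ≤ A → SS f T t ≤ SS f T t0 + ε := by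
  obtain ⟨N, hN⟩ := exists_nat_gt ((A - t0) / (ε / 2))
  have hN0 : (0 : ℝ) < N := lt_of_le_of_lt (div_nonneg (by linarith) (by linarith)) hN
  obtain ⟨k, hk⟩ : ∃ k : ℝ, k = (A - t0) / N := ⟨_, rfl⟩
  have hk0 : 0 < k := by rw [hk]; exact div_pos (by linarith) hN0
  have hkε : k ≤ ε / 2 := by
    rw [div_lt_iff₀ (by positivity)] at hN
    rw [hk, div_le_iff₀ hN0]
    linarith
  have hkN : t0 + N * k = A := by
    rw [hk]
    field_simp
    ring
  have h1 : ∀ᶠ T in atTop, ∀ i ∈ range (N + 1), SS f T (t0 + i * k) ≤ SS f T t0 + ε / 2 := by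
    rw [Filter.eventually_all_finset]
    intro i hi
    rcases Nat.eq_zero_or_pos i with h0 | h0
    · subst h0
      refine Eventually.of_forall fun T => ?_
      simp only [Nat.cast_zero, zero_mul, add_zero]
      linarith
    · have hi0 : (0 : ℝ) < i := by exact_mod_cast h0
      have hiN : (i : ℝ) ≤ N := by
        exact_mod_cast Nat.lt_succ_iff.1 (mem_range.1 hi)
      have hik : i * k ≤ N * k := mul_le_mul_of_nonneg_right hiN hk0.le
      have hik0 : 0 < i * k := by positivity
      filter_upwards [h t0 (t0 + i * k) ht0 (by linarith) (by linarith) (ε / 2) (by positivity)]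
        with T hT
      have h2 := SS_sub hc T t0 (t0 + i * k)
      linarith
  filter_upwards [h1, eventually_ge_atTop (1 : ℝ)] with T hT hT1 t ht htA'
  obtain ⟨i, hi⟩ : ∃ i : ℕ, i = ⌈(t - t0) / k⌉₊ := ⟨_, rfl⟩
  have hq0 : 0 ≤ (t - t0) / k := div_nonneg (by linarith) hk0.le
  have hi1 : (t - t0) / k ≤ i := by rw [hi]; exact Nat.le_ceil _
  have hi2 : (i : ℝ) < (t - t0) / k + 1 := by rw [hi]; exact Nat.ceil_lt_add_one hq0
  have hiN : i ∈ range (N + 1) := by
    rw [mem_range, Nat.lt_succ_iff, hi]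
    apply Nat.ceil_le.2
    rw [div_le_iff₀ hk0]
    linarith
  rw [div_le_iff₀ hk0] at hi1
  have hi3 : i * k < t - t0 + k := by
    have := mul_lt_mul_of_pos_right hi2 hk0
    rw [add_mul, div_mul_cancel₀ _ hk0.ne', one_mul] at this
    exact this
  have h3 := hT i hiN
  have h4 := SS_add_mono hc hn hT1 (show t ≤ t0 + i * k by linarith)
  linarith

/-- **the finite range theorem** -/
theorem finite_rangeY (hc : ∀ T, Continuous (f T)) (hn : ∀ T, 1 ≤ T → ∀ α, 0 ≤ f T α)
    {A : ℝ} (hlow : ∀ e : ℝ, 0 < e → ∀ᶠ T in atTop, -(1 / 6) - e ≤ ∫ t in (1 : ℝ)..A, SS f T t)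
    (h : UBf f A) {t0 : ℝ} (ht0 : 1 ≤ t0) (htA : t0 < A) {ε : ℝ} (hε : 0 < ε) :
    ∀ᶠ T in atTop, -(1 / 6) / (A - t0) - ε ≤ SS f T t0 := by
  have hAt : 0 < A - t0 := by linarith
  -- the choice of `e`
  obtain ⟨e, he⟩ : ∃ e : ℝ, e = ε * (A - t0) / (1 + A) := ⟨_, rfl⟩
  have he0 : 0 < e := by rw [he]; apply div_pos (by positivity); linarith
  filter_upwards [UBf_unif hc hn h ht0 htA he0, UBf_unif hc hn h le_rfl (by linarith) he0,
    hlow e he0] with T h1 h2 h4
  have hc' := SS_cont hc T
  rw [← intervalIntegral.integral_add_adjacent_intervals (hc'.intervalIntegrable 1 t0)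
    (hc'.intervalIntegrable t0 A)] at h4
  have h5 : ∫ t in (1 : ℝ)..t0, SS f T t ≤ (t0 - 1) * e := by
    have := intervalIntegral.integral_mono_on (μ := volume) ht0 (hc'.intervalIntegrable 1 t0)
      (intervalIntegrable_const (c := e)) fun t ht => by
        have := h2 t ht.1 (by linarith [ht.2])
        rw [SS_one] at this
        linarith
    rw [intervalIntegral.integral_const, smul_eq_mul] at this
    exact this
  have h6 : ∫ t in t0..A, SS f T t ≤ (A - t0) * (SS f T t0 + e) := by
    have := intervalIntegral.integral_mono_on (μ := volume) htA.le (hc'.intervalIntegrable t0 A)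
      (intervalIntegrable_const (c := SS f T t0 + e)) fun t ht => h1 t ht.1 ht.2
    rw [intervalIntegral.integral_const, smul_eq_mul] at this
    exact this
  have h7 : -(1 / 6) - (1 + A) * e ≤ (A - t0) * SS f T t0 := by
    have : 0 ≤ t0 * e := by positivity
    nlinarith
  have h8 : (1 + A) * e = (A - t0) * ε := by
    rw [he]
    have : 1 + A ≠ 0 := by linarith
    field_simp
  rw [h8] at h7
  have h9 : (A - t0) * (-(1 / 6) / (A - t0) - ε) = -(1 / 6) - (A - t0) * ε := by
    field_simp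
  have h10 : (A - t0) * (-(1 / 6) / (A - t0) - ε) ≤ (A - t0) * SS f T t0 := by
    rw [h9]; exact h7
  exact le_of_mul_le_mul_left h10 hAt

theorem SS_limY (hc : ∀ T, Continuous (f T)) (hn : ∀ T, 1 ≤ T → ∀ α, 0 ≤ f T α)
    (hlow : ∀ A : ℝ, 1 < A → ∀ e : ℝ, 0 < e →
      ∀ᶠ T in atTop, -(1 / 6) - e ≤ ∫ t in (1 : ℝ)..A, SS f T t)
    (h : ∀ A, UBf f A) {t : ℝ} (ht : 1 ≤ t) : Tendsto (fun T => SS f T t) atTop (𝓝 0) := by
  rw [Metric.tendsto_nhds]
  intro ε hε
  rcases ht.eq_or_lt with h1 | h1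
  · refine Eventually.of_forall fun T => ?_
    rw [← h1, SS_one, dist_self]
    exact hε
  · have hA : t < t + 1 / ε := by have : 0 < 1 / ε := by positivity
                                  linarith
    filter_upwards [finite_rangeY hc hn (hlow (t + 1 / ε) (by linarith)) (h (t + 1 / ε)) ht hA
      (half_pos hε), h t 1 t le_rfl h1 le_rfl (ε / 2) (by positivity)] with T h2 h3
    rw [Real.dist_eq, sub_zero, abs_lt]
    have h4 := SS_sub hc T 1 t
    rw [SS_one] at h4
    have e : -(1 / 6) / (t + 1 / ε - t) = -(ε / 6) := by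
      rw [add_sub_cancel_left]
      field_simp
    rw [e] at h2
    constructor <;> linarith

end H479.Y
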