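import Pool.Agent.H479.U.Win
import Pool.Graph.R_seed8.H370R2.Final

/-!
# Project Y (helper479): simple zeros on the critical line and the mean square of long prime
polynomials, unconditionally: definitions and statements of the parts
-/

open MeasureTheory Complex Filter Topology
open scoped ComplexConjugate

namespace H479.Y

open H370 H479.U

/-- a finite set of points of the critical strip with multiplicities, symmetric with respect to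
the critical line -/
structure Sys (Z : Finset ℂ) (m : ℂ → ℕ) : Prop where
  refl : ∀ s ∈ Z, 1 - conj s ∈ Z
  mrefl : ∀ s ∈ Z, m (1 - conj s) = m s
  pos : ∀ s ∈ Z, 1 ≤ m s
  strip : ∀ s ∈ Z, 0 < s.re ∧ s.re < 1

/-- the sum of the Gaussian test functions over the system -/
noncomputable def AZ (Z : Finset ℂ) (m : ℂ → ℕ) (u t : ℝ) : ℂ := ∑ s ∈ Z, (m s : ℂ) * hh u t s

/-- its mean square over `[t1, t2]` -/
noncomputable def JZ (Z : Finset ℂ) (m : ℂ → ℕ) (t1 t2 u : ℝ) : ℝ :=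
  ∫ t in t1..t2, ‖AZ Z m u t‖ ^ 2

/-- the mass of the point `s` seen from `[t1, t2]` -/
noncomputable def om (t1 t2 : ℝ) (s : ℂ) : ℝ :=
  1 / Real.sqrt (2 * Real.pi) * (∫ t in t1..t2, hh 0 t s).re

noncomputable def NZ (Z : Finset ℂ) (m : ℂ → ℕ) : ℝ := ∑ s ∈ Z, (m s : ℝ)

open Classical in
noncomputable def Z1 (Z : Finset ℂ) (m : ℂ → ℕ) : Finset ℂ := Z.filter (fun s => s.re = 1 / 2 ∧ m s = 1)

open Classical in
noncomputable def Z2 (Z : Finset ℂ) (m : ℂ → ℕ) : Finset ℂ := Z.filter (fun s => s.re = 1 / 2 ∧ 2 ≤ m s)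

open Classical in
noncomputable def Z3 (Z : Finset ℂ) : Finset ℂ := Z.filter (fun s => 1 / 2 < s.re)

/-- **LA**: the linear algebra -/
def S_LA : Prop := ∀ (E : Type) [NormedAddCommGroup E] [InnerProductSpace ℂ E] (k : ℂ → E)
  (Z : Finset ℂ) (m : ℂ → ℕ), Sys Z m →
  ∑ s ∈ Z1 Z m, (2 * (inner ℂ (k s) (k (1 - conj s))).re - 1) +
    ∑ s ∈ Z2 Z m, (4 * (m s : ℝ) * (inner ℂ (k s) (k (1 - conj s))).re - 4) +
    ∑ s ∈ Z3 Z, (8 * (m s : ℝ) * (inner ℂ (k s) (k (1 - conj s))).re - 4) ≤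
  ∑ s ∈ Z, ∑ s' ∈ Z, (m s : ℝ) * (m s' : ℝ) *
    (inner ℂ (k s) (k (1 - conj s')) * inner ℂ (k s') (k (1 - conj s))).re

/-- **KER**: the vectors -/
def S_KER : Prop := ∀ (w : ℝ → ℝ), Win w → ∀ (t1 t2 : ℝ), t1 ≤ t2 → ∀ lam : ℝ,
  ∃ (E : Type) (_ : NormedAddCommGroup E) (_ : InnerProductSpace ℂ E) (k : ℂ → E),
    (∀ s : ℂ, (inner ℂ (k s) (k (1 - conj s))).re = om t1 t2 s) ∧
    ∀ (Z : Finset ℂ) (m : ℂ → ℕ), Sys Z m →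
      ∑ s ∈ Z, ∑ s' ∈ Z, (m s : ℝ) * (m s' : ℝ) *
        (inner ℂ (k s) (k (1 - conj s')) * inner ℂ (k s') (k (1 - conj s))).re ≤
      2 / Real.sqrt Real.pi * ∫ a in (0 : ℝ)..1, WW w a * JZ Z m t1 t2 (lam * a)

/-- **EDG**: the mass of the points -/
def S_EDG : Prop := ∃ C T0 : ℝ, 0 < C ∧ 1 ≤ T0 ∧ ∀ K : ℝ, 0 ≤ K → ∀ T : ℝ, T0 ≤ T →
  ∀ (Z : Finset ℂ) (m : ℂ → ℕ), Sys Z m → (∀ s ∈ Z, T < s.im ∧ s.im ≤ 2 * T) →
  (∀ y : ℝ, ∑ s ∈ Z, (if y < s.im ∧ s.im ≤ y + 1 then (m s : ℝ) else 0) ≤ K * Real.log T) →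
  4 * NZ Z m - 3 * ((Z1 Z m).card : ℝ) - 4 * ((Z2 Z m).card : ℝ) - 4 * ((Z3 Z).card : ℝ) -
      C * K * Real.log T ^ 2 ≤
    ∑ s ∈ Z1 Z m, (2 * om (T + Real.log T) (2 * T - Real.log T) s - 1) +
    ∑ s ∈ Z2 Z m, (4 * (m s : ℝ) * om (T + Real.log T) (2 * T - Real.log T) s - 4) +
    ∑ s ∈ Z3 Z, (8 * (m s : ℝ) * om (T + Real.log T) (2 * T - Real.log T) s - 4)

/-- **ZS**: the zero side -/
def S_ZS : Prop := ∃ C T0 : ℝ, 0 < C ∧ 1 ≤ T0 ∧ ∀ K : ℝ, 0 ≤ K → ∀ T : ℝ, T0 ≤ T →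
  ∀ (Z : Finset ℂ) (m : ℂ → ℕ), Sys Z m → (∀ s ∈ Z, T < s.im ∧ s.im ≤ 2 * T) →
  (∀ y : ℝ, ∑ s ∈ Z, (if y < s.im ∧ s.im ≤ y + 1 then (m s : ℝ) else 0) ≤ K * Real.log T) →
  ∀ (w : ℝ → ℝ), Win w → ∀ lam : ℝ,
  2 * NZ Z m - ((Z1 Z m).card : ℝ) ≤
    2 / Real.sqrt Real.pi * (∫ a in (0 : ℝ)..1, WW w a *
      JZ Z m (T + Real.log T) (2 * T - Real.log T) (lam * a)) + C * K * Real.log T ^ 2 ∧
  3 * NZ Z m - 2 * (Z.card : ℝ) ≤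
    2 / Real.sqrt Real.pi * (∫ a in (0 : ℝ)..1, WW w a *
      JZ Z m (T + Real.log T) (2 * T - Real.log T) (lam * a)) + C * K * Real.log T ^ 2

/-- the coefficients of `-F'/F` -/
structure Coef (F : ℂ → ℂ) (a : ℕ → ℂ) : Prop where
  bd : ∀ n, ‖a n‖ ≤ ArithmeticFunction.vonMangoldt n
  ld : ∀ s : ℂ, 1 < s.re → 1 ≤ s.im → deriv F s / F s = - ∑' n : ℕ, a n * (n : ℂ) ^ (-s)

/-- **EF2**: the explicit formula for the zeros in `(T, 2T]`, for `u ≤ B log T` -/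
def S_EF2 : Prop := ∀ (F : ℂ → ℂ), GoodL F → ∀ a : ℕ → ℂ, Coef F a → ∀ B : ℝ, 1 ≤ B →
  ∃ C T0 : ℝ, 0 < C ∧ 10 ≤ T0 ∧ ∀ T : ℝ, T0 ≤ T → ∀ u t : ℝ, 0 ≤ u → u ≤ B * Real.log T →
    T + Real.log T ≤ t → t ≤ 2 * T - Real.log T →
    ‖AA F T (2 * T) u t - (1 / Real.sqrt (2 * Real.pi) : ℝ) *
      (Real.log T * cexp (I * u * t) * Real.exp (-u ^ 2 / 2) - PP a u t)‖ ≤ C

/-- the diagonal of the mean square -/
noncomputable def Va (a : ℕ → ℂ) (u : ℝ) : ℝ :=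
  ∑' n : ℕ, ‖a n‖ ^ 2 / n * Real.exp (-(u - Real.log n) ^ 2)

/-- **MS1**: the mean square in Montgomery's range; `r` = number of functions -/
def S_MS1 : Prop := ∀ (r : ℝ), 1 ≤ r → ∀ a : ℕ → ℂ,
  (∀ n, ‖a n‖ ≤ r * ArithmeticFunction.vonMangoldt n) → ∀ ε η C : ℝ, 0 < ε → ε < 1 / 2 → 0 < η →
  0 < C → ∃ K1 K2 T0 : ℝ, 0 < K1 ∧ 0 < K2 ∧ 10 ≤ T0 ∧ ∀ T : ℝ, T0 ≤ T → ∀ u : ℝ, 0 ≤ u →
    u ≤ (1 - ε) * Real.log T → ∀ A : ℝ → ℂ, Continuous A →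
    (∀ t : ℝ, T + Real.log T ≤ t → t ≤ 2 * T - Real.log T →
      ‖A t - (1 / Real.sqrt (2 * Real.pi) : ℝ) *
        (r * Real.log T * cexp (I * u * t) * Real.exp (-u ^ 2 / 2) - PP a u t)‖ ≤ C) →
    ∫ t in (T + Real.log T)..(2 * T - Real.log T), ‖A t‖ ^ 2 ≤
      (1 + η) / (2 * Real.pi) * (r ^ 2 * (T * (Real.log T) ^ 2) * Real.exp (-u ^ 2) +
        K1 * (T * Real.log T) * Real.exp (2 * u - u ^ 2 / 2) + (1 + η) ^ 2 * T * Va a u) + K2 * T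

/-- **MS2**: the mean square for `u ≥ κ log T` -/
def S_MS2 : Prop := ∀ (r : ℝ), 1 ≤ r → ∀ a : ℕ → ℂ,
  (∀ n, ‖a n‖ ≤ r * ArithmeticFunction.vonMangoldt n) → ∀ κ η C : ℝ, 0 < κ → 0 < η → 0 < C →
  ∃ K T0 : ℝ, 0 < K ∧ 10 ≤ T0 ∧ ∀ T : ℝ, T0 ≤ T → ∀ u : ℝ, κ * Real.log T ≤ u →
    ∀ A : ℝ → ℂ, Continuous A →
    (∀ t : ℝ, T + Real.log T ≤ t → t ≤ 2 * T - Real.log T →
      ‖A t - (1 / Real.sqrt (2 * Real.pi) : ℝ) *
        (r * Real.log T * cexp (I * u * t) * Real.exp (-u ^ 2 / 2) - PP a u t)‖ ≤ C) →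
    ∫ t in (T + Real.log T)..(2 * T - Real.log T), ‖A t‖ ^ 2 ≤
      (1 + η) / (2 * Real.pi) * (∫ t in T..(2 * T), ‖PP a u t‖ ^ 2) + K * T

/-- the normalised mean square of the prime polynomial of length `T ^ α` -/
noncomputable def Mn (a : ℕ → ℂ) (T α : ℝ) : ℝ :=
  1 / (Real.sqrt Real.pi * (T * Real.log T)) * ∫ t in T..(2 * T), ‖PP a (α * Real.log T) t‖ ^ 2

/-- the diagonal has the size belonging to `r` different characters -/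
def Diag (a : ℕ → ℂ) (r : ℝ) : Prop := ∀ η : ℝ, 0 < η → ∃ K : ℝ, 0 ≤ K ∧ ∀ u : ℝ, 0 ≤ u →
  Va a u ≤ (1 + η) * (r * Real.sqrt Real.pi * u) + K

/-- **PS**: the prime side -/
def S_PS : Prop := ∀ (r : ℝ), 1 ≤ r → ∀ a : ℕ → ℂ,
  (∀ n, ‖a n‖ ≤ r * ArithmeticFunction.vonMangoldt n) → Diag a r →
  ∀ (w : ℝ → ℝ), Win w → ∀ b k ε C : ℝ, 0 < b → 0 ≤ k → k < 1 → k ≤ b → 0 < ε → 0 < C →
  ∃ T0 : ℝ, 10 ≤ T0 ∧ ∀ T : ℝ, T0 ≤ T → ∀ A : ℝ → ℝ → ℂ,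
    (∀ u, Continuous (A u)) →
    (Continuous fun u => ∫ t in (T + Real.log T)..(2 * T - Real.log T), ‖A u t‖ ^ 2) →
    (∀ u t : ℝ, 0 ≤ u → u ≤ b * Real.log T → T + Real.log T ≤ t → t ≤ 2 * T - Real.log T →
      ‖A u t - (1 / Real.sqrt (2 * Real.pi) : ℝ) *
        (r * Real.log T * cexp (I * u * t) * Real.exp (-u ^ 2 / 2) - PP a u t)‖ ≤ C) →
    2 / Real.sqrt Real.pi * (∫ x in (0 : ℝ)..1, WW w x *
      ∫ t in (T + Real.log T)..(2 * T - Real.log T), ‖A (b * Real.log T * x) t‖ ^ 2) ≤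
    T * Real.log T / (2 * Real.pi) * (r ^ 2 * WW w 0 / b +
      2 / b * (r * ∫ α in (0 : ℝ)..k, WW w (α / b) * α) +
      (1 + ε) * (2 / b * ∫ α in k..b, WW w (α / b) * Mn a T α) + ε)

/-- **CNT**: the number of zeros of a good function in short and long intervals -/
def S_CNT : Prop := ∀ (F : ℂ → ℂ), GoodL F → ∃ K T0 : ℝ, 0 < K ∧ 10 ≤ T0 ∧ ∀ T : ℝ, T0 ≤ T →
  (∀ y : ℝ, ∑ s ∈ Zf F T (2 * T), (if y < s.im ∧ s.im ≤ y + 1 then (mult F s : ℝ) else 0) ≤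
    K * Real.log T) ∧
  |NZ (Zf F T (2 * T)) (mult F) - T * Real.log T / (2 * Real.pi)| ≤ K * T

/-- **GG**: the two time variables -/
def S_GG : Prop := ∀ (g : ℝ → ℝ) (t1 t2 : ℝ), Continuous g → (∀ x, 0 ≤ g x) → t1 ≤ t2 →
  ∫ t in t1..t2, ∫ t' in t1..t2, g ((t + t') / 2) * Real.exp (-(t - t') ^ 2 / 4) ≤
    2 * Real.sqrt Real.pi * ∫ t in t1..t2, g t

/-- **WWF**: the two space variables -/
def S_WWF : Prop := ∀ (w : ℝ → ℝ), Win w → ∀ f : ℝ → ℝ, Continuous f → (∀ x, f (-x) = f x) →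
  ∫ x, w x * ∫ x', w x' * f (x - x') = 2 * ∫ a in (0 : ℝ)..1, WW w a * f a

/-- **ABS**: reflection, and continuity of the mean square -/
def S_ABS : Prop := ∀ (Z : Finset ℂ) (m : ℂ → ℕ), Sys Z m →
  (∀ u t : ℝ, ‖AZ Z m (-u) t‖ = ‖AZ Z m u t‖) ∧ (∀ u, Continuous (AZ Z m u)) ∧
  (∀ t1 t2 : ℝ, Continuous fun u => JZ Z m t1 t2 u)

/-- **MC**: continuity of the mean square of the prime polynomial -/
def S_MC : Prop := ∀ (r : ℝ), 0 ≤ r → ∀ a : ℕ → ℂ,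
  (∀ n, ‖a n‖ ≤ r * ArithmeticFunction.vonMangoldt n) →
  (∀ u, Continuous fun t => PP a u t) ∧
  ∀ t1 t2 : ℝ, Continuous fun u => ∫ t in t1..t2, ‖PP a u t‖ ^ 2

/-- the coefficients belonging to a set of characters modulo `q` -/
noncomputable def aS {q : ℕ} (S : Finset (DirichletCharacter ℂ q)) (n : ℕ) : ℂ :=
  (ArithmeticFunction.vonMangoldt n : ℂ) * ∑ ψ ∈ S, ψ (n : ZMod q)

/-- **DGS**: the diagonal for a set of characters -/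
def S_DGS : Prop := ∀ (q : ℕ) [NeZero q] (S : Finset (DirichletCharacter ℂ q)), S.Nonempty →
  Diag (aS S) (S.card : ℝ)

/-- **COEF**: the coefficients of `-L'/L` -/
def S_COEF : Prop := ∀ (q : ℕ) [NeZero q] (χ : DirichletCharacter ℂ q),
  Coef (DirichletCharacter.LFunction χ)
    (fun n => (ArithmeticFunction.vonMangoldt n : ℂ) * χ (n : ZMod q))

/-- **IMP**: characters which are not primitive -/
def S_IMP : Prop := ∀ (q : ℕ) [NeZero q] (ψ : DirichletCharacter ℂ q) [NeZero ψ.conductor],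
  (∀ s : ℂ, 0 < s.re → 0 < s.im →
    analyticOrderAt (DirichletCharacter.LFunction ψ) s =
      analyticOrderAt (DirichletCharacter.LFunction ψ.primitiveCharacter) s) ∧
  ∃ C : ℝ, ∀ u t : ℝ, 0 ≤ u →
    ‖PP (fun n => (ArithmeticFunction.vonMangoldt n : ℂ) * ψ (n : ZMod q)) u t -
      PP (fun n => (ArithmeticFunction.vonMangoldt n : ℂ) *
        ψ.primitiveCharacter (n : ZMod ψ.conductor)) u t‖ ≤ C

end H479.Y
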