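import Pool.Agent.H479.Y.Main
import Pool.Agent.H479.Y.Ps
import Pool.Agent.H479.Y.Rig
import Pool.Agent.H479.U.Tri

/-!
# The windows starting at `k = 1`, the triangular window, and the consequences
-/

open Complex Filter Topology Set MeasureTheory

namespace H479.Y

open H370 H479.U

/-- **MB**: the mean square of the prime polynomial of length at most `T` is bounded -/
def S_MB : Prop := ∀ (r : ℝ), 1 ≤ r → ∀ a : ℕ → ℂ,
  (∀ n, ‖a n‖ ≤ r * ArithmeticFunction.vonMangoldt n) →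
    ∃ C T0 : ℝ, 0 < C ∧ 10 ≤ T0 ∧ ∀ T : ℝ, T0 ≤ T → ∀ α : ℝ, 0 ≤ α → α ≤ 1 → Mn a T α ≤ C

lemma ps_all : S_PS := ps ms1 ms2 mc

lemma Mn_nonneg (a : ℕ → ℂ) {T : ℝ} (hT : 1 ≤ T) (α : ℝ) : 0 ≤ Mn a T α := by
  unfold Mn
  have h1 : 0 ≤ ∫ t in T..(2 * T), ‖PP a (α * Real.log T) t‖ ^ 2 :=
    intervalIntegral.integral_nonneg (by linarith) fun t _ => by positivity
  have h2 : 0 ≤ Real.log T := Real.log_nonneg hT
  positivity

variable {q : ℕ} [NeZero q]

theorem main_S1 (hMB : S_MB) (S : Finset (DirichletCharacter ℂ q)) (hS : S.Nonempty)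
    {w : ℝ → ℝ} (hw : Win w) (b k ε : ℝ) (hb : 0 < b) (hk0 : 0 ≤ k) (hk1 : k ≤ 1) (hkb : k ≤ b)
    (hε : 0 < ε) : ∃ T0 : ℝ, 10 ≤ T0 ∧ ∀ T : ℝ, T0 ≤ T →
      (2 - CC w S.card b - DD' w S.card b k T (aS S) - ε) * NZ (ZS S T) (mS S) ≤
        ((Z1 (ZS S T) (mS S)).card : ℝ) ∧
      (3 - CC w S.card b - DD' w S.card b k T (aS S) - ε) * NZ (ZS S T) (mS S) ≤
        2 * ((ZS S T).card : ℝ) := by
  rcases hk1.lt_or_eq with hlt | rfl
  · exact main_S ps_all S hS hw b k ε hb hk0 hlt hkb hε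
  obtain ⟨r, hr⟩ : ∃ r : ℝ, r = (S.card : ℝ) := ⟨_, rfl⟩
  have hr1 : 1 ≤ r := by
    rw [hr]
    exact_mod_cast hS.card_pos
  have hr0 : 0 < r := by linarith
  have ha : ∀ n, ‖aS S n‖ ≤ r * ArithmeticFunction.vonMangoldt n := by
    rw [hr]; exact aS_le S
  obtain ⟨C, T1, hC, hT1, hM⟩ := hMB r hr1 (aS S) ha
  have hW0 := WW_nonneg hw 0
  obtain ⟨κ, hκ⟩ : ∃ κ : ℝ, κ = min (1 / 2) (ε / (2 * (2 / b * (WW w 0 * C) + 1))) := ⟨_, rfl⟩
  have hden : 0 < 2 * (2 / b * (WW w 0 * C) + 1) := by positivity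
  have hκ0 : 0 < κ := by rw [hκ]; exact lt_min (by norm_num) (by positivity)
  have hκ1 : κ ≤ 1 / 2 := by rw [hκ]; exact min_le_left _ _
  have hκ2 : 2 / b * (WW w 0 * C) * κ ≤ ε / 2 := by
    have h1 : κ ≤ ε / (2 * (2 / b * (WW w 0 * C) + 1)) := by rw [hκ]; exact min_le_right _ _
    rw [le_div_iff₀ hden] at h1
    nlinarith
  obtain ⟨T2, hT2, hmain⟩ := main_S ps_all S hS hw b (1 - κ) (ε / 2) hb (by linarith)
    (by linarith) (by linarith) (by positivity)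
  refine ⟨max T1 T2, hT1.trans (le_max_left _ _), fun T hT => ?_⟩
  obtain ⟨k1, k2⟩ := hmain T ((le_max_right _ _).trans hT)
  have hMT := hM T ((le_max_left _ _).trans hT)
  have h1T : 1 ≤ T := by linarith [(le_max_left T1 T2).trans hT]
  have hN0 : 0 ≤ NZ (ZS S T) (mS S) := Finset.sum_nonneg fun s _ => Nat.cast_nonneg _
  rw [← hr] at k1 k2 ⊢
  have hc := Mn_cont hr0.le ha T
  have hDD : DD' w r b (1 - κ) T (aS S) ≤ DD' w r b 1 T (aS S) + ε / 2 := by
    have h1 : ∫ α in (1 - κ)..b, WW w (α / b) * (Mn (aS S) T α / r - min α 1) =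
        (∫ α in (1 - κ)..1, WW w (α / b) * (Mn (aS S) T α / r - min α 1)) +
        ∫ α in (1 : ℝ)..b, WW w (α / b) * (Mn (aS S) T α / r - min α 1) := by
      rw [intervalIntegral.integral_add_adjacent_intervals]
      · exact q_ii hw b _ _ hb _ ((hc.div_const r).sub (by fun_prop))
      · exact q_ii hw b _ _ hb _ ((hc.div_const r).sub (by fun_prop))
    have h2 : ∫ α in (1 - κ)..1, WW w (α / b) * (Mn (aS S) T α / r - min α 1) ≤
        WW w 0 * C * κ := by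
      have h3 := intervalIntegral.integral_mono_on (μ := volume) (show 1 - κ ≤ 1 by linarith)
        (q_ii hw b (1 - κ) 1 hb _ ((hc.div_const r).sub (by fun_prop :
          Continuous fun α : ℝ => min α 1)))
        (intervalIntegrable_const (c := WW w 0 * C)) (fun α hα => by
          have h4 : Mn (aS S) T α / r ≤ C := by
            rw [div_le_iff₀ hr0]
            have := hMT α (by linarith [hα.1]) hα.2
            nlinarith
          have h5 : 0 ≤ min α 1 := le_min (by linarith [hα.1]) zero_le_one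
          have h6 := WW_nonneg hw (α / b)
          have h7 := WW_le hw (α / b)
          calc WW w (α / b) * (Mn (aS S) T α / r - min α 1) ≤ WW w (α / b) * C := by
                apply mul_le_mul_of_nonneg_left _ h6
                linarith
            _ ≤ WW w 0 * C := mul_le_mul_of_nonneg_right h7 hC.le)
      rw [intervalIntegral.integral_const, smul_eq_mul] at h3
      refine h3.trans (le_of_eq ?_)
      ring
    unfold DD'
    rw [h1, mul_add]
    have h3 : 2 / b * (∫ α in (1 - κ)..1, WW w (α / b) * (Mn (aS S) T α / r - min α 1)) ≤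
        2 / b * (WW w 0 * C * κ) := mul_le_mul_of_nonneg_left h2 (by positivity)
    have h4 : 2 / b * (WW w 0 * C * κ) = 2 / b * (WW w 0 * C) * κ := by ring
    linarith
  constructor
  · refine le_trans (mul_le_mul_of_nonneg_right ?_ hN0) k1
    linarith
  · refine le_trans (mul_le_mul_of_nonneg_right ?_ hN0) k2
    linarith

/-- the average for the triangular window -/
noncomputable def TT (r b k T : ℝ) (a : ℕ → ℂ) : ℝ :=
  ∫ α in k..b, (1 - α / b) * (Mn a T α / r - min α 1)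

lemma CC_w0 {r b : ℝ} (hb : 1 ≤ b) : CC w0 r b = 1 + (r - 1) / b + 1 / (3 * b ^ 2) := by
  have h1 := Cw_w0 hb
  unfold Cw at h1
  unfold CC
  have h2 : (r * WW w0 0 + 2 * ∫ α in (0 : ℝ)..b, WW w0 (α / b) * min α 1) / b =
      (r - 1) * WW w0 0 / b +
      (WW w0 0 + 2 * ∫ α in (0 : ℝ)..b, WW w0 (α / b) * min α 1) / b := by ring
  rw [h2, h1, WW_w0 le_rfl zero_le_one]
  ring

lemma DD_w0 {r b k T : ℝ} {a : ℕ → ℂ} (hb : 1 ≤ b) (hk0 : 0 ≤ k) (hkb : k ≤ b) :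
    DD' w0 r b k T a = 2 / b * TT r b k T a := by
  have hb0 : 0 < b := by linarith
  unfold DD' TT
  congr 1
  apply intervalIntegral.integral_congr
  intro α hα
  rw [Set.uIcc_of_le hkb] at hα
  simp only
  rw [WW_w0 (div_nonneg (by linarith [hα.1]) hb0.le) ((div_le_one hb0).2 hα.2)]

theorem tent_S (hMB : S_MB) (S : Finset (DirichletCharacter ℂ q)) (hS : S.Nonempty)
    (b k ε : ℝ) (hb : 1 ≤ b) (hk0 : 0 ≤ k) (hk1 : k ≤ 1) (hε : 0 < ε) :
    ∃ T0 : ℝ, 10 ≤ T0 ∧ ∀ T : ℝ, T0 ≤ T →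
      (1 - (S.card - 1) / b - 1 / (3 * b ^ 2) - 2 / b * TT S.card b k T (aS S) - ε) *
        NZ (ZS S T) (mS S) ≤ ((Z1 (ZS S T) (mS S)).card : ℝ) ∧
      (1 - (S.card - 1) / (2 * b) - 1 / (6 * b ^ 2) - 1 / b * TT S.card b k T (aS S) - ε) *
        NZ (ZS S T) (mS S) ≤ ((ZS S T).card : ℝ) := by
  have hb0 : 0 < b := by linarith
  obtain ⟨T0, hT0, h⟩ := main_S1 hMB S hS w0_win b k ε hb0 hk0 hk1 (hk1.trans hb) hε
  refine ⟨T0, hT0, fun T hT => ?_⟩
  obtain ⟨k1, k2⟩ := h T hT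
  have hN0 : 0 ≤ NZ (ZS S T) (mS S) := Finset.sum_nonneg fun s _ => Nat.cast_nonneg _
  rw [CC_w0 hb, DD_w0 hb hk0 (hk1.trans hb)] at k1 k2
  obtain ⟨J, hJ⟩ : ∃ J : ℝ, J = TT S.card b k T (aS S) := ⟨_, rfl⟩
  rw [← hJ] at k1 k2 ⊢
  constructor
  · refine le_trans (le_of_eq ?_) k1
    ring
  · have e1 : (3 - (1 + ((S.card : ℝ) - 1) / b + 1 / (3 * b ^ 2)) - 2 / b * J - ε) *
        NZ (ZS S T) (mS S) = 2 * ((1 - ((S.card : ℝ) - 1) / (2 * b) - 1 / (6 * b ^ 2) - 1 / b * J - ε) *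
        NZ (ZS S T) (mS S)) + ε * NZ (ZS S T) (mS S) := by
      field_simp
      ring
    rw [e1] at k2
    have := mul_nonneg hε.le hN0
    linarith

end H479.Y
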